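import Mathlib
import Pool.Agent.H14.Win.Bad
import Pool.Agent.H80.W.PatZ

set_option autoImplicit false
open Finset

/-! # Displacement in the language of link patterns: the toggles (route W, B10)

`BoxF Z M F` : the functional `F` of the set of the open labels of the zone `Z` does not change, if a label
of the box `M` is opened and (A) its ends are joined in the box, (B) they are not joined and the cluster of one end
stays in the box, (C) its sides are joined off it in the box, (D) they are not joined off it and the dual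
cluster of one of them stays in the box. `BoxF.of_pat` : functionals of the link pattern (`H80.W.PatF`) for boxes in
the zone. `BoxF.union` : more open labels off the box (strings, roots). `BoxF.sum` : combinations.
`BadP` : if the event does not occur, the labels of the small box have no effect on `F`. `badPW`, `badPF`,
`badPM` : wired reflex corner, free reflex corner, two walls. The box is `BR p r ∩ Z`; the labels next to a
random label of the box are in the zone (`MgZ`). -/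

namespace Pool.Agent.H14.W

open Pool.Agent.H75.Perc hiding ph
open Pool.Agent.H75.TwoArm Pool.Agent.H75.Four Pool.Agent.H69.Q1
open Pool.Agent.Q1 Pool.Agent.H43.Q1 Pool.Agent.H39.Q1 Pool.Agent.Q1.M6c
open Pool.Agent.H60.Q1 Pool.Agent.H99.NC Pool.Agent.H42.FM Pool.Agent.H44.FM Pool.Agent.H14.R45
open Pool.Agent.H14.Win
open Pool.Agent.H20.Q1 (last_exit BR_ends BR_of_ends)

variable {β : Type*} {Z Z' M M' E W ω w S : Finset (ℤ × ℤ)} {e t u v x y φ ψ c : ℤ × ℤ}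
  {Vw Fw : ℤ × ℤ → Prop} {F : Finset (ℤ × ℤ) → β} {p : ℤ × ℤ} {r s : ℕ}

/-- **`F` does not see the toggles in the box `M` which do not change the connections.** -/
structure BoxF (Z M : Finset (ℤ × ℤ)) (F : Finset (ℤ × ℤ) → β) : Prop where
  A : ∀ w e u v, w ⊆ Z → e ∈ M → e ∉ w → IsUnit4 (v - u) → u + v = e → Co (w ∩ M) u v →
    F w = F (insert e w)
  B : ∀ w e u v, w ⊆ Z → e ∈ M → e ∉ w → IsUnit4 (v - u) → u + v = e → ¬ Co w u v →
    (∀ x, Co w v x → InV M x) → F w = F (insert e w)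
  C : ∀ w e φ ψ, w ⊆ Z → e ∈ M → e ∉ w → IsUnit4 (ψ - φ) → φ + ψ = e + (1, 1) →
    Co (du (M.erase e) w) φ ψ → F w = F (insert e w)
  D : ∀ w e φ ψ, w ⊆ Z → e ∈ M → e ∉ w → IsUnit4 (ψ - φ) → φ + ψ = e + (1, 1) →
    ¬ DCo (insert e w) φ ψ → (∀ x, DCo (insert e w) φ x → InF M x) → F w = F (insert e w)

lemma du_mono_l {A B : Finset (ℤ × ℤ)} (h : A ⊆ B) : du A ω ⊆ du B ω := by
  unfold du
  exact map_subset_map.2 (sdiff_subset_sdiff h (Subset.refl _))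

/-- functionals of the link pattern -/
theorem BoxF.of_pat {Lg : Set (ℤ × ℤ)} (h : H80.W.PatF Z Lg F) (hM : M ⊆ Z) : BoxF Z M F where
  A w e u v hw he hew h1 h2 h3 := h.A hw (hM he) hew h1 h2 (h3.mono inter_subset_left)
  B w e u v hw he hew h1 h2 h3 h4 := h.B hw (hM he) hew h1 h2 h3 (by
    rintro x hx ⟨y, hy, hy'⟩
    exact hy' (hM (h4 x hx y hy)))
  C w e φ ψ hw he hew h1 h2 h3 := h.C hw (hM he) hew h1 h2
    (h3.mono (du_mono_l (erase_subset_erase _ hM)))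
  D w e φ ψ hw he hew h1 h2 h3 h4 := h.D hw (hM he) hew h1 h2 h3 (by
    rintro x hx ⟨y, hy, hy'⟩
    exact hy' (hM (h4 x hx y hy)))

/-- a smaller box, a smaller zone -/
theorem BoxF.mono (h : BoxF Z M F) (hM : M' ⊆ M) (hZ : Z' ⊆ Z) : BoxF Z' M' F where
  A w e u v hw he hew h1 h2 h3 := h.A w e u v (hw.trans hZ) (hM he) hew h1 h2
    (h3.mono (inter_subset_inter_left hM))
  B w e u v hw he hew h1 h2 h3 h4 := h.B w e u v (hw.trans hZ) (hM he) hew h1 h2 h3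
    fun x hx y hy => hM (h4 x hx y hy)
  C w e φ ψ hw he hew h1 h2 h3 := h.C w e φ ψ (hw.trans hZ) (hM he) hew h1 h2
    (h3.mono (du_mono_l (erase_subset_erase _ hM)))
  D w e φ ψ hw he hew h1 h2 h3 h4 := h.D w e φ ψ (hw.trans hZ) (hM he) hew h1 h2 h3
    fun x hx y hy => hM (h4 x hx y hy)

/-- **more open labels off the box** -/
theorem BoxF.union (h : BoxF Z M F) (hS : S ⊆ Z) (hd : Disjoint S M) :
    BoxF Z M fun w => F (w ∪ S) where
  A w e u v hw he hew h1 h2 h3 := by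
    rw [insert_union]
    refine h.A _ e u v (union_subset hw hS) he ?_ h1 h2 (h3.mono (inter_subset_inter_right subset_union_left))
    rw [mem_union, not_or]
    exact ⟨hew, fun hs => disjoint_left.1 hd hs he⟩
  B w e u v hw he hew h1 h2 h3 h4 := by
    rw [insert_union]
    have key : ∀ x, Co (w ∪ S) v x → Co w v x := by
      intro x hx
      induction hx with
      | refl => exact Co.refl _ _
      | @tail b d _ hbd ih =>
        have hM := h4 b ih d hbd.1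
        exact ih.tail ⟨hbd.1, (mem_union.1 hbd.2).resolve_right fun hs => disjoint_left.1 hd hs hM⟩
    refine h.B _ e u v (union_subset hw hS) he ?_ h1 h2 (fun h5 => h3 (key _ h5.symm).symm)
      fun x hx => h4 x (key x hx)
    rw [mem_union, not_or]
    exact ⟨hew, fun hs => disjoint_left.1 hd hs he⟩
  C w e φ ψ hw he hew h1 h2 h3 := by
    rw [insert_union]
    refine h.C _ e φ ψ (union_subset hw hS) he ?_ h1 h2 ?_
    · rw [mem_union, not_or]
      exact ⟨hew, fun hs => disjoint_left.1 hd hs he⟩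
    · refine h3.mono ?_
      unfold du
      refine map_subset_map.2 fun l hl => ?_
      obtain ⟨g1, g2⟩ := mem_sdiff.1 hl
      refine mem_sdiff.2 ⟨g1, ?_⟩
      rw [mem_union, not_or]
      exact ⟨g2, fun hs => disjoint_left.1 hd hs (mem_of_mem_erase g1)⟩
  D w e φ ψ hw he hew h1 h2 h3 h4 := by
    rw [insert_union]
    have hsub : insert e w ⊆ insert e w ∪ S := subset_union_left
    refine h.D _ e φ ψ (union_subset hw hS) he ?_ h1 h2 ?_ ?_
    · rw [mem_union, not_or]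
      exact ⟨hew, fun hs => disjoint_left.1 hd hs he⟩
    · rw [← insert_union]
      exact fun h5 => h3 (h5.anti hsub)
    · intro x hx
      rw [← insert_union] at hx
      exact h4 x (hx.anti hsub)

/-- combinations -/
theorem BoxF.sum {κ : Type*} {K : Finset κ} {wt : κ → ℂ} {G : κ → Finset (ℤ × ℤ) → ℂ}
    (h : ∀ k ∈ K, BoxF Z M (G k)) : BoxF Z M fun w => ∑ k ∈ K, wt k * G k w where
  A w e u v hw he hew h1 h2 h3 := sum_congr rfl fun k hk => by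
    rw [(h k hk).A w e u v hw he hew h1 h2 h3]
  B w e u v hw he hew h1 h2 h3 h4 := sum_congr rfl fun k hk => by
    rw [(h k hk).B w e u v hw he hew h1 h2 h3 h4]
  C w e φ ψ hw he hew h1 h2 h3 := sum_congr rfl fun k hk => by
    rw [(h k hk).C w e φ ψ hw he hew h1 h2 h3]
  D w e φ ψ hw he hew h1 h2 h3 h4 := sum_congr rfl fun k hk => by
    rw [(h k hk).D w e φ ψ hw he hew h1 h2 h3 h4]

/-! ### One toggle -/

/-- the data of a toggle -/
structure TgP (Z E W M ω : Finset (ℤ × ℤ)) (t : ℤ × ℤ) : Prop where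
  EZ : E ⊆ Z
  WZ : W ⊆ Z
  te : t ∈ E
  tM : t ∈ M
  dis : Disjoint E W
  hω : ω ⊆ E
  tω : t ∉ ω

lemma TgP.tW (T : TgP Z E W M ω t) : t ∉ W := disjoint_left.1 T.dis T.te

lemma TgP.tw (T : TgP Z E W M ω t) : t ∉ ω ∪ W := by
  rw [mem_union, not_or]; exact ⟨T.tω, T.tW⟩

lemma TgP.sub' (T : TgP Z E W M ω t) : ω ∪ W ⊆ Z := union_subset (T.hω.trans T.EZ) T.WZ

lemma TgP.ins (_T : TgP Z E W M ω t) : insert t (ω ∪ W) = insert t ω ∪ W := (insert_union _ _ _).symm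

/-- the open cluster of an end of `t` which is confined and does not touch the wall -/
lemma cl_open (T : TgP Z E W M ω t) (L : LW E W M Vw) {a a' : ℤ × ℤ} (g1 : IsUnit4 (a' - a))
    (g2 : a + a' = t) (hO : ∀ x, Co (ω ∩ (E ∩ M)) a x → InV M x)
    (hno : ¬ ∃ z, Vw z ∧ Co ((ω ∪ W) ∩ M) a z) {x : ℤ × ℤ} (hx : Co (ω ∪ W) a x) :
    Co (ω ∩ (E ∩ M)) a x := by
  induction hx with
  | refl => exact Co.refl _ _
  | @tail b d _ hbd ih =>
    have hl : b + d ∈ M := hO b ih d hbd.1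
    rcases mem_union.1 hbd.2 with h | h
    · exact ih.tail ⟨hbd.1, mem_inter.2 ⟨h, mem_inter.2 ⟨T.hω h, hl⟩⟩⟩
    · exfalso
      have h7 : ∃ y', IsUnit4 (y' - b) ∧ b + y' ∈ E ∩ M := by
        by_cases hab : a = b
        · subst hab
          exact ⟨a', g1, by rw [g2]; exact mem_inter.2 ⟨T.te, T.tM⟩⟩
        · obtain ⟨y, hy1, hy2⟩ := last_edge ih hab
          exact ⟨y, hy1, (mem_inter.1 hy2).2⟩
      obtain ⟨y', h8, h9⟩ := h7
      refine hno ⟨b, L.hit b d y' hbd.1 h hl h8 h9, ih.mono ?_⟩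
      intro e he
      obtain ⟨e1, e2⟩ := mem_inter.1 he
      exact mem_inter.2 ⟨mem_union_left _ e1, (mem_inter.1 e2).2⟩

/-- an end of `t` whose open cluster is confined and does not touch the wall -/
theorem conf_openP (B : BoxF Z M F) (T : TgP Z E W M ω t) (L : LW E W M Vw) {a a' : ℤ × ℤ}
    (g1 : IsUnit4 (a' - a)) (g2 : a + a' = t) (hO : ∀ x, Co (ω ∩ (E ∩ M)) a x → InV M x)
    (hno : ¬ ∃ z, Vw z ∧ Co ((ω ∪ W) ∩ M) a z) : F (ω ∪ W) = F (insert t ω ∪ W) := by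
  have hcl := fun x (hx : Co (ω ∪ W) a x) => cl_open T L g1 g2 hO hno hx
  rw [← T.ins]
  by_cases hj : Co (ω ∪ W) a a'
  · refine B.A _ t a a' T.sub' T.tM T.tw g1 g2 ((hcl a' hj).mono ?_)
    intro e he
    obtain ⟨e1, e2⟩ := mem_inter.1 he
    exact mem_inter.2 ⟨mem_union_left _ e1, (mem_inter.1 e2).2⟩
  · exact B.B _ t a' a T.sub' T.tM T.tw (H39.Q1.unit_symm g1) (by rw [add_comm]; exact g2)
      (fun h => hj h.symm) fun x hx => hO x (hcl x hx)

/-- the closed cluster of a side of `t` which is confined and does not touch the wall -/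
lemma cl_closed (T : TgP Z E W M ω t) (L : LC E W M Fw) {a a' : ℤ × ℤ}
    (g1 : IsUnit4 (a' - a)) (g2 : a + a' = t + (1, 1))
    (hC : ∀ x, Co (du ((E.erase t) ∩ M) ω) a x → InF M x)
    (hno : ¬ ∃ z, Fw z ∧ Co (du (M.erase t) (ω ∪ W)) a z) {x : ℤ × ℤ}
    (hx : DCo (insert t (ω ∪ W)) a x) : Co (du ((E.erase t) ∩ M) ω) a x := by
  refine DCo.ind (P := fun x => Co (du ((E.erase t) ∩ M) ω) a x) hx (Co.refl _ _) ?_
  intro b d ih hbd hl
  rw [mem_insert, mem_union, not_or, not_or] at hl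
  obtain ⟨hl1, hl2, hl3⟩ := hl
  have hM : b + d - (1, 1) ∈ M := hC b ih d hbd
  by_cases h : b + d - (1, 1) ∈ E
  · exact ih.tail ⟨hbd, mem_du_of (mem_inter.2 ⟨mem_erase.2 ⟨hl1, h⟩, hM⟩) hl2⟩
  · exfalso
    have h7 : ∃ y', IsUnit4 (y' - b) ∧ b + y' - (1, 1) ∈ E ∩ M := by
      by_cases hab : a = b
      · subst hab
        exact ⟨a', g1, by rw [g2, add_sub_cancel_right]; exact mem_inter.2 ⟨T.te, T.tM⟩⟩
      · obtain ⟨y, hy1, hy2⟩ := last_edge ih hab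
        refine ⟨y, hy1, ?_⟩
        unfold du at hy2
        obtain ⟨l, hl, hl'⟩ := mem_map.1 hy2
        have e : b + y - (1, 1) = l := by
          rw [← hl']; unfold sh1; simp
        rw [e]
        obtain ⟨k1, k2⟩ := mem_inter.1 (mem_sdiff.1 hl).1
        exact mem_inter.2 ⟨mem_of_mem_erase k1, k2⟩
    obtain ⟨y', h8, h9⟩ := h7
    refine hno ⟨b, L.hit b d y' hbd hM h hl3 h8 h9, ih.mono ?_⟩
    intro e he
    unfold du at he ⊢
    obtain ⟨l, hl, he⟩ := mem_map.1 he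
    obtain ⟨e1, e2⟩ := mem_sdiff.1 hl
    obtain ⟨e3, e4⟩ := mem_inter.1 e1
    refine mem_map.2 ⟨l, mem_sdiff.2 ⟨mem_erase.2 ⟨(mem_erase.1 e3).1, e4⟩, ?_⟩, he⟩
    rw [mem_union, not_or]
    exact ⟨e2, fun h => disjoint_left.1 T.dis (mem_of_mem_erase e3) h⟩

/-- a side of `t` whose closed cluster is confined and does not touch the wall -/
theorem conf_closedP (B : BoxF Z M F) (T : TgP Z E W M ω t) (L : LC E W M Fw) {a a' : ℤ × ℤ}
    (g1 : IsUnit4 (a' - a)) (g2 : a + a' = t + (1, 1))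
    (hC : ∀ x, Co (du ((E.erase t) ∩ M) ω) a x → InF M x)
    (hno : ¬ ∃ z, Fw z ∧ Co (du (M.erase t) (ω ∪ W)) a z) : F (ω ∪ W) = F (insert t ω ∪ W) := by
  have hcl := fun x (hx : DCo (insert t (ω ∪ W)) a x) => cl_closed T L g1 g2 hC hno hx
  rw [← T.ins]
  by_cases hj : DCo (insert t (ω ∪ W)) a a'
  · refine B.C _ t a a' T.sub' T.tM T.tw g1 g2 ((hcl a' hj).mono ?_)
    intro e he
    unfold du at he ⊢
    obtain ⟨l, hl, he⟩ := mem_map.1 he
    obtain ⟨e1, e2⟩ := mem_sdiff.1 hl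
    obtain ⟨e3, e4⟩ := mem_inter.1 e1
    refine mem_map.2 ⟨l, mem_sdiff.2 ⟨mem_erase.2 ⟨(mem_erase.1 e3).1, e4⟩, ?_⟩, he⟩
    rw [mem_union, not_or]
    exact ⟨e2, fun h => disjoint_left.1 T.dis (mem_of_mem_erase e3) h⟩
  · exact B.D _ t a a' T.sub' T.tM T.tw g1 g2 hj fun x hx => hC x (hcl x hx)

/-- both ends at the wall -/
theorem both_openP (B : BoxF Z M F) (T : TgP Z E W M ω t) (L : LW E W M Vw) (h1 : IsUnit4 (v - u))
    (h2 : u + v = t) (nu : ∃ z, Vw z ∧ Co ((ω ∪ W) ∩ M) u z)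
    (nv : ∃ z, Vw z ∧ Co ((ω ∪ W) ∩ M) v z) : F (ω ∪ W) = F (insert t ω ∪ W) := by
  obtain ⟨z, hz, h3⟩ := nu
  obtain ⟨z', hz', h4⟩ := nv
  have h5 : Co ((ω ∪ W) ∩ M) z z' := (L.jo z z' hz hz').mono
    (inter_subset_inter_right subset_union_right)
  rw [← T.ins]
  exact B.A _ t u v T.sub' T.tM T.tw h1 h2 ((h3.trans h5).trans h4.symm)

theorem both_closedP (B : BoxF Z M F) (T : TgP Z E W M ω t) (L : LC E W M Fw) (h1 : IsUnit4 (ψ - φ))
    (h2 : φ + ψ = t + (1, 1)) (nu : ∃ z, Fw z ∧ Co (du (M.erase t) (ω ∪ W)) φ z)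
    (nv : ∃ z, Fw z ∧ Co (du (M.erase t) (ω ∪ W)) ψ z) : F (ω ∪ W) = F (insert t ω ∪ W) := by
  obtain ⟨z, hz, h3⟩ := nu
  obtain ⟨z', hz', h4⟩ := nv
  have h5 : Co (du (M.erase t) (ω ∪ W)) z z' := by
    refine (L.jo z z' hz hz').mono ?_
    intro e he
    unfold du at he ⊢
    obtain ⟨l, hl, he⟩ := mem_map.1 he
    obtain ⟨e1, e2⟩ := mem_sdiff.1 hl
    obtain ⟨e3, e4⟩ := mem_sdiff.1 e1
    refine mem_map.2 ⟨l, mem_sdiff.2 ⟨mem_erase.2 ⟨fun h => e4 (h ▸ T.te), e3⟩, ?_⟩, he⟩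
    rw [mem_union, not_or]
    exact ⟨fun h => e4 (T.hω h), e2⟩
  rw [← T.ins]
  exact B.C _ t φ ψ T.sub' T.tM T.tw h1 h2 ((h3.trans h5).trans h4.symm)

/-- **wired walls** : toggling `t` has no effect, if no cluster of an end of `t` leaves the box without
touching the wall -/
theorem togP_W (B : BoxF Z M F) (T : TgP Z E W M ω t) (L : LW E W M Vw) (h1 : IsUnit4 (v - u))
    (h2 : u + v = t) (h : ¬ ∃ a x, (a = u ∨ a = v) ∧ ¬ InV M x ∧ Co (ω ∩ (E ∩ M)) a x ∧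
      ∀ z, Co (ω ∩ (E ∩ M)) a z → ¬ Vw z) : F (ω ∪ W) = F (insert t ω ∪ W) := by
  have key : ∀ a a', IsUnit4 (a' - a) → a + a' = t → (a = u ∨ a = v) →
      (¬ ∃ z, Vw z ∧ Co ((ω ∪ W) ∩ M) a z) → F (ω ∪ W) = F (insert t ω ∪ W) := by
    intro a a' g1 g2 ga hno
    refine conf_openP B T L g1 g2 (fun x hx => ?_) hno
    by_contra hc
    refine h ⟨a, x, ga, hc, hx, fun z hz hV => hno ⟨z, hV, hz.mono ?_⟩⟩
    intro e he
    obtain ⟨e1, e2⟩ := mem_inter.1 he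
    exact mem_inter.2 ⟨mem_union_left _ e1, (mem_inter.1 e2).2⟩
  by_cases nu : ∃ z, Vw z ∧ Co ((ω ∪ W) ∩ M) u z
  · by_cases nv : ∃ z, Vw z ∧ Co ((ω ∪ W) ∩ M) v z
    · exact both_openP B T L h1 h2 nu nv
    · exact key v u (H39.Q1.unit_symm h1) (by rw [add_comm]; exact h2) (Or.inr rfl) nv
  · exact key u v h1 h2 (Or.inl rfl) nu

/-- **free walls** -/
theorem togP_F (B : BoxF Z M F) (T : TgP Z E W M ω t) (L : LC E W M Fw) (h1 : IsUnit4 (ψ - φ))
    (h2 : φ + ψ = t + (1, 1)) (h : ¬ ∃ a x, (a = φ ∨ a = ψ) ∧ ¬ InF M x ∧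
      Co (du ((E.erase t) ∩ M) ω) a x ∧ ∀ z, Co (du ((E.erase t) ∩ M) ω) a z → ¬ Fw z) :
    F (ω ∪ W) = F (insert t ω ∪ W) := by
  have hEW : Disjoint (E.erase t) W := T.dis.mono_left (erase_subset _ _)
  have key : ∀ a a', IsUnit4 (a' - a) → a + a' = t + (1, 1) → (a = φ ∨ a = ψ) →
      (¬ ∃ z, Fw z ∧ Co (du (M.erase t) (ω ∪ W)) a z) → F (ω ∪ W) = F (insert t ω ∪ W) := by
    intro a a' g1 g2 ga hno
    refine conf_closedP B T L g1 g2 (fun x hx => ?_) hno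
    by_contra hc
    refine h ⟨a, x, ga, hc, hx, fun z hz hV => hno ⟨z, hV, hz.mono ?_⟩⟩
    intro e he
    unfold du at he ⊢
    obtain ⟨l, hl, he⟩ := mem_map.1 he
    obtain ⟨e1, e2⟩ := mem_sdiff.1 hl
    obtain ⟨e3, e4⟩ := mem_inter.1 e1
    refine mem_map.2 ⟨l, mem_sdiff.2 ⟨mem_erase.2 ⟨(mem_erase.1 e3).1, e4⟩, ?_⟩, he⟩
    rw [mem_union, not_or]
    exact ⟨e2, fun h => disjoint_left.1 hEW e3 h⟩
  by_cases nu : ∃ z, Fw z ∧ Co (du (M.erase t) (ω ∪ W)) φ z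
  · by_cases nv : ∃ z, Fw z ∧ Co (du (M.erase t) (ω ∪ W)) ψ z
    · exact both_closedP B T L h1 h2 nu nv
    · exact key ψ φ (H39.Q1.unit_symm h1) (by rw [add_comm]; exact h2) (Or.inr rfl) nv
  · exact key φ ψ h1 h2 (Or.inl rfl) nu

/-- **two walls** : no open arm or no closed arm -/
theorem togP_M (B : BoxF Z M F) (T : TgP Z E W M ω t) (L : LW E W M Vw) (L' : LC E W M Fw)
    (h1 : IsUnit4 (v - u)) (h2 : u + v = t) (h3 : IsUnit4 (ψ - φ)) (h4 : φ + ψ = t + (1, 1))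
    (h : ¬ ((∃ a x, (a = u ∨ a = v) ∧ ¬ InV M x ∧ Co (ω ∩ (E ∩ M)) a x) ∧
      ∃ a x, (a = φ ∨ a = ψ) ∧ ¬ InF M x ∧ Co (du ((E.erase t) ∩ M) ω) a x)) :
    F (ω ∪ W) = F (insert t ω ∪ W) := by
  by_cases hA : ∃ a x, (a = u ∨ a = v) ∧ ¬ InV M x ∧ Co (ω ∩ (E ∩ M)) a x
  · refine togP_F B T L' h3 h4 ?_
    rintro ⟨a, x, g1, g2, g3, -⟩
    exact h ⟨hA, a, x, g1, g2, g3⟩
  · refine togP_W B T L h1 h2 ?_
    rintro ⟨a, x, g1, g2, g3, -⟩
    exact hA ⟨a, x, g1, g2, g3⟩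

/-! ### Bad events -/

/-- **bad event** -/
structure BadP (Z E W : Finset (ℤ × ℤ)) (p : ℤ × ℤ) (r s : ℕ) (Bad : Finset (ℤ × ℤ) → Prop) : Prop where
  tog : ∀ (β : Type) (F : Finset (ℤ × ℤ) → β) (t : ℤ × ℤ) (ω : Finset (ℤ × ℤ)),
    BoxF Z (BR p r ∩ Z) F → t ∈ E → ω ⊆ E → t ∉ ω → t ∈ BR p s → ¬ Bad ω →
    F (ω ∪ W) = F (insert t ω ∪ W)
  loc : ∀ ω ω', ω ∩ Eo E p r s = ω' ∩ Eo E p r s → (Bad ω ↔ Bad ω')

/-- the labels of the box next to a random label of the box are in the zone -/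
structure MgZ (Z E M : Finset (ℤ × ℤ)) : Prop where
  v : ∀ x y z, IsUnit4 (y - x) → x + y ∈ E → x + y ∈ M → IsUnit4 (z - x) → x + z ∈ M → x + z ∈ Z
  f : ∀ x y z, IsUnit4 (y - x) → x + y - (1, 1) ∈ E → x + y - (1, 1) ∈ M → IsUnit4 (z - x) →
    x + z - (1, 1) ∈ M → x + z - (1, 1) ∈ Z

lemma MgZ.arm (G : MgZ Z E M) (te : t ∈ E) (tM : t ∈ M) {a a' : ℤ × ℤ}
    (g1 : IsUnit4 (a' - a)) (g2 : a + a' = t) (hx : Co (ω ∩ (E ∩ (M ∩ Z))) a x)
    (hn : ¬ InV (M ∩ Z) x) : ¬ InV M x ∧ Co (ω ∩ (E ∩ M)) a x := by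
  constructor
  · intro h
    refine hn fun y hy => mem_inter.2 ⟨h y hy, ?_⟩
    by_cases hax : a = x
    · subst hax
      exact G.v a a' y g1 (by rw [g2]; exact te) (by rw [g2]; exact tM) hy (h y hy)
    · obtain ⟨z, h1, h2⟩ := last_edge hx hax
      obtain ⟨-, h3⟩ := mem_inter.1 h2
      obtain ⟨h4, h5⟩ := mem_inter.1 h3
      exact G.v x z y h1 h4 (mem_inter.1 h5).1 hy (h y hy)
  · exact hx.mono (inter_subset_inter_left (inter_subset_inter_left inter_subset_left))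

lemma MgZ.armf (G : MgZ Z E M) (te : t ∈ E) (tM : t ∈ M) {a a' : ℤ × ℤ}
    (g1 : IsUnit4 (a' - a)) (g2 : a + a' = t + (1, 1)) (hx : Co (du ((E.erase t) ∩ (M ∩ Z)) ω) a x)
    (hn : ¬ InF (M ∩ Z) x) : ¬ InF M x ∧ Co (du ((E.erase t) ∩ M) ω) a x := by
  constructor
  · intro h
    refine hn fun y hy => mem_inter.2 ⟨h y hy, ?_⟩
    by_cases hax : a = x
    · subst hax
      have e : a + a' - (1, 1) = t := by rw [g2, add_sub_cancel_right]
      exact G.f a a' y g1 (by rw [e]; exact te) (by rw [e]; exact tM) hy (h y hy)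
    · obtain ⟨z, h1, h2⟩ := last_edge hx hax
      unfold du at h2
      obtain ⟨l, hl, hl'⟩ := mem_map.1 h2
      have e : x + z - (1, 1) = l := by
        rw [← hl']; unfold sh1; simp
      obtain ⟨h4, h5⟩ := mem_inter.1 (mem_sdiff.1 hl).1
      exact G.f x z y h1 (by rw [e]; exact mem_of_mem_erase h4) (by rw [e]; exact (mem_inter.1 h5).1)
        hy (h y hy)
  · exact hx.mono (du_mono_l (inter_subset_inter_left inter_subset_left))

lemma inter_EZ (hE : E ⊆ Z) : E ∩ (M ∩ Z) = E ∩ M := by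
  ext l
  simp only [mem_inter]
  exact ⟨fun h => ⟨h.1, h.2.1⟩, fun h => ⟨h.1, h.2, hE h.1⟩⟩

theorem badPW (L : LW E W (BR p r ∩ Z) Vw) (G : MgZ Z E (BR p r)) (hsr : s < r)
    (ho : ∀ e ∈ E, (e.1 + e.2) % 2 = 1) (hd : Disjoint E W) (hE : E ⊆ Z) (hW : W ⊆ Z) :
    BadP Z E W p r s (BW E p r s Vw) := by
  refine ⟨fun β F t ω B te g3 g4 ht hB => ?_, BW_loc⟩
  have tM : t ∈ BR p r := Pool.Agent.H20.Q1.BR_mono (by exact_mod_cast hsr.le) ht
  have T : TgP Z E W (BR p r ∩ Z) ω t := ⟨hE, hW, te, mem_inter.2 ⟨tM, hE te⟩, hd, g3, g4⟩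
  have hodd := ho t te
  refine togP_W B T L (ends_vx hodd).1 (ends_vx hodd).2 ?_
  rintro ⟨a, x, ha, hx, hc, hz⟩
  have e1 := ends_vx hodd
  have hin : inR p s a ∧ ∃ a', IsUnit4 (a' - a) ∧ a + a' = t := by
    rcases ha with rfl | rfl
    · exact ⟨(ends_inR hodd ht).1, _, e1⟩
    · exact ⟨(ends_inR hodd ht).2, _, H39.Q1.unit_symm e1.1, by rw [add_comm]; exact e1.2⟩
  obtain ⟨hin, b, hb1, hb2⟩ := hin
  obtain ⟨hx', hc'⟩ := G.arm te tM hb1 hb2 hc hx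
  obtain ⟨a', h1, h2, h3⟩ := out_open (E := E) (A := E ∩ BR p r) (Subset.refl _) hc' hin hx' hsr
  refine hB ⟨a', x, h1, hx', h2, fun z h4 => hz z ?_⟩
  rw [inter_EZ hE]
  exact h3.trans (h4.mono (inter_subset_inter_left (inter_subset_inter_right sdiff_subset)))

theorem badPF (L : LC E W (BR p r ∩ Z) Fw) (G : MgZ Z E (BR p r)) (hsr : s + 1 < r)
    (ho : ∀ e ∈ E, (e.1 + e.2) % 2 = 1) (hd : Disjoint E W) (hE : E ⊆ Z) (hW : W ⊆ Z) :
    BadP Z E W p r s (BF E p r s Fw) := by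
  refine ⟨fun β F t ω B te g3 g4 ht hB => ?_, BF_loc⟩
  have tM : t ∈ BR p r := Pool.Agent.H20.Q1.BR_mono (by omega) ht
  have T : TgP Z E W (BR p r ∩ Z) ω t := ⟨hE, hW, te, mem_inter.2 ⟨tM, hE te⟩, hd, g3, g4⟩
  have hodd := ho t te
  refine togP_F B T L (sides_fi hodd).1 (sides_fi hodd).2 ?_
  rintro ⟨a, x, ha, hx, hc, hz⟩
  have e1 := sides_fi hodd
  have hin : inR p (s + 1) a ∧ ∃ a', IsUnit4 (a' - a) ∧ a + a' = t + (1, 1) := by
    rcases ha with rfl | rfl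
    · exact ⟨(sides_inR hodd ht).1, _, e1⟩
    · exact ⟨(sides_inR hodd ht).2, _, H39.Q1.unit_symm e1.1, by rw [add_comm]; exact e1.2⟩
  obtain ⟨hin, b, hb1, hb2⟩ := hin
  obtain ⟨hx', hc'⟩ := G.armf te tM hb1 hb2 hc hx
  obtain ⟨a', h1, h2, h3⟩ := out_closed (E := E) (A := E.erase t ∩ BR p r)
    (inter_subset_inter_right (erase_subset _ _)) hc' hin hx' hsr
  refine hB ⟨a', x, h1, hx', h2, fun z h4 => hz z ?_⟩
  have e2 : E.erase t ∩ (BR p r ∩ Z) = E.erase t ∩ BR p r := inter_EZ ((erase_subset _ _).trans hE)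
  rw [e2]
  refine h3.trans (h4.mono ?_)
  unfold du Eo
  refine map_subset_map.2 (sdiff_subset_sdiff (inter_subset_inter_right ?_) (Subset.refl _))
  intro l hl
  obtain ⟨g1, g2⟩ := mem_sdiff.1 hl
  exact mem_erase.2 ⟨fun h => g2 (h ▸ ht), g1⟩

theorem badPM (L : LW E W (BR p r ∩ Z) Vw) (L' : LC E W (BR p r ∩ Z) Fw) (G : MgZ Z E (BR p r))
    (hsr : s + 1 < r) (ho : ∀ e ∈ E, (e.1 + e.2) % 2 = 1) (hd : Disjoint E W) (hE : E ⊆ Z)
    (hW : W ⊆ Z) : BadP Z E W p r s (fun ω => BO E p r s ω ∧ BC E p r s ω) := by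
  refine ⟨fun β F t ω B te g3 g4 ht hB => ?_,
    fun ω ω' h => and_congr (BO_loc ω ω' h) (BC_loc ω ω' h)⟩
  have tM : t ∈ BR p r := Pool.Agent.H20.Q1.BR_mono (by omega) ht
  have T : TgP Z E W (BR p r ∩ Z) ω t := ⟨hE, hW, te, mem_inter.2 ⟨tM, hE te⟩, hd, g3, g4⟩
  have hodd := ho t te
  have e1 := ends_vx hodd
  have e2 := sides_fi hodd
  refine togP_M B T L L' e1.1 e1.2 e2.1 e2.2 ?_
  rintro ⟨⟨a, x, ha, hx, hc⟩, b, y, hb, hy, hd⟩
  refine hB ⟨?_, ?_⟩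
  · have hin : inR p s a ∧ ∃ a', IsUnit4 (a' - a) ∧ a + a' = t := by
      rcases ha with rfl | rfl
      · exact ⟨(ends_inR hodd ht).1, _, e1⟩
      · exact ⟨(ends_inR hodd ht).2, _, H39.Q1.unit_symm e1.1, by rw [add_comm]; exact e1.2⟩
    obtain ⟨hin, b, hb1, hb2⟩ := hin
    obtain ⟨hx', hc'⟩ := G.arm te tM hb1 hb2 hc hx
    obtain ⟨a', h1, h2, -⟩ := out_open (E := E) (A := E ∩ BR p r) (Subset.refl _) hc' hin hx'
      (by omega)
    exact ⟨a', x, h1, hx', h2⟩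
  · have hin : inR p (s + 1) b ∧ ∃ a', IsUnit4 (a' - b) ∧ b + a' = t + (1, 1) := by
      rcases hb with rfl | rfl
      · exact ⟨(sides_inR hodd ht).1, _, e2⟩
      · exact ⟨(sides_inR hodd ht).2, _, H39.Q1.unit_symm e2.1, by rw [add_comm]; exact e2.2⟩
    obtain ⟨hin, a', hb1, hb2⟩ := hin
    obtain ⟨hy', hd'⟩ := G.armf te tM hb1 hb2 hd hy
    obtain ⟨a'', h1, h2, -⟩ := out_closed (E := E) (A := E.erase t ∩ BR p r)
      (inter_subset_inter_right (erase_subset _ _)) hd' hin hy' hsr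
    exact ⟨a'', y, h1, hy', h2⟩

end Pool.Agent.H14.W
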