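import Mathlib
import Pool.Agent.H72.W.NXA

set_option autoImplicit false
open Finset

/-! # Natural windows with a flat right wall near a corner (route W)

Coordinates of `P`. `EPn D s X Y` : random tiles of `P` with the walls of the kinds `s` pushed out by one.
`LNE`, `LSE` : convex corners of the left arc, `P` is `X ≥ cx` and above (below) the line `c`; `LSW`, `LNW` :
reflex corners, below (above) the line `c` the tiles `X < cx` are missing. `RNW`, `RSW` : the lower and the upper end of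
the right wall. `*.E` : the random tiles. `*.C` : the natural colours. -/

namespace Pool.Agent.H14.W

open Pool.Agent.H54.W (Win)
open Pool.Agent.H72.W.N (PT LyP natc natc_def sh sh_false sh_true sh_cases sh_nonneg sh_le InP)
open Pool.Agent.H42.Sp (Sd)

/-- **Random tiles** of the window with the walls of the kinds `s` pushed out -/
def EPn (D : Win) (s : Finset Sd) (X Y : ℤ) : Prop := PT D X Y ∨ ∃ k ∈ s, LyP D k X Y

/-- the push of a kind -/
def al (s : Finset Sd) (k : Sd) : ℤ := if k ∈ s then 1 else 0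

variable {D : Win} {s : Finset Sd} {k : Sd} {p : Bool} {cx c M x y X Y : ℤ} {cv ch cc : Bool}

lemma al_01 : 0 ≤ al s k ∧ al s k ≤ 1 := by
  unfold al; split_ifs <;> omega

lemma mem_al : k ∈ s ↔ al s k = 1 := by
  unfold al
  split_ifs with h
  · exact ⟨fun _ => rfl, fun _ => h⟩
  · exact ⟨fun h' => absurd h' h, fun h' => by omega⟩

lemma EPn_al : EPn D s X Y ↔ (0 ≤ Y ∧ Y < D.h ∧ D.a Y ≤ X ∧ X < D.w) ∨
    ((0 ≤ Y ∧ Y < D.h ∧ X + 1 = D.a Y ∧ (1 ≤ Y → D.a Y ≤ D.a (Y - 1)) ∧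
      (Y + 1 < D.h → D.a Y ≤ D.a (Y + 1))) ∧ al s .L = 1) ∨
    ((0 ≤ Y ∧ Y < D.h ∧ X = D.w) ∧ al s .R = 1) ∨
    ((-1 ≤ Y ∧ Y + 1 < D.h ∧ D.a (Y + 1) ≤ X ∧ X < D.w ∧ (0 ≤ Y → X + 1 < D.a Y)) ∧ al s .F = 1) ∨
    ((1 ≤ Y ∧ Y ≤ D.h ∧ D.a (Y - 1) ≤ X ∧ X < D.w ∧ (Y < D.h → X + 1 < D.a Y)) ∧ al s .C = 1) := by
  rw [← mem_al, ← mem_al, ← mem_al, ← mem_al]
  unfold EPn PT
  constructor
  · rintro (h | ⟨k, hk, h⟩)
    · exact Or.inl h
    · cases k
      · exact Or.inr (Or.inl ⟨h, hk⟩)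
      · exact Or.inr (Or.inr (Or.inl ⟨h, hk⟩))
      · exact Or.inr (Or.inr (Or.inr (Or.inl ⟨h, hk⟩)))
      · exact Or.inr (Or.inr (Or.inr (Or.inr ⟨h, hk⟩)))
  · rintro (h | ⟨h, hk⟩ | ⟨h, hk⟩ | ⟨h, hk⟩ | ⟨h, hk⟩)
    · exact Or.inl h
    · exact Or.inr ⟨_, hk, h⟩
    · exact Or.inr ⟨_, hk, h⟩
    · exact Or.inr ⟨_, hk, h⟩
    · exact Or.inr ⟨_, hk, h⟩

/-- tiles near the corner -/
def Nr (cx c X Y : ℤ) : Prop := cx - 2 ≤ X ∧ X ≤ cx + 1 ∧ c - 2 ≤ Y ∧ Y ≤ c + 1

/-- tiles in the range -/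
def Rg (cx c M X Y : ℤ) : Prop := cx - M + 2 ≤ X ∧ X ≤ cx + M - 2 ∧ c - M + 2 ≤ Y ∧ Y ≤ c + M - 2

/-- convex corner of the left arc, `P` is above -/
structure LNE (D : Win) (cx c M : ℤ) (cv ch : Bool) : Prop where
  M0 : 20 ≤ M
  c0 : 0 ≤ c
  w1 : cx + M < D.w
  up : ∀ Z, c ≤ Z → Z ≤ c + M → Z < D.h ∧ D.a Z = cx
  dn : ∀ Z, 0 ≤ Z → c - M ≤ Z → Z < c → Z < D.h ∧ cx + M < D.a Z
  cu : ∀ y, c ≤ y → y ≤ c + M → D.cl y = cv
  cd : ∀ y, c - M ≤ y → y < c → 0 ≤ y → D.cl y = ch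
  c1 : (c = 0 ∧ D.cb = ch) ∨ M + 2 ≤ c

/-- convex corner of the left arc, `P` is below -/
structure LSE (D : Win) (cx c M : ℤ) (cv ch : Bool) : Prop where
  M0 : 20 ≤ M
  c0 : c ≤ D.h
  w1 : cx + M < D.w
  dn : ∀ Z, c - M ≤ Z → Z < c → 0 ≤ Z ∧ D.a Z = cx
  up : ∀ Z, Z < D.h → Z ≤ c + M → c ≤ Z → 0 ≤ Z ∧ cx + M < D.a Z
  cd : ∀ y, c - M ≤ y → y < c → D.cl y = cv
  cu : ∀ y, c ≤ y → y ≤ c + M → y < D.h → D.cl y = ch
  c1 : (c = D.h ∧ D.ct = ch) ∨ c + M + 2 ≤ D.h

/-- reflex corner of the left arc, the tiles on the left below the corner are missing -/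
structure LSW (D : Win) (cx c M : ℤ) (cc : Bool) : Prop where
  M0 : 20 ≤ M
  c0 : M + 2 ≤ c
  w1 : cx + M < D.w
  dn : ∀ Z, c - M ≤ Z → Z < c → 0 ≤ Z ∧ (D.a Z = cx ∨ (D.a Z = cx - 1 ∧ Z = c - 1))
  up : ∀ Z, c ≤ Z → Z ≤ c + M → Z < D.h ∧ D.a Z + M < cx
  cd : ∀ y, c - M ≤ y → y < c → D.cl y = cc

/-- reflex corner of the left arc, the tiles on the left above the corner are missing -/
structure LNW (D : Win) (cx c M : ℤ) (cc : Bool) : Prop where
  M0 : 20 ≤ M
  c0 : c + M + 2 ≤ D.h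
  w1 : cx + M < D.w
  up : ∀ Z, c ≤ Z → Z ≤ c + M → 0 ≤ Z ∧ (D.a Z = cx ∨ (D.a Z = cx - 1 ∧ Z = c))
  dn : ∀ Z, c - M ≤ Z → Z < c → 0 ≤ Z ∧ D.a Z + M < cx
  cu : ∀ y, c ≤ y → y ≤ c + M → D.cl y = cc

/-- lower end of the right wall -/
structure RNW (D : Win) (M : ℤ) (cv : Bool) : Prop where
  M0 : 20 ≤ M
  up : ∀ Z, 0 ≤ Z → Z ≤ M → Z < D.h ∧ D.a Z + M < D.w
  cu : ∀ y, 0 ≤ y → y ≤ M → D.cr y = cv

/-- upper end of the right wall -/
structure RSW (D : Win) (M : ℤ) (cv : Bool) : Prop where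
  M0 : 20 ≤ M
  dn : ∀ Z, D.h - M ≤ Z → Z < D.h → 0 ≤ Z ∧ D.a Z + M < D.w
  cd : ∀ y, D.h - M ≤ y → y < D.h → D.cr y = cv

lemma LNE.E (h : LNE D cx c M cv ch) (hr : Rg cx c M X Y) (hn : ¬ Nr cx c X Y) :
    EPn D s X Y ↔ cx - al s .L ≤ X ∧ c - al s .F ≤ Y := by
  have M0 := h.M0
  have c0 := h.c0
  have w1 := h.w1
  rw [EPn_al]
  unfold Nr at hn
  unfold Rg at hr
  have u0 := h.up (Y - 1)
  have u1 := h.up Y
  have u2 := h.up (Y + 1)
  have d0 := h.dn (Y - 1)
  have d1 := h.dn Y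
  have d2 := h.dn (Y + 1)
  have a1 := al_01 (s := s) (k := .L)
  have a2 := al_01 (s := s) (k := .R)
  have a4 := al_01 (s := s) (k := .F)
  have a5 := al_01 (s := s) (k := .C)
  clear h
  constructor
  · rintro (h | h | h | h | h) <;> omega
  · intro k
    by_cases q1 : c ≤ Y
    · by_cases q2 : cx ≤ X
      · left; omega
      · right; left; omega
    · right; right; right; left; omega

lemma LSE.E (h : LSE D cx c M cv ch) (hr : Rg cx c M X Y) (hn : ¬ Nr cx c X Y) :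
    EPn D s X Y ↔ cx - al s .L ≤ X ∧ Y < c + al s .C := by
  have M0 := h.M0
  have c0 := h.c0
  have w1 := h.w1
  rw [EPn_al]
  unfold Nr at hn
  unfold Rg at hr
  have u0 := h.up (Y - 1)
  have u1 := h.up Y
  have u2 := h.up (Y + 1)
  have d0 := h.dn (Y - 1)
  have d1 := h.dn Y
  have d2 := h.dn (Y + 1)
  have a1 := al_01 (s := s) (k := .L)
  have a2 := al_01 (s := s) (k := .R)
  have a4 := al_01 (s := s) (k := .F)
  have a5 := al_01 (s := s) (k := .C)
  clear h
  constructor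
  · rintro (h | h | h | h | h) <;> omega
  · intro k
    by_cases q1 : Y < c
    · by_cases q2 : cx ≤ X
      · left; omega
      · right; left; omega
    · right; right; right; right; omega

lemma LSW.E (h : LSW D cx c M cc) (hr : Rg cx c M X Y) (hn : ¬ Nr cx c X Y) :
    EPn D s X Y ↔ cx - al s .L ≤ X ∨ c - al s .F ≤ Y := by
  have M0 := h.M0
  have c0 := h.c0
  have w1 := h.w1
  have u3 := h.up c le_rfl (by omega)
  rw [EPn_al]
  unfold Nr at hn
  unfold Rg at hr
  have u0 := h.up (Y - 1)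
  have u1 := h.up Y
  have u2 := h.up (Y + 1)
  have d0 := h.dn (Y - 1)
  have d1 := h.dn Y
  have d2 := h.dn (Y + 1)
  have a1 := al_01 (s := s) (k := .L)
  have a2 := al_01 (s := s) (k := .R)
  have a4 := al_01 (s := s) (k := .F)
  have a5 := al_01 (s := s) (k := .C)
  clear h
  constructor
  · rintro (h | h | h | h | h) <;> omega
  · intro k
    by_cases q1 : c ≤ Y ∨ cx ≤ X
    · left; omega
    · by_cases q2 : cx - al s .L ≤ X
      · right; left; omega
      · right; right; right; left; omega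

lemma LNW.E (h : LNW D cx c M cc) (hr : Rg cx c M X Y) (hn : ¬ Nr cx c X Y) :
    EPn D s X Y ↔ cx - al s .L ≤ X ∨ Y < c + al s .C := by
  have M0 := h.M0
  have c0 := h.c0
  have w1 := h.w1
  rw [EPn_al]
  unfold Nr at hn
  unfold Rg at hr
  have u0 := h.up (Y - 1)
  have u1 := h.up Y
  have u2 := h.up (Y + 1)
  have d0 := h.dn (Y - 1)
  have d1 := h.dn Y
  have d2 := h.dn (Y + 1)
  have a1 := al_01 (s := s) (k := .L)
  have a2 := al_01 (s := s) (k := .R)
  have a4 := al_01 (s := s) (k := .F)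
  have a5 := al_01 (s := s) (k := .C)
  clear h
  constructor
  · rintro (h | h | h | h | h) <;> omega
  · intro k
    by_cases q1 : Y < c ∨ cx ≤ X
    · left; omega
    · by_cases q2 : cx - al s .L ≤ X
      · right; left; omega
      · right; right; right; right; omega

lemma RNW.E (h : RNW D M cv) (hr : Rg D.w 0 M X Y) (hn : ¬ Nr D.w 0 X Y) :
    EPn D s X Y ↔ X < D.w + al s .R ∧ 0 - al s .F ≤ Y := by
  have M0 := h.M0
  rw [EPn_al]
  unfold Nr at hn
  unfold Rg at hr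
  have u0 := h.up (Y - 1)
  have u1 := h.up Y
  have u2 := h.up (Y + 1)
  have a1 := al_01 (s := s) (k := .L)
  have a2 := al_01 (s := s) (k := .R)
  have a4 := al_01 (s := s) (k := .F)
  have a5 := al_01 (s := s) (k := .C)
  clear h
  constructor
  · rintro (h | h | h | h | h) <;> omega
  · intro k
    by_cases q1 : 0 ≤ Y
    · by_cases q2 : X < D.w
      · left; omega
      · right; right; left; omega
    · right; right; right; left; omega

lemma RSW.E (h : RSW D M cv) (hr : Rg D.w D.h M X Y) (hn : ¬ Nr D.w D.h X Y) :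
    EPn D s X Y ↔ X < D.w + al s .R ∧ Y < D.h + al s .C := by
  have M0 := h.M0
  rw [EPn_al]
  unfold Nr at hn
  unfold Rg at hr
  have d0 := h.dn (Y - 1)
  have d1 := h.dn Y
  have d2 := h.dn (Y + 1)
  have a1 := al_01 (s := s) (k := .L)
  have a2 := al_01 (s := s) (k := .R)
  have a4 := al_01 (s := s) (k := .F)
  have a5 := al_01 (s := s) (k := .C)
  clear h
  constructor
  · rintro (h | h | h | h | h) <;> omega
  · intro k
    by_cases q1 : Y < D.h
    · by_cases q2 : X < D.w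
      · left; omega
      · right; right; left; omega
    · right; right; right; right; omega

/-! ### The natural colours -/

lemma not_PT (hP : ¬ PT D (x + sh p) y) : ¬ (0 ≤ y ∧ y < D.h ∧ D.a y ≤ x + sh p ∧ x + sh p < D.w) := hP

lemma LNE.C (h : LNE D cx c M cv ch) (hr : Rg cx c M x y) (hP : ¬ PT D (x + sh p) y) :
    natc D p x y = if x < cx - sh p ∧ c ≤ y then cv else ch := by
  have M0 := h.M0
  have c0 := h.c0
  have w1 := h.w1
  have c1 := h.c1
  have k1 := sh_nonneg p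
  have k2 := sh_le p
  have hP := not_PT hP
  unfold Rg at hr
  have u1 := h.up y
  have d1 := h.dn y
  rw [natc_def]
  split_ifs <;> first
    | (exfalso; omega)
    | exact h.cu _ (by omega) (by omega)
    | exact h.cd _ (by omega) (by omega) (by omega)
    | (rcases c1 with ⟨c1, c2⟩ | c1
       · exact c2
       · exfalso; omega)

lemma LSE.C (h : LSE D cx c M cv ch) (hr : Rg cx c M x y) (hP : ¬ PT D (x + sh p) y) :
    natc D p x y = if x < cx - sh p ∧ y < c then cv else ch := by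
  have M0 := h.M0
  have d2 := h.dn (c - M) le_rfl (by omega)
  have c0 := h.c0
  have w1 := h.w1
  have c1 := h.c1
  have k1 := sh_nonneg p
  have k2 := sh_le p
  have hP := not_PT hP
  unfold Rg at hr
  have u1 := h.up y
  have d1 := h.dn y
  rw [natc_def]
  split_ifs <;> first
    | (exfalso; omega)
    | exact h.cd _ (by omega) (by omega)
    | exact h.cu _ (by omega) (by omega) (by omega)
    | (rcases c1 with ⟨c1, c2⟩ | c1
       · exact c2
       · exfalso; omega)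

lemma LSW.C (h : LSW D cx c M cc) (hr : Rg cx c M x y) (hP : ¬ PT D (x + sh p) y) :
    natc D p x y = cc := by
  have M0 := h.M0
  have c0 := h.c0
  have w1 := h.w1
  have k1 := sh_nonneg p
  have k2 := sh_le p
  have hP := not_PT hP
  unfold Rg at hr
  have u1 := h.up y
  have d1 := h.dn y
  have d2 := h.dn (c - 1)
  have u2 := h.up c
  rw [natc_def]
  split_ifs <;> first
    | (exfalso; omega)
    | exact h.cd _ (by omega) (by omega)

lemma LNW.C (h : LNW D cx c M cc) (hr : Rg cx c M x y) (hP : ¬ PT D (x + sh p) y) :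
    natc D p x y = cc := by
  have M0 := h.M0
  have c0 := h.c0
  have w1 := h.w1
  have k1 := sh_nonneg p
  have k2 := sh_le p
  have hP := not_PT hP
  unfold Rg at hr
  have u1 := h.up y
  have d1 := h.dn y
  have d2 := h.dn (c - 1)
  have u2 := h.up c
  rw [natc_def]
  split_ifs <;> first
    | (exfalso; omega)
    | exact h.cu _ (by omega) (by omega)

lemma RNW.C (h : RNW D M cv) (hr : Rg D.w 0 M x y) (hP : ¬ PT D (x + sh p) y) :
    natc D p x y = if D.w - sh p ≤ x ∧ 0 ≤ y then cv else D.cb := by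
  have M0 := h.M0
  have k1 := sh_nonneg p
  have k2 := sh_le p
  have hP := not_PT hP
  unfold Rg at hr
  have u1 := h.up y
  rw [natc_def]
  split_ifs <;> first
    | (exfalso; omega)
    | exact h.cu _ (by omega) (by omega)
    | rfl

lemma RSW.C (h : RSW D M cv) (hr : Rg D.w D.h M x y) (hP : ¬ PT D (x + sh p) y) :
    natc D p x y = if D.w - sh p ≤ x ∧ y < D.h then cv else D.ct := by
  have M0 := h.M0
  have d2 := h.dn (D.h - M) le_rfl (by omega)
  have k1 := sh_nonneg p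
  have k2 := sh_le p
  have hP := not_PT hP
  unfold Rg at hr
  have d1 := h.dn y
  rw [natc_def]
  split_ifs <;> first
    | (exfalso; omega)
    | exact h.cd _ (by omega) (by omega)
    | rfl

end Pool.Agent.H14.W
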