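import Mathlib
import Pool.Agent.H14.W.PTog
import Pool.Agent.H14.Win.CorR

set_option autoImplicit false
open Finset

/-! # Displacement in the language of link patterns: one corner (route W, B10)

`CnrZ` : the labels `E` (random) and `W` (open) of the zone `Z` look like a corner, convex or reflex, up to a
reflection. `cnr_badP` : there is a bad event of probability at most `C (1 / r) ^ (1 + α)`. `DfP` : two
environments of the zone which differ only at the labels `S` near the corner. `DfP.eq` : good configurations,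
`DfP.mean` : the means of a bounded functional. `cnr_mean` : one corner. -/

namespace Pool.Agent.H14.W

open Pool.Agent.H75.Perc hiding ph
open Pool.Agent.H75.TwoArm Pool.Agent.H75.Four Pool.Agent.H69.Q1
open Pool.Agent.Q1 Pool.Agent.H43.Q1 Pool.Agent.H39.Q1 Pool.Agent.Q1.M6c
open Pool.Agent.H60.Q1 Pool.Agent.H99.NC Pool.Agent.H42.FM Pool.Agent.H44.FM Pool.Agent.H14.R45
open Pool.Agent.H14.Win
open Pool.Agent.H33.Q1 (lt tt tv tf lt_inj tt_lt lt_odd lt_tt)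
open Pool.Agent.H60.Q1.Corn (UG ug AG mem_AG corner_reflex PRv PRh dRv dRh)

variable {Z E W M S E1 W1 E2 W2 ω : Finset (ℤ × ℤ)} {p : ℤ × ℤ} {r s : ℕ} {σ τ : Bool}
  {P Q L xa xb ya yb ys x y : ℤ} {cv ch c : Bool} {Bad : Finset (ℤ × ℤ) → Prop}

/-- the zone near a convex corner -/
def ZCv (σ τ : Bool) (Z : Finset (ℤ × ℤ)) (P Q L xa ya : ℤ) : Prop :=
  ∀ x y, x ≤ P + L → y ≤ Q + L → xa ≤ x + 1 → ya ≤ y + 1 → Tp σ τ Z x y

/-- the zone near a reflex corner -/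
def ZRf (σ τ : Bool) (Z : Finset (ℤ × ℤ)) (P Q L : ℤ) : Prop :=
  ∀ x y, P - L ≤ x → x ≤ P + L → Q - L ≤ y → y ≤ Q + L → Tp σ τ Z x y

/-- **A corner**, convex or reflex, up to a reflection, in the zone `Z` -/
def CnrZ (σ τ : Bool) (Z E W : Finset (ℤ × ℤ)) (P Q L xa xb ya yb : ℤ) : Prop :=
  (∃ ys cv ch, Cvx (Tp σ τ E) (Tp σ τ W) P Q L xa xb ya yb ys cv ch ∧ ZCv σ τ Z P Q L xa ya) ∨
    ∃ c, Rfx (Tp σ τ E) (Tp σ τ W) P Q L xa xb ya yb c ∧ ZRf σ τ Z P Q L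

/-- the small rectangle -/
lemma CnrZ.info (h : CnrZ σ τ Z E W P Q L xa xb ya yb) :
    (P - 16 ≤ xa ∧ xa ≤ P - 1 ∧ P + 2 ≤ xb ∧ xb ≤ P + 16) ∧
    (Q - 16 ≤ ya ∧ ya ≤ Q - 1 ∧ Q + 2 ≤ yb ∧ yb ≤ Q + 16) := by
  rcases h with ⟨ys, cv, ch, R, -⟩ | ⟨c, R, -⟩
  · exact ⟨⟨R.x1, R.x2, R.x3, R.x4⟩, R.y1, R.y2, R.y3, R.y4⟩
  · have a1 := R.x1; have a2 := R.x2; have a3 := R.x3; have a4 := R.x4
    have b1 := R.y1; have b2 := R.y2; have b3 := R.y3; have b4 := R.y4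
    omega

/-- the labels off the zone count as open -/
lemma cvx_cl (R : Cvx (Tp σ τ E) (Tp σ τ W) P Q L xa xb ya yb ys cv ch) (hZ : ZCv σ τ Z P Q L xa ya) :
    Cvx (Tp σ τ E) (Tp σ τ (W ∪ (M \ Z))) P Q L xa xb ya yb ys cv ch where
  x1 := R.x1
  x2 := R.x2
  x3 := R.x3
  x4 := R.x4
  y1 := R.y1
  y2 := R.y2
  y3 := R.y3
  y4 := R.y4
  s1 := R.s1
  s2 := R.s2
  sq := R.sq
  rnd := R.rnd
  col x y h1 h2 h3 h4 h5 h6 := by
    obtain ⟨k1, k2⟩ := R.col x y h1 h2 h3 h4 h5 h6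
    refine ⟨k1, ?_⟩
    rw [← k2]
    have hz := hZ x y h1 h2 h3 h4
    unfold Tp at hz ⊢
    rw [mem_union, mem_sdiff]
    tauto
  out := R.out

/-- the random tiles at a convex corner -/
lemma cvx_reg (R : Cvx (Tp σ τ E) (Tp σ τ W) P Q L xa xb ya yb ys cv ch) (h1 : P - L ≤ x)
    (h2 : x ≤ P + L) (h3 : Q - L ≤ y) (h4 : y ≤ Q + L) (h : Tp σ τ E x y) : xa ≤ x ∧ ya ≤ y := by
  have a1 := R.x1; have a2 := R.x2; have b1 := R.y1; have b2 := R.y2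
  by_contra hcon
  by_cases g : x + 1 < xa ∨ y + 1 < ya
  · exact R.out x y h1 h2 h3 h4 g h
  · exact (R.col x y h2 h4 (by omega) (by omega) (by omega) (by omega)).1 h

lemma cn_near {X Y x y x' y' : ℤ} (h : Win.Cn (X, Y) x y) (h' : Win.Cn (X, Y) x' y') :
    (x ≤ x' + 1 ∧ x' ≤ x + 1) ∧ (y ≤ y' + 1 ∧ y' ≤ y + 1) := by
  unfold Win.Cn at h h'
  simp only at h h'
  omega

lemma rf_near {x x' : ℤ} (h : x ≤ x' + 1 ∧ x' ≤ x + 1) : rf σ x ≤ rf σ x' + 1 ∧ rf σ x' ≤ rf σ x + 1 := by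
  cases σ <;> simp only [rf_true, rf_false] <;> omega

/-- the box is near the corner -/
lemma md_box {x y : ℤ} (h2 : 2 * (r : ℤ) + 8 ≤ L) (h : lt (rf σ x, rf τ y) ∈ BR (ctr σ τ P Q) r) :
    (P - L + 4 ≤ x ∧ x + 4 ≤ P + L) ∧ (Q - L + 4 ≤ y ∧ y + 4 ≤ Q + L) := by
  rw [mem_ctr] at h
  have := cp_le (P := P) (Q := Q)
  unfold Md at h
  omega

lemma mgZ_tiles (hT : ∀ x y x' y' : ℤ, lt (x, y) ∈ E → lt (x, y) ∈ M → (x ≤ x' + 1 ∧ x' ≤ x + 1) →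
    (y ≤ y' + 1 ∧ y' ≤ y + 1) → lt (x', y') ∈ M → lt (x', y') ∈ Z) : MgZ Z E M := by
  constructor
  · intro x y z h1 h2 h3 h4 h5
    obtain ⟨X, Y, rfl, hp⟩ := exists_vt x
    obtain ⟨X', Y', rfl, -, x1, y1, e1, f1, f2⟩ := unit_vt hp h1
    obtain ⟨X2, Y2, rfl, -, x2, y2, e2, g1, g2⟩ := unit_vt hp h4
    rw [e1] at h2 h3
    rw [e2] at h5 ⊢
    have := cn_near (X := X) (Y := Y) (x := x1) (y := y1) (x' := x2) (y' := y2)
      (by unfold Win.Cn; simp only; omega) (by unfold Win.Cn; simp only; omega)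
    exact hT x1 y1 x2 y2 h2 h3 this.1 this.2 h5
  · intro x y z h1 h2 h3 h4 h5
    obtain ⟨X, Y, rfl, hp⟩ := exists_ft x
    obtain ⟨X', Y', rfl, -, x1, y1, e1, f1, f2⟩ := unit_ft hp h1
    obtain ⟨X2, Y2, rfl, -, x2, y2, e2, g1, g2⟩ := unit_ft hp h4
    rw [e1] at h2 h3
    rw [e2] at h5 ⊢
    have := cn_near (X := X) (Y := Y) (x := x1) (y := y1) (x' := x2) (y' := y2)
      (by unfold Win.Cn; simp only; omega) (by unfold Win.Cn; simp only; omega)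
    exact hT x1 y1 x2 y2 h2 h3 this.1 this.2 h5

lemma cvx_mg (R : Cvx (Tp σ τ E) (Tp σ τ W) P Q L xa xb ya yb ys cv ch) (hZ : ZCv σ τ Z P Q L xa ya)
    (h2 : 2 * (r : ℤ) + 8 ≤ L) : MgZ Z E (BR (ctr σ τ P Q) r) := by
  refine mgZ_tiles fun x y x' y' g1 g2 g3 g4 g5 => ?_
  rw [lt_rf (σ := σ) (τ := τ)] at g1 g2 g5 ⊢
  have k1 := md_box h2 g2
  have k2 := md_box h2 g5
  have k3 := cvx_reg R (by omega) (by omega) (by omega) (by omega) g1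
  have n1 := rf_near (σ := σ) g3
  have n2 := rf_near (σ := τ) g4
  exact hZ _ _ (by omega) (by omega) (by omega) (by omega)

lemma box_sub (hZ : ZRf σ τ Z P Q L) (ho : ∀ e ∈ M, (e.1 + e.2) % 2 = 1)
    (hM : M ⊆ BR (ctr σ τ P Q) r) (h2 : 2 * (r : ℤ) + 8 ≤ L) : M ⊆ Z := by
  intro l hl
  obtain ⟨x, y, rfl⟩ : ∃ x y, l = lt (x, y) := ⟨(tt l).1, (tt l).2, (lt_tt (ho l hl)).symm⟩
  have hl' := hM hl
  rw [lt_rf (σ := σ) (τ := τ)] at hl' ⊢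
  have k := md_box h2 hl'
  exact hZ _ _ (by omega) (by omega) (by omega) (by omega)

lemma oe_Z (hE : E ⊆ Z) : OE E (M ∩ Z) = OE E M := by
  funext x y
  unfold OE
  rw [mem_inter]
  exact propext ⟨fun h => ⟨h.1, h.2.1⟩, fun h => ⟨h.1, h.2, hE h.1⟩⟩

lemma ow_Z (hW : W ⊆ Z) : OW W (M ∩ Z) = OW W M := by
  funext x y
  unfold OW
  rw [mem_inter]
  exact propext ⟨fun h => ⟨h.1, h.2.1⟩, fun h => ⟨h.1, h.2, hW h.1⟩⟩

lemma oc_Z : OC E W (M ∩ Z) = OC E (W ∪ (M \ Z)) M := by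
  funext x y
  unfold OC
  rw [mem_inter, mem_union, mem_sdiff]
  refine propext ⟨fun h => ⟨h.1.1, h.2.1, ?_⟩, fun h => ?_⟩
  · rintro (h' | h')
    · exact h.2.2 h'
    · exact h'.2 h.1.2
  · obtain ⟨h1, h2, h3⟩ := h
    rw [not_or, not_and, not_not] at h3
    exact ⟨⟨h1, h3.2 h1⟩, h2, h3.1⟩

/-- **Convex corners** -/
theorem cvx_badP : ∃ C : ℝ, 0 < C ∧ ∀ (σ τ : Bool) (Z E W : Finset (ℤ × ℤ))
    (P Q L xa xb ya yb ys : ℤ) (cv ch : Bool), Cvx (Tp σ τ E) (Tp σ τ W) P Q L xa xb ya yb ys cv ch →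
    ZCv σ τ Z P Q L xa ya → Disjoint E W → E ⊆ Z → W ⊆ Z → (∀ e ∈ E, (e.1 + e.2) % 2 = 1) →
    ∀ r : ℕ, 160 ≤ r → 2 * (r : ℤ) + 8 ≤ L →
    ∃ Bad, BadP Z E W (ctr σ τ P Q) r 20 Bad ∧
      PrP (fun _ => 1 / 2) (Eo E (ctr σ τ P Q) r 20) Bad ≤ C * ((1 : ℝ) / r) ^ (4 / 3 : ℝ) := by
  obtain ⟨C, hC, hp⟩ := prM
  refine ⟨C * 20 ^ (4 / 3 : ℝ), by positivity, ?_⟩
  intro σ τ Z E W P Q L xa xb ya yb ys cv ch R hZ hd hE hW ho r h1 h2
  have J := joined_c hd (fun x y => mem_ctr) (R.joined (ctr_of (by omega) h2))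
  have hdc : Disjoint E (W ∪ (BR (ctr σ τ P Q) r \ Z)) := by
    rw [disjoint_union_right]
    exact ⟨hd, disjoint_left.2 fun l h1 h2 => (mem_sdiff.1 h2).2 (hE h1)⟩
  have J' := joined_c hdc (fun x y => mem_ctr)
    ((cvx_cl (M := BR (ctr σ τ P Q) r) R hZ).joined (ctr_of (by omega) h2))
  have LWz : LW E W (BR (ctr σ τ P Q) r ∩ Z) (Vwl E W (BR (ctr σ τ P Q) r ∩ Z)) :=
    LW_of (by rw [oe_Z hE, ow_Z hW]; exact J.1)
  have LCz : LC E W (BR (ctr σ τ P Q) r ∩ Z) (Fwl E W (BR (ctr σ τ P Q) r ∩ Z)) :=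
    LC_of (by rw [oe_Z hE, oc_Z]; exact J'.2)
  refine ⟨_, badPM LWz LCz (cvx_mg R hZ h2) (by omega) ho hd hE hW, ?_⟩
  have hodd : ∀ l ∈ Eo E (ctr σ τ P Q) r 20, (l.1 + l.2) % 2 = 1 := fun l hl =>
    ho l (mem_sdiff.1 (mem_inter.1 hl).1).1
  have hc := cp_le (P := P) (Q := Q)
  obtain ⟨⟨k, w, q1, q2⟩, k', w', q3, q4⟩ := quad_mk (F := Eo E (ctr σ τ P Q) r 20)
    (P := sn σ (cp P Q)) (Q := sn τ Q) (s := 20) (par_sn cp_par) (by norm_num) hodd σ τ (by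
      intro x y hxy
      rw [lt_rf (σ := σ) (τ := τ)] at hxy
      have h3 := cvx_region R h2 hxy
      cases σ <;> cases τ <;> simp only [rf_true, rf_false, sn_true, sn_false, reduceCtorEq,
        false_implies, true_implies, true_and, and_true] at h3 ⊢ <;> omega)
  have := hp E (ctr σ τ P Q) r 20 k k' w w' (by norm_num) (by omega) q2 q4 q1 q3
  refine this.trans (le_of_eq ?_)
  rw [show (((20 : ℕ) : ℝ) / (r : ℝ)) = 20 * (1 / r) by push_cast; ring,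
    Real.mul_rpow (by norm_num) (by positivity)]
  ring

/-- **Reflex corners** -/
theorem rfx_badP : ∃ C α : ℝ, 0 < C ∧ 0 < α ∧ ∀ (σ τ : Bool) (Z E W : Finset (ℤ × ℤ))
    (P Q L xa xb ya yb : ℤ) (c : Bool), Rfx (Tp σ τ E) (Tp σ τ W) P Q L xa xb ya yb c →
    ZRf σ τ Z P Q L → Disjoint E W → E ⊆ Z → W ⊆ Z → (∀ e ∈ E, (e.1 + e.2) % 2 = 1) →
    ∀ r : ℕ, 160 ≤ r → 2 * (r : ℤ) + 8 ≤ L →
    ∃ Bad, BadP Z E W (ctr σ τ P Q) r 20 Bad ∧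
      PrP (fun _ => 1 / 2) (Eo E (ctr σ τ P Q) r 20) Bad ≤ C * ((1 : ℝ) / r) ^ (1 + α) := by
  obtain ⟨C, α, hC, hα, hr⟩ := corner_reflex
  refine ⟨C * 46 ^ (1 + α), α, by positivity, hα, ?_⟩
  intro σ τ Z E W P Q L xa xb ya yb c R hZ hd hE hW ho r h1 h2
  have hug : ∀ (w : ℤ × ℤ) (ρ : ℤ), 1 ≤ ρ → ρ ≤ 23 →
      ug (Pm σ τ) (dm σ τ) w ρ ((r : ℤ) - 3) ≤ C * 46 ^ (1 + α) * ((1 : ℝ) / r) ^ (1 + α) := by
    intro w ρ g1 g2
    have e : ug (Pm σ τ) (dm σ τ) w ρ ((r : ℤ) - 3) ≤ C * ((ρ : ℝ) / (((r : ℤ) - 3 : ℤ) : ℝ)) ^ (1 + α) := by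
      have k1 := hr 1 (Or.inl rfl) w ρ ((r : ℤ) - 3) g1 (by omega)
      have k2 := hr (-1) (Or.inr rfl) w ρ ((r : ℤ) - 3) g1 (by omega)
      unfold Pm dm
      cases σ <;> cases τ <;> simp only [if_true, reduceCtorEq, if_false]
      · exact k2.1
      · exact k2.2
      · exact k1.2
      · exact k1.1
    refine e.trans ?_
    rw [mul_assoc, ← Real.mul_rpow (by norm_num) (by positivity)]
    refine mul_le_mul_of_nonneg_left ?_ hC.le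
    have hr' : (160 : ℝ) ≤ r := by exact_mod_cast h1
    have hρ1 : (1 : ℝ) ≤ ρ := by exact_mod_cast g1
    have hρ : (ρ : ℝ) ≤ 23 := by exact_mod_cast g2
    have hcast : (((r : ℤ) - 3 : ℤ) : ℝ) = (r : ℝ) - 3 := by push_cast; ring
    rw [hcast]
    refine Real.rpow_le_rpow (div_nonneg (by linarith) (by linarith)) ?_ (by linarith)
    rw [mul_one_div, div_le_div_iff₀ (by linarith) (by linarith)]
    nlinarith
  have hodd : ∀ e ∈ BR (ctr σ τ P Q) r, (e.1 + e.2) % 2 = 1 := fun e he => (mem_BR.1 he).2.2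
  have hM : BR (ctr σ τ P Q) r ∩ Z = BR (ctr σ τ P Q) r :=
    inter_eq_left.2 (box_sub hZ hodd (Subset.refl _) h2)
  have G : MgZ Z E (BR (ctr σ τ P Q) r) :=
    ⟨fun x y z _ _ _ _ h => (box_sub hZ hodd (Subset.refl _) h2) h,
      fun x y z _ _ _ _ h => (box_sub hZ hodd (Subset.refl _) h2) h⟩
  cases c
  · have J := joined_f (fun x y => mem_ctr) (R.joined (ctr_of (r := r) (by omega) h2))
    have LCz : LC E W (BR (ctr σ τ P Q) r ∩ Z) (Fwl E W (BR (ctr σ τ P Q) r)) := by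
      rw [hM]; exact LC_of J
    exact ⟨_, badPF LCz G (by omega) ho hd hE hW,
      (rfx_badF R ho h1 h2).2.trans (hug _ _ (by norm_num) (by norm_num))⟩
  · have J := joined_o hd (fun x y => mem_ctr) (R.joined (ctr_of (r := r) (by omega) h2))
    have LWz : LW E W (BR (ctr σ τ P Q) r ∩ Z) (Vwl E W (BR (ctr σ τ P Q) r)) := by
      rw [hM]; exact LW_of J
    exact ⟨_, badPW LWz G (by omega) ho hd hE hW,
      (rfx_badW R hd ho h1 h2).2.trans (hug _ _ (by norm_num) (by norm_num))⟩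

/-- **All corners** -/
theorem cnr_badP : ∃ C α : ℝ, 0 < C ∧ 0 < α ∧ ∀ (σ τ : Bool) (Z E W : Finset (ℤ × ℤ))
    (P Q L xa xb ya yb : ℤ), CnrZ σ τ Z E W P Q L xa xb ya yb →
    Disjoint E W → E ⊆ Z → W ⊆ Z → (∀ e ∈ E, (e.1 + e.2) % 2 = 1) →
    ∀ r : ℕ, 160 ≤ r → 2 * (r : ℤ) + 8 ≤ L →
    ∃ Bad, BadP Z E W (ctr σ τ P Q) r 20 Bad ∧
      PrP (fun _ => 1 / 2) (Eo E (ctr σ τ P Q) r 20) Bad ≤ C * ((1 : ℝ) / r) ^ (1 + α) := by
  obtain ⟨C1, hC1, h1⟩ := cvx_badP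
  obtain ⟨C2, α, hC2, hα, h2⟩ := rfx_badP
  refine ⟨C1 + C2, min α (1 / 3), by positivity, by positivity, ?_⟩
  intro σ τ Z E W P Q L xa xb ya yb hc hd hE hW ho r hr hL
  have hr0 : (1 : ℝ) ≤ r := by
    have : 1 ≤ r := by omega
    exact_mod_cast this
  have hle : (1 : ℝ) / r ≤ 1 := by rw [div_le_one (by linarith)]; exact hr0
  have hpos : (0 : ℝ) < 1 / r := by positivity
  rcases hc with ⟨ys, cv, ch, R, hZ⟩ | ⟨c, R, hZ⟩
  · obtain ⟨Bad, b1, b2⟩ := h1 σ τ Z E W P Q L xa xb ya yb ys cv ch R hZ hd hE hW ho r hr hL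
    refine ⟨Bad, b1, b2.trans ?_⟩
    have e1 : ((1 : ℝ) / r) ^ (4 / 3 : ℝ) ≤ ((1 : ℝ) / r) ^ (1 + min α (1 / 3)) :=
      Real.rpow_le_rpow_of_exponent_ge hpos hle (by have := min_le_right α (1 / 3); linarith)
    have e2 : (0 : ℝ) ≤ ((1 : ℝ) / r) ^ (1 + min α (1 / 3)) := by positivity
    calc C1 * ((1 : ℝ) / r) ^ (4 / 3 : ℝ) ≤ C1 * ((1 : ℝ) / r) ^ (1 + min α (1 / 3)) :=
          mul_le_mul_of_nonneg_left e1 hC1.le
      _ ≤ (C1 + C2) * ((1 : ℝ) / r) ^ (1 + min α (1 / 3)) :=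
          mul_le_mul_of_nonneg_right (by linarith) e2
  · obtain ⟨Bad, b1, b2⟩ := h2 σ τ Z E W P Q L xa xb ya yb c R hZ hd hE hW ho r hr hL
    refine ⟨Bad, b1, b2.trans ?_⟩
    have e1 : ((1 : ℝ) / r) ^ (1 + α) ≤ ((1 : ℝ) / r) ^ (1 + min α (1 / 3)) :=
      Real.rpow_le_rpow_of_exponent_ge hpos hle (by have := min_le_left α (1 / 3); linarith)
    have e2 : (0 : ℝ) ≤ ((1 : ℝ) / r) ^ (1 + min α (1 / 3)) := by positivity
    calc C2 * ((1 : ℝ) / r) ^ (1 + α) ≤ C2 * ((1 : ℝ) / r) ^ (1 + min α (1 / 3)) :=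
          mul_le_mul_of_nonneg_left e1 hC2.le
      _ ≤ (C1 + C2) * ((1 : ℝ) / r) ^ (1 + min α (1 / 3)) :=
          mul_le_mul_of_nonneg_right (by linarith) e2

/-! ### Two environments -/

/-- **Two environments of the zone `Z`** which differ only at the labels of `S` -/
structure DfP (Z E1 W1 E2 W2 S : Finset (ℤ × ℤ)) : Prop where
  E1Z : E1 ⊆ Z
  W1Z : W1 ⊆ Z
  E2Z : E2 ⊆ Z
  W2Z : W2 ⊆ Z
  SZ : S ⊆ Z
  d1 : Disjoint E1 W1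
  d2 : Disjoint E2 W2
  EE : E1 \ S = E2 \ S
  WW : W1 \ S = W2 \ S

lemma DfP.sub (D : DfP Z E1 W1 E2 W2 S) : E1 ∪ S ⊆ Z ∧ W1 \ S ⊆ Z :=
  ⟨union_subset D.E1Z D.SZ, sdiff_subset.trans D.W1Z⟩

lemma DfP.dis (D : DfP Z E1 W1 E2 W2 S) : Disjoint (E1 ∪ S) (W1 \ S) := by
  rw [disjoint_left]
  intro l h1 h2
  obtain ⟨h3, h4⟩ := mem_sdiff.1 h2
  rcases mem_union.1 h1 with h | h
  · exact disjoint_left.1 D.d1 h h3
  · exact h4 h

/-- **Good configurations**: the labels near the corner have no effect. -/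
theorem DfP.eq (D : DfP Z E1 W1 E2 W2 S) (bad : BadP Z (E1 ∪ S) (W1 \ S) p r s Bad)
    (hS : S ⊆ BR p s) {β : Type} {F : Finset (ℤ × ℤ) → β} (B : BoxF Z (BR p r ∩ Z) F)
    (hω : ω ⊆ E1 ∪ E2) (h : ¬ Bad ω) : F (ω ∩ E1 ∪ W1) = F (ω ∩ E2 ∪ W2) := by
  have mE : ∀ l, l ∉ S → (l ∈ E1 ↔ l ∈ E2) := by
    intro l hl
    have := Finset.ext_iff.1 D.EE l
    simp only [mem_sdiff, hl, not_false_eq_true, and_true] at this
    exact this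
  have mW : ∀ l, l ∉ S → (l ∈ W1 ↔ l ∈ W2) := by
    intro l hl
    have := Finset.ext_iff.1 D.WW l
    simp only [mem_sdiff, hl, not_false_eq_true, and_true] at this
    exact this
  have e1 : ω ∩ E1 ∪ W1 = (ω ∩ E1 ∪ W1 ∩ S) ∪ W1 \ S := by
    ext l
    simp only [mem_union, mem_inter, mem_sdiff]
    tauto
  have e2 : ω ∩ E2 ∪ W2 = (ω ∩ E2 ∪ W2 ∩ S) ∪ W1 \ S := by
    rw [D.WW]
    ext l
    simp only [mem_union, mem_inter, mem_sdiff]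
    tauto
  rw [e1, e2]
  have s1 : ω ∩ E1 ∪ W1 ∩ S ⊆ E1 ∪ S :=
    union_subset (inter_subset_right.trans subset_union_left) (inter_subset_right.trans subset_union_right)
  have s2 : ω ∩ E2 ∪ W2 ∩ S ⊆ E1 ∪ S := by
    intro l hl
    by_cases hs : l ∈ S
    · exact mem_union_right _ hs
    · rcases mem_union.1 hl with h | h
      · exact mem_union_left _ ((mE l hs).2 (mem_inter.1 h).2)
      · exact absurd (mem_inter.1 h).2 hs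
  have loc : ∀ A A', A \ BR p s = A' \ BR p s → (Bad A ↔ Bad A') := by
    intro A A' hAB
    refine bad.loc A A' ?_
    unfold Eo
    ext l
    simp only [mem_inter, mem_sdiff]
    have h1 := Finset.ext_iff.1 hAB l
    simp only [mem_sdiff] at h1
    tauto
  refine pat_ind (E := E1 ∪ S) (K := BR p s) (f := fun A => F (A ∪ W1 \ S)) (Bad := Bad) loc ?_ s1 s2 ?_ ?_
  · intro t ht ω' hω' htω hb
    obtain ⟨h1, h2⟩ := mem_inter.1 ht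
    exact bad.tog β F t ω' B h1 hω' htω h2 hb
  · ext l
    simp only [mem_sdiff, mem_union, mem_inter]
    constructor
    · rintro ⟨⟨h1, h2⟩ | ⟨h1, h2⟩, h3⟩
      · have hs : l ∉ S := fun h => h3 (hS h)
        exact ⟨Or.inl ⟨h1, (mE l hs).1 h2⟩, h3⟩
      · exact absurd (hS h2) h3
    · rintro ⟨⟨h1, h2⟩ | ⟨h1, h2⟩, h3⟩
      · have hs : l ∉ S := fun h => h3 (hS h)
        exact ⟨Or.inl ⟨h1, (mE l hs).2 h2⟩, h3⟩
      · exact absurd (hS h2) h3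
  · intro hb
    refine h ((loc _ _ ?_).1 hb)
    ext l
    simp only [mem_sdiff, mem_union, mem_inter]
    constructor
    · rintro ⟨⟨h1, h2⟩ | ⟨h1, h2⟩, h3⟩
      · exact ⟨h1, h3⟩
      · exact absurd (hS h2) h3
    · rintro ⟨h1, h3⟩
      have hs : l ∉ S := fun h => h3 (hS h)
      refine ⟨Or.inl ⟨h1, ?_⟩, h3⟩
      rcases mem_union.1 (hω h1) with h4 | h4
      · exact h4
      · exact (mE l hs).2 h4

/-- **The means** of a bounded functional -/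
theorem DfP.mean (D : DfP Z E1 W1 E2 W2 S) (bad : BadP Z (E1 ∪ S) (W1 \ S) p r s Bad)
    (hS : S ⊆ BR p s) {F : Finset (ℤ × ℤ) → ℂ} (B : BoxF Z (BR p r ∩ Z) F) {K δ : ℝ} (hK : 0 ≤ K)
    (hF : ∀ w ⊆ Z, ‖F w‖ ≤ K)
    (pr : PrP (fun _ => 1 / 2) (Eo (E1 ∪ S) p r s) Bad ≤ δ) :
    ‖Ec (fun _ => (1 / 2 : ℂ)) E1 (fun ω => F (ω ∪ W1)) -
      Ec (fun _ => (1 / 2 : ℂ)) E2 (fun ω => F (ω ∪ W2))‖ ≤ 2 * K * δ := by
  classical
  have av : ∀ A : Finset (ℤ × ℤ), A ⊆ E1 ∪ E2 → ∀ G : Finset (ℤ × ℤ) → ℂ,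
      Ec (fun _ => (1 / 2 : ℂ)) A G = Ec (fun _ => (1 / 2 : ℂ)) (E1 ∪ E2) (fun ω => G (ω ∩ A)) := by
    intro A hA G
    rw [← Ec_local (fun _ => (1 / 2 : ℂ)) hA G]
  rw [av E1 subset_union_left, av E2 subset_union_right, ← Ec_sub]
  have hb : ∀ ω, ω ⊆ E1 ∪ E2 → ‖F (ω ∩ E1 ∪ W1) - F (ω ∩ E2 ∪ W2)‖ ≤ 2 * K * ind (Bad ω) := by
    intro ω hω
    by_cases hB : Bad ω
    · rw [ind_true hB, mul_one]
      have k1 := hF (ω ∩ E1 ∪ W1) (union_subset (inter_subset_right.trans D.E1Z) D.W1Z)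
      have k2 := hF (ω ∩ E2 ∪ W2) (union_subset (inter_subset_right.trans D.E2Z) D.W2Z)
      refine (norm_sub_le _ _).trans ?_
      linarith
    · rw [ind_false hB, mul_zero, D.eq bad hS B hω hB, sub_self, norm_zero]
  refine (Ec_half_norm hb).trans ?_
  rw [Ex_smul]
  have hsub : Eo (E1 ∪ S) p r s ⊆ E1 ∪ E2 := by
    intro l hl
    obtain ⟨h1, h2⟩ := mem_sdiff.1 (mem_inter.1 hl).1
    exact mem_union_left _ ((mem_union.1 h1).resolve_right fun h => h2 (hS h))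
  have hp : PrP (fun _ => 1 / 2) (E1 ∪ E2) Bad = PrP (fun _ => 1 / 2) (Eo (E1 ∪ S) p r s) Bad := by
    refine PrP_local hsub fun ω _ => bad.loc _ _ ?_
    rw [inter_assoc, inter_self]
  have h1 : PrP (fun _ => 1 / 2) (E1 ∪ E2) Bad ≤ δ := by rw [hp]; exact pr
  exact mul_le_mul_of_nonneg_left h1 (by positivity)

/-- **One corner**: the means of a bounded functional of the link pattern in two environments which differ
only near a corner. -/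
theorem cnr_mean : ∃ C α : ℝ, 0 < C ∧ 0 < α ∧ ∀ (σ τ : Bool) (Z E1 W1 E2 W2 S : Finset (ℤ × ℤ))
    (P Q L xa xb ya yb : ℤ), DfP Z E1 W1 E2 W2 S → (∀ e ∈ Z, (e.1 + e.2) % 2 = 1) →
    CnrZ σ τ Z (E1 ∪ S) (W1 \ S) P Q L xa xb ya yb →
    (∀ x y, lt (rf σ x, rf τ y) ∈ S → xa ≤ x ∧ x ≤ xb ∧ ya ≤ y ∧ y ≤ yb) →
    ∀ r : ℕ, 160 ≤ r → 2 * (r : ℤ) + 8 ≤ L → ∀ F : Finset (ℤ × ℤ) → ℂ,
    BoxF Z (BR (ctr σ τ P Q) r ∩ Z) F → ∀ K : ℝ, 0 ≤ K → (∀ w ⊆ Z, ‖F w‖ ≤ K) →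
    ‖Ec (fun _ => (1 / 2 : ℂ)) E1 (fun ω => F (ω ∪ W1)) -
      Ec (fun _ => (1 / 2 : ℂ)) E2 (fun ω => F (ω ∪ W2))‖ ≤ C * K * ((1 : ℝ) / r) ^ (1 + α) := by
  obtain ⟨C, α, hC, hα, hb⟩ := cnr_badP
  refine ⟨2 * C, α, by positivity, hα, ?_⟩
  intro σ τ Z E1 W1 E2 W2 S P Q L xa xb ya yb D ho hc hSr r hr hL F B K hK hF
  obtain ⟨Bad, b1, b2⟩ := hb σ τ Z (E1 ∪ S) (W1 \ S) P Q L xa xb ya yb hc D.dis D.sub.1 D.sub.2
    (fun e he => ho e (D.sub.1 he)) r hr hL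
  have hi := hc.info
  have hS : S ⊆ BR (ctr σ τ P Q) ((20 : ℕ) : ℤ) := by
    intro e he
    obtain ⟨u, v, rfl⟩ : ∃ u v, e = lt (u, v) :=
      ⟨(tt e).1, (tt e).2, (lt_tt (ho e (D.SZ he))).symm⟩
    rw [lt_rf (σ := σ) (τ := τ)] at he ⊢
    obtain ⟨j1, j2, j3, j4⟩ := hSr _ _ he
    exact sq_BR (by omega) (by omega) (by omega) (by omega)
  refine (D.mean b1 hS B hK hF b2).trans (le_of_eq ?_)
  ring

end Pool.Agent.H14.W
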