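import Mathlib
import Pool.Agent.H14.W.NCor
import Pool.Agent.H14.W.PCor

set_option autoImplicit false
open Finset

/-! # Natural windows with a flat right wall look like corners (route W)

`LocV`, `LocX` : convex and reflex corners of the natural window of the world `p` pushed by `s`, after the
reflection `σ`, `τ`. `BX D m` : tiles of the large box with the margin `m`. `SQ` : the small rectangle at the
corner, without the outermost frame of the large box; `SL` : its labels. `NatC` : labels which are natural near the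
corner outside of the small rectangle. `LocV.cnr`, `LocX.cnr` : they form a corner in the sense of `CnrZ`. -/

namespace Pool.Agent.H14.W

open Pool.Agent.H14.Win (rf sn rf_true rf_false sn_true sn_false rf_rf sn_sn Cvx Rfx Tp lt_rf ctr)
open Pool.Agent.H54.W (Win)
open Pool.Agent.H33.Q1 (lt tt tv tf lt_inj tt_lt lt_odd lt_tt)
open Pool.Agent.H72.W.N (PT LyP natc natc_def sh sh_false sh_true sh_cases sh_nonneg sh_le InP InB)
open Pool.Agent.H42.Sp (Sd)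

variable {D : Win} {s : Finset Sd} {p : Bool} {m cx c M x y X Y α β ys : ℤ} {cv ch cc σ τ : Bool}

/-- a convex corner -/
structure LocV (D : Win) (p : Bool) (s : Finset Sd) (σ τ : Bool) (cx c M α β ys : ℤ) (cv ch : Bool) :
    Prop where
  M0 : 60 ≤ M
  a0 : 0 ≤ α
  a1 : α ≤ 1
  b0 : 0 ≤ β
  b1 : β ≤ 1
  bx : (σ = true ∧ D.lo ≤ cx ∧ cx + M ≤ D.w) ∨ (σ = false ∧ D.lo + M ≤ cx ∧ cx ≤ D.w)
  bt : (τ = true ∧ 0 ≤ c ∧ c + M ≤ D.h ∧ ys = c) ∨ (τ = false ∧ M ≤ c ∧ c ≤ D.h ∧ ys = -c)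
  E : ∀ x y, Rg cx c (M - 2) (rf σ x) (rf τ y) → ¬ Nr cx c (rf σ x + sh p) (rf τ y) →
    (EPn D s (rf σ x + sh p) (rf τ y) ↔ sn σ (cx - sh p) - α ≤ x ∧ sn τ c - β ≤ y)
  C : ∀ x y, Rg cx c (M - 2) (rf σ x) (rf τ y) → ¬ PT D (rf σ x + sh p) (rf τ y) →
    natc D p (rf σ x) (rf τ y) = if x < sn σ (cx - sh p) ∧ ys ≤ y then cv else ch

/-- a reflex corner -/
structure LocX (D : Win) (p : Bool) (s : Finset Sd) (σ τ : Bool) (cx c M α β : ℤ) (cc : Bool) :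
    Prop where
  M0 : 60 ≤ M
  a0 : 0 ≤ α
  a1 : α ≤ 1
  b0 : 0 ≤ β
  b1 : β ≤ 1
  bx : D.lo + M ≤ cx ∧ cx + M ≤ D.w
  bt : M ≤ c ∧ c + M ≤ D.h
  E : ∀ x y, Rg cx c (M - 2) (rf σ x) (rf τ y) → ¬ Nr cx c (rf σ x + sh p) (rf τ y) →
    (EPn D s (rf σ x + sh p) (rf τ y) ↔ sn σ (cx - sh p) - α ≤ x ∨ sn τ c - β ≤ y)
  C : ∀ x y, Rg cx c (M - 2) (rf σ x) (rf τ y) → ¬ PT D (rf σ x + sh p) (rf τ y) →
    natc D p (rf σ x) (rf τ y) = cc

lemma Rg_sh (h : Rg cx c (M - 2) x y) : Rg cx c M (x + sh p) y ∧ Rg cx c M x y := by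
  have h1 := sh_nonneg p
  have h2 := sh_le p
  unfold Rg at *
  omega

lemma LNE.loc (h : LNE D cx c M cv ch) (hM : 60 ≤ M) :
    LocV D p s true true cx c M (al s .L) (al s .F) c cv ch where
  M0 := hM
  a0 := al_01.1
  a1 := al_01.2
  b0 := al_01.1
  b1 := al_01.2
  bx := by
    have h1 := h.up c le_rfl (by omega)
    have h2 := D.hlo c h.c0 h1.1
    have h3 := h.w1
    left
    exact ⟨rfl, by omega, by omega⟩
  bt := by
    have h1 := h.up (c + M) (by omega) le_rfl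
    left
    exact ⟨rfl, h.c0, by omega, rfl⟩
  E := by
    intro x y hr hn
    simp only [rf_true, sn_true] at hr hn ⊢
    rw [h.E (Rg_sh hr).1 hn]
    omega
  C := by
    intro x y hr hP
    simp only [rf_true, sn_true] at hr hP ⊢
    exact h.C (Rg_sh (p := p) hr).2 hP

lemma LSE.loc (h : LSE D cx c M cv ch) (hM : 60 ≤ M) :
    LocV D p s true false cx c M (al s .L) (al s .C) (-c) cv ch where
  M0 := hM
  a0 := al_01.1
  a1 := al_01.2
  b0 := al_01.1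
  b1 := al_01.2
  bx := by
    have c0 := h.c0
    have h1 := h.dn (c - 1) (by omega) (by omega)
    have h2 := D.hlo (c - 1) h1.1 (by omega)
    have h3 := h.w1
    left
    exact ⟨rfl, by omega, by omega⟩
  bt := by
    have h1 := h.dn (c - M) le_rfl (by omega)
    right
    exact ⟨rfl, by omega, h.c0, rfl⟩
  E := by
    intro x y hr hn
    simp only [rf_true, sn_true, rf_false, sn_false] at hr hn ⊢
    rw [h.E (Rg_sh hr).1 hn]
    omega
  C := by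
    intro x y hr hP
    simp only [rf_true, sn_true, rf_false] at hr hP ⊢
    exact (h.C (Rg_sh (p := p) hr).2 hP).trans (if_congr (by omega) rfl rfl)

lemma RNW.loc (h : RNW D M cv) (hM : 60 ≤ M) :
    LocV D p s false true D.w 0 M (al s .R) (al s .F) 0 cv D.cb where
  M0 := hM
  a0 := al_01.1
  a1 := al_01.2
  b0 := al_01.1
  b1 := al_01.2
  bx := by
    have h1 := h.up 0 le_rfl (by omega)
    have h2 := D.hlo 0 le_rfl h1.1
    right
    exact ⟨rfl, by omega, le_rfl⟩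
  bt := by
    have h1 := h.up M (by omega) le_rfl
    left
    exact ⟨rfl, le_rfl, by omega, rfl⟩
  E := by
    intro x y hr hn
    simp only [rf_true, sn_true, rf_false, sn_false] at hr hn ⊢
    rw [h.E (Rg_sh hr).1 hn]
    omega
  C := by
    intro x y hr hP
    simp only [rf_true, rf_false, sn_false] at hr hP ⊢
    exact (h.C (Rg_sh (p := p) hr).2 hP).trans (if_congr (by omega) rfl rfl)

lemma RSW.loc (h : RSW D M cv) (hM : 60 ≤ M) :
    LocV D p s false false D.w D.h M (al s .R) (al s .C) (-D.h) cv D.ct where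
  M0 := hM
  a0 := al_01.1
  a1 := al_01.2
  b0 := al_01.1
  b1 := al_01.2
  bx := by
    have hh := D.hh
    have h1 := h.dn (D.h - 1) (by omega) (by omega)
    have h2 := D.hlo (D.h - 1) h1.1 (by omega)
    right
    exact ⟨rfl, by omega, le_rfl⟩
  bt := by
    have h1 := h.dn (D.h - M) le_rfl (by omega)
    right
    exact ⟨rfl, by omega, le_rfl, rfl⟩
  E := by
    intro x y hr hn
    simp only [rf_false, sn_false] at hr hn ⊢
    rw [h.E (Rg_sh hr).1 hn]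
    omega
  C := by
    intro x y hr hP
    simp only [rf_false, sn_false] at hr hP ⊢
    exact (h.C (Rg_sh (p := p) hr).2 hP).trans (if_congr (by omega) rfl rfl)

lemma LSW.loc (h : LSW D cx c M cc) (hM : 60 ≤ M) :
    LocX D p s true true cx c M (al s .L) (al s .F) cc where
  M0 := hM
  a0 := al_01.1
  a1 := al_01.2
  b0 := al_01.1
  b1 := al_01.2
  bx := by
    have h0 := h.c0
    have h1 := h.up c le_rfl (by omega)
    have h2 := D.hlo c (by omega) h1.1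
    have h3 := h.w1
    exact ⟨by omega, by omega⟩
  bt := by
    have h0 := h.c0
    have h1 := h.up (c + M) (by omega) le_rfl
    exact ⟨by omega, by omega⟩
  E := by
    intro x y hr hn
    simp only [rf_true, sn_true] at hr hn ⊢
    rw [h.E (Rg_sh hr).1 hn]
    omega
  C := by
    intro x y hr hP
    simp only [rf_true] at hr hP ⊢
    exact h.C (Rg_sh (p := p) hr).2 hP

lemma LNW.loc (h : LNW D cx c M cc) (hM : 60 ≤ M) :
    LocX D p s true false cx c M (al s .L) (al s .C) cc where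
  M0 := hM
  a0 := al_01.1
  a1 := al_01.2
  b0 := al_01.1
  b1 := al_01.2
  bx := by
    have c0 := h.c0
    have h1 := h.dn (c - 1) (by omega) (by omega)
    have h2 := D.hlo (c - 1) h1.1 (by omega)
    have h3 := h.w1
    exact ⟨by omega, by omega⟩
  bt := by
    have h1 := h.dn (c - M) le_rfl (by omega)
    have h0 := h.c0
    exact ⟨by omega, by omega⟩
  E := by
    intro x y hr hn
    simp only [rf_true, sn_true, rf_false, sn_false] at hr hn ⊢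
    rw [h.E (Rg_sh hr).1 hn]
    omega
  C := by
    intro x y hr hP
    simp only [rf_true, rf_false] at hr hP ⊢
    exact h.C (Rg_sh (p := p) hr).2 hP

/-! ### The small rectangle -/

/-- tiles of the large box with the margin `m` -/
def BX (D : Win) (m x y : ℤ) : Prop := D.lo - m ≤ x ∧ x < D.w + m ∧ -m ≤ y ∧ y < D.h + m

lemma BX_four : BX D 4 x y ↔ InB D x y := by
  unfold BX InB; omega

/-- the small rectangle at a corner -/
def SQ (D : Win) (m cx c x y : ℤ) : Prop :=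
  (cx - 12 ≤ x ∧ x ≤ cx + 12 ∧ c - 12 ≤ y ∧ y ≤ c + 12) ∧ BX D (m - 1) x y

instance : Decidable (SQ D m cx c x y) := by unfold SQ BX; infer_instance

lemma SQ.inB (h : SQ D m cx c x y) : BX D m x y := by
  unfold SQ BX at h; unfold BX; omega

/-- the labels of the small rectangle -/
noncomputable def SL (D : Win) (m cx c : ℤ) : Finset (ℤ × ℤ) :=
  ((Icc (cx - 12) (cx + 12) ×ˢ Icc (c - 12) (c + 12)).filter fun t => SQ D m cx c t.1 t.2).image lt

lemma mem_SL : lt (x, y) ∈ SL D m cx c ↔ SQ D m cx c x y := by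
  unfold SL
  simp only [mem_image, mem_filter, mem_product, mem_Icc, Prod.exists]
  constructor
  · rintro ⟨a, b, h, e⟩
    have := lt_inj e
    simp only [Prod.mk.injEq] at this
    rw [← this.1, ← this.2]
    exact h.2
  · intro h
    exact ⟨x, y, ⟨⟨⟨h.1.1, h.1.2.1⟩, h.1.2.2⟩, h⟩, rfl⟩

lemma exists_SL {l : ℤ × ℤ} (h : l ∈ SL D m cx c) : ∃ x y, l = lt (x, y) ∧ SQ D m cx c x y := by
  unfold SL at h
  simp only [mem_image, mem_filter, mem_product, mem_Icc, Prod.exists] at h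
  obtain ⟨a, b, h, e⟩ := h
  exact ⟨a, b, e.symm, h.2⟩

/-- tiles at distance at most `M` from a point -/
def Dc (cx c M x y : ℤ) : Prop := (cx - M ≤ x ∧ x ≤ cx + M) ∧ (c - M ≤ y ∧ y ≤ c + M)

variable {E W Z : Finset (ℤ × ℤ)}

/-- labels which are natural near a corner, outside of the small rectangle -/
structure NatC (D : Win) (m : ℤ) (p : Bool) (s : Finset Sd) (cx c M : ℤ) (E W : Finset (ℤ × ℤ)) : Prop where
  E : ∀ x y, Dc cx c M x y → ¬ SQ D m cx c x y → (lt (x, y) ∈ E ↔ EPn D s (x + sh p) y)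
  W : ∀ x y, Dc cx c M x y → ¬ SQ D m cx c x y → BX D m x y →
    ¬ EPn D s (x + sh p) y → (lt (x, y) ∈ W ↔ natc D p x y = true)

/-- the box near a corner is in the zone -/
def ZnC (D : Win) (m : ℤ) (Z : Finset (ℤ × ℤ)) (cx c M : ℤ) : Prop :=
  ∀ x y, Dc cx c M x y → BX D m x y → lt (x, y) ∈ Z

/-- the columns of the small rectangle, convex corners -/
lemma LocV.xr (hm : 4 ≤ m) (h : LocV D p s σ τ cx c M α β ys cv ch) : ∃ xa xb : ℤ,
    (sn σ (cx - sh p) - α - 16 ≤ xa ∧ xa ≤ sn σ (cx - sh p) - α - 1 ∧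
      sn σ (cx - sh p) - α + 2 ≤ xb ∧ xb ≤ sn σ (cx - sh p) - α + 16) ∧
    (∀ x, (xa ≤ x ∧ x ≤ xb) ↔ (cx - 12 ≤ rf σ x ∧ rf σ x ≤ cx + 12 ∧ D.lo ≤ rf σ x + m - 1 ∧
      rf σ x ≤ D.w + m - 2)) ∧
    (∀ x, xa ≤ x + 1 → x ≤ sn σ (cx - sh p) + M - 6 → D.lo ≤ rf σ x + m ∧ rf σ x < D.w + m) := by
  have h0 := h.M0
  have h1 := h.a0
  have h2 := h.a1
  have k1 := sh_nonneg p
  have k2 := sh_le p
  rcases h.bx with ⟨rfl, h3, h4⟩ | ⟨rfl, h3, h4⟩
  · refine ⟨max (cx - 12) (D.lo - m + 1), cx + 12, ?_, ?_, ?_⟩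
    · rw [sn_true]; omega
    · intro x; rw [rf_true]; omega
    · intro x; rw [rf_true, sn_true]; omega
  · refine ⟨max (-cx - 13) (-D.w - m + 1), -cx + 11, ?_, ?_, ?_⟩
    · rw [sn_false]; omega
    · intro x; rw [rf_false]; omega
    · intro x; rw [rf_false, sn_false]; omega

/-- the rows of the small rectangle, convex corners -/
lemma LocV.yr (hm : 4 ≤ m) (h : LocV D p s σ τ cx c M α β ys cv ch) : ∃ ya yb : ℤ,
    (sn τ c - β - 16 ≤ ya ∧ ya ≤ sn τ c - β - 1 ∧ sn τ c - β + 2 ≤ yb ∧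
      yb ≤ sn τ c - β + 16) ∧ (ya ≤ ys ∧ ys ≤ yb) ∧
    (∀ y, (ya ≤ y ∧ y ≤ yb) ↔ (c - 12 ≤ rf τ y ∧ rf τ y ≤ c + 12 ∧ -m + 1 ≤ rf τ y ∧ rf τ y ≤ D.h + m - 2)) ∧
    (∀ y, ya ≤ y + 1 → y ≤ sn τ c + M - 6 → -m ≤ rf τ y ∧ rf τ y < D.h + m) := by
  have h0 := h.M0
  have h1 := h.b0
  have h2 := h.b1
  rcases h.bt with ⟨rfl, h3, h4, h5⟩ | ⟨rfl, h3, h4, h5⟩
  · refine ⟨max (c - 12) (-m + 1), c + 12, ?_, ?_, ?_, ?_⟩
    · rw [sn_true]; omega
    · omega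
    · intro x; rw [rf_true]; omega
    · intro x; rw [rf_true, sn_true]; omega
  · refine ⟨max (-c - 13) (-D.h - m + 1), -c + 11, ?_, ?_, ?_, ?_⟩
    · rw [sn_false]; omega
    · omega
    · intro x; rw [rf_false]; omega
    · intro x; rw [rf_false, sn_false]; omega

lemma rg_of (h1 : sn σ (cx - sh p) - M + 6 ≤ x) (h2 : x ≤ sn σ (cx - sh p) + M - 6)
    (h3 : sn τ c - M + 6 ≤ y) (h4 : y ≤ sn τ c + M - 6) : Rg cx c (M - 2) (rf σ x) (rf τ y) ∧
      Dc cx c M (rf σ x) (rf τ y) := by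
  have k1 := sh_nonneg p
  have k2 := sh_le p
  unfold Rg Dc
  cases σ <;> cases τ <;> simp only [rf_true, rf_false, sn_true, sn_false] at * <;> omega

/-- labels which are natural near a convex corner -/
theorem LocV.cnr (hm : 4 ≤ m) (h : LocV D p s σ τ cx c M α β ys cv ch) (N : NatC D m p s cx c M E W)
    (hZ : ZnC D m Z cx c M) : ∃ xa xb ya yb, CnrZ σ τ Z (E ∪ SL D m cx c) (W \ SL D m cx c)
      (sn σ (cx - sh p) - α) (sn τ c - β) (M - 10) xa xb ya yb ∧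
      ∀ x y, lt (rf σ x, rf τ y) ∈ SL D m cx c → xa ≤ x ∧ x ≤ xb ∧ ya ≤ y ∧ y ≤ yb := by
  obtain ⟨xa, xb, ⟨a1, a2, a3, a4⟩, aS, aB⟩ := h.xr hm
  obtain ⟨ya, yb, ⟨b1, b2, b3, b4⟩, ⟨s1, s2⟩, bS, bB⟩ := h.yr hm
  have hM := h.M0
  have α0 := h.a0
  have α1 := h.a1
  have β0 := h.b0
  have β1 := h.b1
  have k1 := sh_nonneg p
  have k2 := sh_le p
  have hSQ : ∀ x y, SQ D m cx c (rf σ x) (rf τ y) ↔ xa ≤ x ∧ x ≤ xb ∧ ya ≤ y ∧ y ≤ yb := by
    intro x y
    have e1 := aS x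
    have e2 := bS y
    unfold SQ BX
    omega
  have hNr : ∀ X Y, Nr cx c (X + sh p) Y → SQ D m cx c X Y := by
    intro X Y
    have e1 := h.bx
    have e2 := h.bt
    unfold Nr SQ BX
    omega
  -- random tiles
  have TE : ∀ x y, sn σ (cx - sh p) - M + 6 ≤ x → x ≤ sn σ (cx - sh p) + M - 6 → sn τ c - M + 6 ≤ y →
      y ≤ sn τ c + M - 6 → ¬ (xa ≤ x ∧ x ≤ xb ∧ ya ≤ y ∧ y ≤ yb) →
      (Tp σ τ (E ∪ SL D m cx c) x y ↔ sn σ (cx - sh p) - α ≤ x ∧ sn τ c - β ≤ y) ∧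
      (Tp σ τ (E ∪ SL D m cx c) x y ↔ EPn D s (rf σ x + sh p) (rf τ y)) := by
    intro x y c1 c2 c3 c4 c5
    obtain ⟨r1, r2⟩ := rg_of (p := p) (σ := σ) (τ := τ) c1 c2 c3 c4
    rw [← hSQ] at c5
    have e1 := N.E _ _ r2 c5
    have e2 := h.E x y r1 (fun h => c5 (hNr _ _ h))
    have e3 : Tp σ τ (E ∪ SL D m cx c) x y ↔ EPn D s (rf σ x + sh p) (rf τ y) := by
      unfold Tp
      rw [mem_union, mem_SL, ← e1]
      tauto
    exact ⟨e3.trans e2, e3⟩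
  -- open tiles
  have TW : ∀ x y, sn σ (cx - sh p) - M + 6 ≤ x → x ≤ sn σ (cx - sh p) + M - 6 → sn τ c - M + 6 ≤ y →
      y ≤ sn τ c + M - 6 → ¬ (xa ≤ x ∧ x ≤ xb ∧ ya ≤ y ∧ y ≤ yb) → xa ≤ x + 1 → ya ≤ y + 1 →
      ¬ (sn σ (cx - sh p) - α ≤ x ∧ sn τ c - β ≤ y) →
      (Tp σ τ (W \ SL D m cx c) x y ↔ (if x < sn σ (cx - sh p) ∧ ys ≤ y then cv else ch) = true) := by
    intro x y c1 c2 c3 c4 c5 c6 c7 c8
    obtain ⟨r1, r2⟩ := rg_of (p := p) (σ := σ) (τ := τ) c1 c2 c3 c4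
    have e0 := TE x y c1 c2 c3 c4 c5
    have hEP : ¬ EPn D s (rf σ x + sh p) (rf τ y) := fun h => c8 (e0.1.1 (e0.2.2 h))
    rw [← hSQ] at c5
    have g1 := aB x c6 (by omega)
    have g2 := bB y c7 (by omega)
    have hB : BX D m (rf σ x) (rf τ y) := by
      unfold BX; omega
    have hPT : ¬ PT D (rf σ x + sh p) (rf τ y) := fun h => hEP (Or.inl h)
    have e1 : Tp σ τ (W \ SL D m cx c) x y ↔ lt (rf σ x, rf τ y) ∈ W := by
      unfold Tp
      rw [mem_sdiff, mem_SL]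
      tauto
    rw [e1, N.W _ _ r2 c5 hB hEP, h.C x y r1 hPT]
  refine ⟨xa, xb, ya, yb, Or.inl ⟨ys, cv, ch, ⟨a1, a2, a3, a4, b1, b2, b3, b4, s1, s2, ?_, ?_, ?_, ?_⟩, ?_⟩,
    fun x y hS => (hSQ x y).1 (mem_SL.1 hS)⟩
  · intro x y c1 c2 c3 c4
    exact mem_union_right _ (mem_SL.2 ((hSQ x y).2 ⟨c1, c2, c3, c4⟩))
  · intro x y c1 c2 c3 c4
    by_cases hs : xa ≤ x ∧ x ≤ xb ∧ ya ≤ y ∧ y ≤ yb
    · exact mem_union_right _ (mem_SL.2 ((hSQ x y).2 hs))
    · exact (TE x y (by omega) (by omega) (by omega) (by omega) hs).1.2 ⟨c3, c4⟩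
  · intro x y c1 c2 c3 c4 c5 c6
    have hs : ¬ (xa ≤ x ∧ x ≤ xb ∧ ya ≤ y ∧ y ≤ yb) := by omega
    have e1 := TE x y (by omega) (by omega) (by omega) (by omega) hs
    have e2 := TW x y (by omega) (by omega) (by omega) (by omega) hs c3 c4 (by omega)
    refine ⟨fun h => absurd (e1.1.1 h) (by omega), e2.trans ?_⟩
    have e3 : sn τ c - β ≤ ys := by
      rcases h.bt with ⟨rfl, -, -, h5⟩ | ⟨rfl, -, -, h5⟩
      · rw [sn_true]; omega
      · rw [sn_false]; omega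
    rw [if_congr (show (x < sn σ (cx - sh p) ∧ ys ≤ y ↔ x < sn σ (cx - sh p) - α ∧ ys ≤ y) by
      clear e1 e2 TE TW; omega) rfl rfl]
  · intro x y c1 c2 c3 c4 c5 h
    have hs : ¬ (xa ≤ x ∧ x ≤ xb ∧ ya ≤ y ∧ y ≤ yb) := by omega
    have e1 := (TE x y (by omega) (by omega) (by omega) (by omega) hs).1.1 h
    omega
  · intro x y c1 c2 c3 c4
    have g1 := aB x c3 (by omega)
    have g2 := bB y c4 (by omega)
    exact hZ _ _ (rg_of (p := p) (σ := σ) (τ := τ) (by omega) (by omega) (by omega) (by omega)).2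
      (by unfold BX; omega)

/-- the columns of the small rectangle, reflex corners -/
lemma LocX.xr (hm : 4 ≤ m) (h : LocX D p s σ τ cx c M α β cc) : ∃ xa xb : ℤ,
    (sn σ (cx - sh p) - α - 16 ≤ xa ∧ xa ≤ sn σ (cx - sh p) - α - 2 ∧
      sn σ (cx - sh p) - α + 2 ≤ xb ∧ xb ≤ sn σ (cx - sh p) - α + 16) ∧
    (∀ x, (xa ≤ x ∧ x ≤ xb) ↔ (cx - 12 ≤ rf σ x ∧ rf σ x ≤ cx + 12 ∧ D.lo ≤ rf σ x + m - 1 ∧
      rf σ x ≤ D.w + m - 2)) ∧
    (∀ x, sn σ (cx - sh p) - M + 6 ≤ x → x ≤ sn σ (cx - sh p) + M - 6 → D.lo ≤ rf σ x + m ∧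
      rf σ x < D.w + m) := by
  have h0 := h.M0
  have h1 := h.a0
  have h2 := h.a1
  have k1 := sh_nonneg p
  have k2 := sh_le p
  obtain ⟨h3, h4⟩ := h.bx
  cases σ
  · refine ⟨-cx - 13, -cx + 11, ?_, ?_, ?_⟩
    · rw [sn_false]; omega
    · intro x; rw [rf_false]; omega
    · intro x; rw [rf_false, sn_false]; omega
  · refine ⟨cx - 12, cx + 12, ?_, ?_, ?_⟩
    · rw [sn_true]; omega
    · intro x; rw [rf_true]; omega
    · intro x; rw [rf_true, sn_true]; omega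

/-- the rows of the small rectangle, reflex corners -/
lemma LocX.yr (hm : 4 ≤ m) (h : LocX D p s σ τ cx c M α β cc) : ∃ ya yb : ℤ,
    (sn τ c - β - 16 ≤ ya ∧ ya ≤ sn τ c - β - 2 ∧ sn τ c - β + 2 ≤ yb ∧ yb ≤ sn τ c - β + 16) ∧
    (∀ y, (ya ≤ y ∧ y ≤ yb) ↔ (c - 12 ≤ rf τ y ∧ rf τ y ≤ c + 12 ∧ -m + 1 ≤ rf τ y ∧ rf τ y ≤ D.h + m - 2)) ∧
    (∀ y, sn τ c - M + 6 ≤ y → y ≤ sn τ c + M - 6 → -m ≤ rf τ y ∧ rf τ y < D.h + m) := by
  have h0 := h.M0
  have h1 := h.b0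
  have h2 := h.b1
  obtain ⟨h3, h4⟩ := h.bt
  cases τ
  · refine ⟨-c - 13, -c + 11, ?_, ?_, ?_⟩
    · rw [sn_false]; omega
    · intro x; rw [rf_false]; omega
    · intro x; rw [rf_false, sn_false]; omega
  · refine ⟨c - 12, c + 12, ?_, ?_, ?_⟩
    · rw [sn_true]; omega
    · intro x; rw [rf_true]; omega
    · intro x; rw [rf_true, sn_true]; omega

/-- labels which are natural near a reflex corner -/
theorem LocX.cnr (hm : 4 ≤ m) (h : LocX D p s σ τ cx c M α β cc) (N : NatC D m p s cx c M E W)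
    (hZ : ZnC D m Z cx c M) : ∃ xa xb ya yb, CnrZ σ τ Z (E ∪ SL D m cx c) (W \ SL D m cx c)
      (sn σ (cx - sh p) - α) (sn τ c - β) (M - 10) xa xb ya yb ∧
      ∀ x y, lt (rf σ x, rf τ y) ∈ SL D m cx c → xa ≤ x ∧ x ≤ xb ∧ ya ≤ y ∧ y ≤ yb := by
  obtain ⟨xa, xb, ⟨a1, a2, a3, a4⟩, aS, aB⟩ := h.xr hm
  obtain ⟨ya, yb, ⟨b1, b2, b3, b4⟩, bS, bB⟩ := h.yr hm
  have hM := h.M0
  have α0 := h.a0
  have α1 := h.a1
  have β0 := h.b0
  have β1 := h.b1
  have k1 := sh_nonneg p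
  have k2 := sh_le p
  have hSQ : ∀ x y, SQ D m cx c (rf σ x) (rf τ y) ↔ xa ≤ x ∧ x ≤ xb ∧ ya ≤ y ∧ y ≤ yb := by
    intro x y
    have e1 := aS x
    have e2 := bS y
    unfold SQ BX
    omega
  have hNr : ∀ X Y, Nr cx c (X + sh p) Y → SQ D m cx c X Y := by
    intro X Y
    have e1 := h.bx
    have e2 := h.bt
    unfold Nr SQ BX
    omega
  -- random tiles
  have TE : ∀ x y, sn σ (cx - sh p) - M + 6 ≤ x → x ≤ sn σ (cx - sh p) + M - 6 → sn τ c - M + 6 ≤ y →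
      y ≤ sn τ c + M - 6 → ¬ (xa ≤ x ∧ x ≤ xb ∧ ya ≤ y ∧ y ≤ yb) →
      (Tp σ τ (E ∪ SL D m cx c) x y ↔ sn σ (cx - sh p) - α ≤ x ∨ sn τ c - β ≤ y) ∧
      (Tp σ τ (E ∪ SL D m cx c) x y ↔ EPn D s (rf σ x + sh p) (rf τ y)) := by
    intro x y c1 c2 c3 c4 c5
    obtain ⟨r1, r2⟩ := rg_of (p := p) (σ := σ) (τ := τ) c1 c2 c3 c4
    rw [← hSQ] at c5
    have e1 := N.E _ _ r2 c5
    have e2 := h.E x y r1 (fun h => c5 (hNr _ _ h))
    have e3 : Tp σ τ (E ∪ SL D m cx c) x y ↔ EPn D s (rf σ x + sh p) (rf τ y) := by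
      unfold Tp
      rw [mem_union, mem_SL, ← e1]
      tauto
    exact ⟨e3.trans e2, e3⟩
  refine ⟨xa, xb, ya, yb, Or.inr ⟨cc, ⟨a1, a2, a3, a4, b1, b2, b3, b4, ?_, ?_, ?_⟩, ?_⟩,
    fun x y hS => (hSQ x y).1 (mem_SL.1 hS)⟩
  · intro x y c1 c2 c3 c4
    exact mem_union_right _ (mem_SL.2 ((hSQ x y).2 ⟨c1, c2, c3, c4⟩))
  · intro x y c1 c2 c3 c4 c5
    by_cases hs : xa ≤ x ∧ x ≤ xb ∧ ya ≤ y ∧ y ≤ yb
    · exact mem_union_right _ (mem_SL.2 ((hSQ x y).2 hs))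
    · exact (TE x y (by omega) (by omega) (by omega) (by omega) hs).1.2 c5
  · intro x y c1 c2 c3 c4 c5
    have hs : ¬ (xa ≤ x ∧ x ≤ xb ∧ ya ≤ y ∧ y ≤ yb) := by omega
    have e0 := TE x y (by omega) (by omega) (by omega) (by omega) hs
    have hE : ¬ Tp σ τ (E ∪ SL D m cx c) x y := fun h => absurd (e0.1.1 h) (by omega)
    refine ⟨hE, ?_⟩
    obtain ⟨r1, r2⟩ := rg_of (p := p) (σ := σ) (τ := τ) (cx := cx) (c := c) (M := M)
      (x := x) (y := y) (by omega) (by omega) (by omega) (by omega)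
    have hEP : ¬ EPn D s (rf σ x + sh p) (rf τ y) := fun h => hE (e0.2.2 h)
    rw [← hSQ] at hs
    have g1 := aB x (by omega) (by omega)
    have g2 := bB y (by omega) (by omega)
    have hB : BX D m (rf σ x) (rf τ y) := by
      unfold BX; omega
    have hPT : ¬ PT D (rf σ x + sh p) (rf τ y) := fun h => hEP (Or.inl h)
    have e1 : Tp σ τ (W \ SL D m cx c) x y ↔ lt (rf σ x, rf τ y) ∈ W := by
      unfold Tp
      rw [mem_sdiff, mem_SL]
      tauto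
    rw [e1, N.W _ _ r2 hs hB hEP, h.C x y r1 hPT]
  · intro x y c1 c2 c3 c4
    have g1 := aB x (by omega) (by omega)
    have g2 := bB y (by omega) (by omega)
    exact hZ _ _ (rg_of (p := p) (σ := σ) (τ := τ) (by omega) (by omega) (by omega) (by omega)).2
      (by unfold BX; omega)

end Pool.Agent.H14.W
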