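import Mathlib
import Pool.Agent.H14.W.NLoc

set_option autoImplicit false
open Finset

/-! # Displacement lemma in pattern form (route W)

`Crn D p s M cs` : `cs` is a set of corners of the natural window (world `p`, walls of the kinds `s` pushed), the
window looks like a corner up to the distance `M`. `NB Z cx c M` : labels of the zone within distance `M`.
`step_cnr` : one corner. `disp_cs` : the means of a bounded functional (toggles near the corners) in two environments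
which differ only within distance `12` of the corners. -/

namespace Pool.Agent.H14.W

open Pool.Agent.H75.Perc hiding ph
open Pool.Agent.H75.TwoArm Pool.Agent.H75.Four Pool.Agent.H69.Q1
open Pool.Agent.Q1 Pool.Agent.H43.Q1 Pool.Agent.H39.Q1 Pool.Agent.Q1.M6c
open Pool.Agent.H60.Q1 Pool.Agent.H99.NC Pool.Agent.H42.FM Pool.Agent.H44.FM Pool.Agent.H14.R45
open Pool.Agent.H14.Win (rf sn rf_true rf_false sn_true sn_false rf_rf sn_sn Cvx Rfx Tp lt_rf ctr)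
open Pool.Agent.H54.W (Win)
open Pool.Agent.H33.Q1 (lt tt tv tf lt_inj tt_lt lt_odd lt_tt)
open Pool.Agent.H72.W.N (PT LyP natc natc_def sh sh_false sh_true sh_cases sh_nonneg sh_le InP InB)
open Pool.Agent.H42.Sp (Sd)

variable {D : Win} {s : Finset Sd} {p : Bool} {m cx c M x y X Y α β ys : ℤ} {cv ch cc σ τ : Bool}
  {Z E W E' W' S : Finset (ℤ × ℤ)} {cs : Finset (ℤ × ℤ)}

/-- **Corners of a natural window** -/
structure Crn (D : Win) (p : Bool) (s : Finset Sd) (M : ℤ) (cs : Finset (ℤ × ℤ)) : Prop where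
  sep : ∀ c ∈ cs, ∀ c' ∈ cs, c ≠ c' → M + 13 ≤ |c.1 - c'.1| ∨ M + 13 ≤ |c.2 - c'.2|
  loc : ∀ c ∈ cs, ∃ (σ τ : Bool) (α β : ℤ), (∃ ys cv ch, LocV D p s σ τ c.1 c.2 M α β ys cv ch) ∨
    ∃ cc, LocX D p s σ τ c.1 c.2 M α β cc

open Classical in
/-- the labels of the zone near a point -/
noncomputable def NB (Z : Finset (ℤ × ℤ)) (cx c M : ℤ) : Finset (ℤ × ℤ) :=
  Z.filter fun l => ∃ x y, l = lt (x, y) ∧ Dc cx c M x y

lemma mem_NB : lt (x, y) ∈ NB Z cx c M ↔ lt (x, y) ∈ Z ∧ Dc cx c M x y := by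
  classical
  unfold NB
  rw [mem_filter]
  refine and_congr_right fun _ => ⟨?_, fun h => ⟨x, y, rfl, h⟩⟩
  rintro ⟨x', y', e, h⟩
  have := lt_inj e
  simp only [Prod.mk.injEq] at this
  rw [this.1, this.2]
  exact h

lemma NB_sub : NB Z cx c M ⊆ Z := by
  classical
  exact filter_subset _ _

lemma ZnC.SL_sub (h : ZnC D m Z cx c M) (hM : 12 ≤ M) : SL D m cx c ⊆ Z := by
  intro l hl
  obtain ⟨x, y, rfl, hq⟩ := exists_SL hl
  refine h x y ?_ hq.inB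
  unfold SQ at hq
  unfold Dc
  omega

/-- **One corner** -/
theorem step_cnr : ∃ C α : ℝ, 0 < C ∧ 0 < α ∧ ∀ (D : Win) (m : ℤ), 4 ≤ m → ∀ (p : Bool) (s : Finset Sd)
    (cx c M : ℤ), 400 ≤ M →
    (∃ (σ τ : Bool) (α β : ℤ), (∃ ys cv ch, LocV D p s σ τ cx c M α β ys cv ch) ∨
      ∃ cc, LocX D p s σ τ cx c M α β cc) →
    ∀ (Z E1 W1 E2 W2 : Finset (ℤ × ℤ)), (∀ e ∈ Z, (e.1 + e.2) % 2 = 1) →
    DfP Z E1 W1 E2 W2 (SL D m cx c) → NatC D m p s cx c M E1 W1 → ZnC D m Z cx c M →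
    ∀ F : Finset (ℤ × ℤ) → ℂ, BoxF Z (NB Z cx c M) F → ∀ K : ℝ, 0 ≤ K → (∀ w ⊆ Z, ‖F w‖ ≤ K) →
    ‖Ec (fun _ => (1 / 2 : ℂ)) E1 (fun ω => F (ω ∪ W1)) -
      Ec (fun _ => (1 / 2 : ℂ)) E2 (fun ω => F (ω ∪ W2))‖ ≤ C * K * ((1 : ℝ) / M) ^ (1 + α) := by
  obtain ⟨C, α, hC, hα, key⟩ := cnr_mean
  refine ⟨C * 4 ^ (1 + α), α, by positivity, hα, ?_⟩
  intro D m hm p s cx c M hM hloc Z E1 W1 E2 W2 ho Df N hZ F hB K hK hF
  obtain ⟨σ, τ, α', β, hloc⟩ := hloc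
  obtain ⟨xa, xb, ya, yb, hcnr, hS⟩ : ∃ xa xb ya yb, CnrZ σ τ Z (E1 ∪ SL D m cx c) (W1 \ SL D m cx c)
      (sn σ (cx - sh p) - α') (sn τ c - β) (M - 10) xa xb ya yb ∧
      ∀ x y, lt (rf σ x, rf τ y) ∈ SL D m cx c → xa ≤ x ∧ x ≤ xb ∧ ya ≤ y ∧ y ≤ yb := by
    rcases hloc with ⟨ys, cv, ch, h⟩ | ⟨cc, h⟩
    · exact h.cnr hm N hZ
    · exact h.cnr hm N hZ
  have hab : 0 ≤ α' ∧ α' ≤ 1 ∧ 0 ≤ β ∧ β ≤ 1 := by
    rcases hloc with ⟨ys, cv, ch, h⟩ | ⟨cc, h⟩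
    · exact ⟨h.a0, h.a1, h.b0, h.b1⟩
    · exact ⟨h.a0, h.a1, h.b0, h.b1⟩
  obtain ⟨r, hr⟩ : ∃ r : ℕ, (r : ℤ) = (M - 18) / 2 := ⟨((M - 18) / 2).toNat, by omega⟩
  have hr1 : 160 ≤ r := by omega
  have hbox : BR (ctr σ τ (sn σ (cx - sh p) - α') (sn τ c - β)) r ∩ Z ⊆ NB Z cx c M := by
    intro l hl
    obtain ⟨h1, h2⟩ := mem_inter.1 hl
    obtain ⟨x, y, rfl⟩ : ∃ x y, l = lt (x, y) := ⟨(tt l).1, (tt l).2, (lt_tt (ho l h2)).symm⟩
    refine mem_NB.2 ⟨h2, ?_⟩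
    rw [lt_rf (σ := σ) (τ := τ)] at h1
    have h3 := md_box (L := M - 10) (by omega) h1
    have k1 := sh_nonneg p
    have k2 := sh_le p
    unfold Dc
    cases σ <;> cases τ <;> simp only [rf_true, rf_false, sn_true, sn_false] at h3 <;> omega
  have h1 := key σ τ Z E1 W1 E2 W2 (SL D m cx c) _ _ _ xa xb ya yb Df ho hcnr hS r hr1 (by omega) F
    (hB.mono hbox (Subset.refl _)) K hK hF
  refine h1.trans ?_
  have hM0 : (400 : ℝ) ≤ M := by exact_mod_cast hM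
  have hr0 : (M : ℝ) / 4 ≤ r := by
    have : (M : ℤ) ≤ 4 * r := by omega
    have : (M : ℝ) ≤ 4 * r := by exact_mod_cast this
    linarith
  have h2 : ((1 : ℝ) / r) ^ (1 + α) ≤ 4 ^ (1 + α) * ((1 : ℝ) / M) ^ (1 + α) := by
    rw [← Real.mul_rpow (by norm_num) (by positivity)]
    refine Real.rpow_le_rpow (by positivity) ?_ (by linarith)
    rw [mul_one_div, div_le_div_iff₀ (by linarith) (by linarith)]
    linarith
  calc C * K * ((1 : ℝ) / r) ^ (1 + α) ≤ C * K * (4 ^ (1 + α) * ((1 : ℝ) / M) ^ (1 + α)) :=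
        mul_le_mul_of_nonneg_left h2 (by positivity)
    _ = C * 4 ^ (1 + α) * K * ((1 : ℝ) / M) ^ (1 + α) := by ring

/-! ### All corners -/

/-- replace the labels of `S` -/
def rp (S E E' : Finset (ℤ × ℤ)) : Finset (ℤ × ℤ) := (E \ S) ∪ (E' ∩ S)

lemma mem_rp {l : ℤ × ℤ} : l ∈ rp S E E' ↔ (l ∈ S ∧ l ∈ E') ∨ (l ∉ S ∧ l ∈ E) := by
  unfold rp
  rw [mem_union, mem_sdiff, mem_inter]
  tauto

lemma rp_sub {G : Finset (ℤ × ℤ)} (h : E ⊆ G) (h' : E' ⊆ G) : rp S E E' ⊆ G := by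
  intro l hl
  rcases mem_rp.1 hl with h1 | h1
  · exact h' h1.2
  · exact h h1.2

lemma rp_disj (h : Disjoint E W) (h' : Disjoint E' W') : Disjoint (rp S E E') (rp S W W') := by
  rw [disjoint_left]
  intro l hl hl'
  rw [mem_rp] at hl hl'
  rcases hl with h1 | h1 <;> rcases hl' with h2 | h2
  · exact disjoint_left.1 h' h1.2 h2.2
  · exact h2.1 h1.1
  · exact h1.1 h2.1
  · exact disjoint_left.1 h h1.2 h2.2

lemma rp_sdiff {F F' : Finset (ℤ × ℤ)} : F \ S = rp S F F' \ S := by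
  ext l
  rw [mem_sdiff, mem_sdiff, mem_rp]
  tauto

lemma rp_iff {l : ℤ × ℤ} (h : l ∉ S → (l ∈ E ↔ l ∈ E')) : l ∈ rp S E E' ↔ l ∈ E' := by
  rw [mem_rp]
  by_cases hS : l ∈ S
  · simp only [hS, true_and, not_true_eq_false, false_and, or_false]
  · rw [h hS]
    simp only [hS, false_and, not_false_eq_true, true_and, false_or]

/-- the other corners do not see the small rectangle -/
lemma Crn.far (C : Crn D p s M cs) {c c' : ℤ × ℤ} (hc : c ∈ cs) (hc' : c' ∈ cs) (h : Dc c'.1 c'.2 M x y)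
    (hs : ¬ SQ D m c'.1 c'.2 x y) : ¬ SQ D m c.1 c.2 x y := by
  intro hq
  by_cases he : c = c'
  · rw [he] at hq
    exact hs hq
  · have h1 := C.sep c hc c' hc' he
    rw [le_abs, le_abs] at h1
    unfold SQ at hq
    unfold Dc at h
    omega

lemma NatC.rp {c c' : ℤ × ℤ} (C : Crn D p s M cs) (hc : c ∈ cs) (hc' : c' ∈ cs)
    (N : NatC D m p s c'.1 c'.2 M E W) (E' W' : Finset (ℤ × ℤ)) :
    NatC D m p s c'.1 c'.2 M (rp (SL D m c.1 c.2) E E') (rp (SL D m c.1 c.2) W W') := by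
  refine ⟨fun x y h1 h2 => ?_, fun x y h1 h2 h3 h4 => ?_⟩
  · have := C.far hc hc' h1 h2
    rw [← N.E x y h1 h2, mem_rp, mem_SL]
    tauto
  · have := C.far hc hc' h1 h2
    rw [← N.W x y h1 h2 h3 h4, mem_rp, mem_SL]
    tauto

/-- **Displacement lemma**: the means of a bounded functional in two environments which differ only within
distance `12` of the corners. -/
theorem disp_cs : ∃ C α : ℝ, 0 < C ∧ 0 < α ∧ ∀ (D : Win) (m : ℤ), 4 ≤ m → ∀ (p : Bool) (s : Finset Sd)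
    (M : ℤ), 400 ≤ M → ∀ cs : Finset (ℤ × ℤ), Crn D p s M cs →
    ∀ (Z E1 W1 E2 W2 : Finset (ℤ × ℤ)), (∀ e ∈ Z, (e.1 + e.2) % 2 = 1) →
    E1 ⊆ Z → W1 ⊆ Z → E2 ⊆ Z → W2 ⊆ Z → Disjoint E1 W1 → Disjoint E2 W2 →
    (∀ c ∈ cs, ZnC D m Z c.1 c.2 M) → (∀ c ∈ cs, NatC D m p s c.1 c.2 M E1 W1) →
    (∀ l, (∀ c ∈ cs, l ∉ SL D m c.1 c.2) → (l ∈ E1 ↔ l ∈ E2) ∧ (l ∈ W1 ↔ l ∈ W2)) →
    ∀ F : Finset (ℤ × ℤ) → ℂ, (∀ c ∈ cs, BoxF Z (NB Z c.1 c.2 M) F) → ∀ K : ℝ, 0 ≤ K →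
    (∀ w ⊆ Z, ‖F w‖ ≤ K) →
    ‖Ec (fun _ => (1 / 2 : ℂ)) E1 (fun ω => F (ω ∪ W1)) -
      Ec (fun _ => (1 / 2 : ℂ)) E2 (fun ω => F (ω ∪ W2))‖ ≤
      cs.card * (C * K * ((1 : ℝ) / M) ^ (1 + α)) := by
  obtain ⟨C, α, hC, hα, step⟩ := step_cnr
  refine ⟨C, α, hC, hα, ?_⟩
  intro D m hm p s M hM cs Cr Z E1 W1 E2 W2 ho hE1 hW1 hE2 hW2 hd1 hd2 hZ N hag F hB K hK hF
  have key : ∀ T : Finset (ℤ × ℤ), T ⊆ cs →
      ∀ (E W E' W' : Finset (ℤ × ℤ)), E ⊆ Z → W ⊆ Z → E' ⊆ Z → W' ⊆ Z → Disjoint E W →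
      Disjoint E' W' → (∀ c ∈ cs, NatC D m p s c.1 c.2 M E W) →
      (∀ l, (∀ c ∈ T, l ∉ SL D m c.1 c.2) → (l ∈ E ↔ l ∈ E') ∧ (l ∈ W ↔ l ∈ W')) →
      ‖Ec (fun _ => (1 / 2 : ℂ)) E (fun ω => F (ω ∪ W)) -
        Ec (fun _ => (1 / 2 : ℂ)) E' (fun ω => F (ω ∪ W'))‖ ≤
        T.card * (C * K * ((1 : ℝ) / M) ^ (1 + α)) := by
    intro T
    induction T using Finset.induction_on with
    | empty =>
      intro _ E W E' W' hE hW hE' hW' hd hd' N hag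
      have eE : E = E' := Finset.ext fun l => (hag l (fun c hc => absurd hc (notMem_empty c))).1
      have eW : W = W' := Finset.ext fun l => (hag l (fun c hc => absurd hc (notMem_empty c))).2
      rw [eE, eW, sub_self, norm_zero, card_empty]
      simp
    | insert c T hcT ih =>
      intro hT E W E' W' hE hW hE' hW' hd hd' N hag
      have hc : c ∈ cs := hT (mem_insert_self c T)
      have hS := (hZ c hc).SL_sub (show 12 ≤ M by omega)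
      have h1 := step D m hm p s c.1 c.2 M hM (Cr.loc c hc) Z E W (rp (SL D m c.1 c.2) E E')
        (rp (SL D m c.1 c.2) W W') ho
        ⟨hE, hW, rp_sub hE hE', rp_sub hW hW', hS, hd, rp_disj hd hd', rp_sdiff, rp_sdiff⟩ (N c hc) (hZ c hc) F
        (hB c hc) K hK hF
      have h2 := ih ((subset_insert c T).trans hT) (rp (SL D m c.1 c.2) E E')
        (rp (SL D m c.1 c.2) W W') E' W' (rp_sub hE hE') (rp_sub hW hW') hE' hW' (rp_disj hd hd') hd'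
        (fun c' hc' => (N c' hc').rp Cr hc hc' E' W') (by
          intro l hl
          have h3 : l ∉ SL D m c.1 c.2 → (l ∈ E ↔ l ∈ E') ∧ (l ∈ W ↔ l ∈ W') := fun hlS => hag l (by
            intro c' hc'
            rcases mem_insert.1 hc' with rfl | h
            · exact hlS
            · exact hl c' h)
          exact ⟨rp_iff fun h => (h3 h).1, rp_iff fun h => (h3 h).2⟩)
      rw [card_insert_of_notMem hcT]
      refine (norm_sub_le_norm_sub_add_norm_sub _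
        (Ec (fun _ => (1 / 2 : ℂ)) (rp (SL D m c.1 c.2) E E')
          (fun ω => F (ω ∪ rp (SL D m c.1 c.2) W W'))) _).trans ((add_le_add h1 h2).trans (le_of_eq ?_))
      push_cast
      ring
  exact key cs (Subset.refl _) E1 W1 E2 W2 hE1 hW1 hE2 hW2 hd1 hd2 N hag

end Pool.Agent.H14.W
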