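import Mathlib
import Pool.Agent.H14.W.NDisp
import Pool.Agent.H95.W.CoR

set_option autoImplicit false
open Finset

/-! # The corners of a coarse window (route W)

`CoarseD D n H A CL` : the row `y` of the window starts at `n A (y / n)`, up to notches at the reflex corners, and is
at least `n` long; `CoarseRC` implies it. `CrE D M` : the colour of the right wall is constant within distance `M` of
its ends. `cns D n H A` : the corners of the polyomino and the two ends of the right wall. `CoarseD.crn` : the window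
looks like a corner at each of them, up to the distance `M ≤ n / 2`. -/

namespace Pool.Agent.H14.W

open Pool.Agent.H54.W (Win)
open Pool.Agent.H42.Sp (Sd)

/-- **The rows of the window start at `n A (y / n)`, up to notches.** -/
structure CoarseD (D : Win) (n H : ℤ) (A : ℤ → ℤ) (CL : ℤ → Bool) : Prop where
  hn : 8 ≤ n
  HH : 0 < H
  hh : D.h = n * H
  aw : ∀ Y, 0 ≤ Y → Y < H → n * A Y + n ≤ D.w
  a : ∀ y, 0 ≤ y → y < D.h → D.a y = n * A (y / n) ∨ (D.a y = n * A (y / n) - 1 ∧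
    ((y % n = n - 1 ∧ y / n + 1 < H ∧ A (y / n + 1) < A (y / n)) ∨
      (y % n = 0 ∧ 0 < y / n ∧ A (y / n - 1) < A (y / n))))
  cl : ∀ y, 0 ≤ y → y < D.h → D.cl y = CL (y / n)

/-- the colour of the right wall is constant near its ends -/
structure CrE (D : Win) (M : ℤ) : Prop where
  lo : ∀ y, 0 ≤ y → y ≤ M → D.cr y = D.cr 0
  hi : ∀ y, D.h - M ≤ y → y < D.h → D.cr y = D.cr (D.h - 1)

/-- corners of the polyomino on the left boundary -/
def CorL (H : ℤ) (A : ℤ → ℤ) (X K : ℤ) : Prop :=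
  0 ≤ K ∧ K ≤ H ∧ ((X = A K ∧ K < H) ∨ (X = A (K - 1) ∧ 0 < K)) ∧ (0 < K → K < H → A (K - 1) ≠ A K)

open Classical in
/-- **the corners** -/
noncomputable def cns (D : Win) (n H : ℤ) (A : ℤ → ℤ) : Finset (ℤ × ℤ) :=
  insert (D.w, 0) (insert (D.w, D.h)
    (((((Icc 0 H).image fun K => (A K, K)) ∪ ((Icc 0 H).image fun K => (A (K - 1), K))).filter
      fun c => CorL H A c.1 c.2).image fun c => (n * c.1, n * c.2)))

variable {D : Win} {n H W : ℤ} {A : ℤ → ℤ} {CL : ℤ → Bool} {p : Bool} {s : Finset Sd} {X K M Z k y : ℤ}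

lemma mem_cns {c : ℤ × ℤ} : c ∈ cns D n H A ↔ c = (D.w, 0) ∨ c = (D.w, D.h) ∨
    ∃ X K, CorL H A X K ∧ c = (n * X, n * K) := by
  classical
  unfold cns
  rw [mem_insert, mem_insert]
  refine or_congr Iff.rfl (or_congr Iff.rfl ?_)
  rw [mem_image]
  constructor
  · rintro ⟨⟨X, K⟩, h, rfl⟩
    exact ⟨X, K, (mem_filter.1 h).2, rfl⟩
  · rintro ⟨X, K, h, rfl⟩
    refine ⟨(X, K), mem_filter.2 ⟨?_, h⟩, rfl⟩
    simp only [mem_union, mem_image, mem_Icc, Prod.mk.injEq]
    obtain ⟨h1, h2, ⟨h3, -⟩ | ⟨h3, -⟩, -⟩ := h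
    · exact Or.inl ⟨K, ⟨h1, h2⟩, h3.symm, rfl⟩
    · exact Or.inr ⟨K, ⟨h1, h2⟩, h3.symm, rfl⟩

/-- the number of corners -/
lemma card_cns (hH : 0 ≤ H) : ((cns D n H A).card : ℝ) ≤ 2 * H + 4 := by
  classical
  have h1 : (cns D n H A).card ≤ 2 * (H + 1).toNat + 2 := by
    unfold cns
    refine (card_insert_le _ _).trans ?_
    have h2 := card_insert_le (D.w, D.h)
      (((((Icc 0 H).image fun K => (A K, K)) ∪ ((Icc 0 H).image fun K => (A (K - 1), K))).filter
        fun c => CorL H A c.1 c.2).image fun c => (n * c.1, n * c.2))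
    have h3 : (((((Icc 0 H).image fun K => (A K, K)) ∪ ((Icc 0 H).image fun K => (A (K - 1), K))).filter
        fun c => CorL H A c.1 c.2).image fun c => (n * c.1, n * c.2)).card ≤ 2 * (H + 1).toNat := by
      refine card_image_le.trans ((card_filter_le _ _).trans ((card_union_le _ _).trans ?_))
      have e1 : ((Icc 0 H).image fun K => (A K, K)).card ≤ (H + 1).toNat := by
        refine card_image_le.trans (le_of_eq ?_)
        rw [Int.card_Icc, sub_zero]
      have e2 : ((Icc 0 H).image fun K => (A (K - 1), K)).card ≤ (H + 1).toNat := by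
        refine card_image_le.trans (le_of_eq ?_)
        rw [Int.card_Icc, sub_zero]
      omega
    omega
  have h4 : ((cns D n H A).card : ℤ) ≤ 2 * H + 4 := by omega
  exact_mod_cast h4

lemma mul_gap (hn : 0 < n) {u v : ℤ} (h : u < v) : n * u + n ≤ n * v := by nlinarith

lemma div_rng (hn : 0 < n) (h1 : n * k ≤ Z) (h2 : Z < n * k + n) : Z / n = k ∧ Z % n = Z - n * k := by
  have e : Z = (Z - n * k) + n * k := by ring
  constructor
  · rw [e, Int.add_mul_ediv_left _ _ hn.ne', Int.ediv_eq_zero_of_lt (by omega) (by omega), zero_add]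
  · rw [e, Int.add_mul_emod_self_left, Int.emod_eq_of_lt (by omega) (by omega)]
    ring

lemma mul_ne (hn : 0 < n) {u v : ℤ} (h : u ≠ v) : n ≤ |n * u - n * v| := by
  rw [le_abs]
  rcases lt_or_gt_of_ne h with h | h
  · have := mul_gap hn h; right; omega
  · have := mul_gap hn h; left; omega

theorem ofRC (C : Pool.Agent.H95.W.CoarseRC D n H W A CL) : CoarseD D n H A CL where
  hn := C.hn
  HH := C.HH
  hh := C.hh
  aw Y h0 h1 := by
    have h2 := C.AW Y h0 h1
    have h3 := C.hn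
    have h4 := mul_gap (n := n) (by omega) h2
    rw [C.ww]
    exact h4
  a := C.a
  cl := C.cl

namespace CoarseD

lemma pos (C : CoarseD D n H A CL) : 0 < n := by have := C.hn; omega

/-- rows above the line `n K` -/
lemma rowU (C : CoarseD D n H A CL) (hK : 0 ≤ K) (hKH : K < H) (h1 : n * K ≤ Z)
    (h2 : Z + 1 < n * K + n) : 0 ≤ Z ∧ Z < D.h ∧
    (D.a Z = n * A K ∨ (D.a Z = n * A K - 1 ∧ Z = n * K ∧ 0 < K ∧ A (K - 1) < A K)) ∧
    D.cl Z = CL K := by
  have hn : 0 < n := C.pos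
  obtain ⟨e1, e2⟩ := div_rng (k := K) hn h1 (by omega)
  have g1 : 0 ≤ n * K := mul_nonneg hn.le hK
  have g2 := mul_gap hn hKH
  have hh := C.hh
  have c1 : 0 ≤ Z := by omega
  have c2 : Z < D.h := by omega
  have ha := C.a Z c1 c2
  have hb := C.cl Z c1 c2
  rw [e1] at hb
  rw [e1, e2] at ha
  refine ⟨c1, c2, ?_, hb⟩
  rcases ha with ha | ⟨ha, ⟨h3, -⟩ | ⟨h3, h4⟩⟩
  · exact Or.inl ha
  · omega
  · exact Or.inr ⟨ha, by omega, h4⟩

/-- rows below the line `n K` -/
lemma rowD (C : CoarseD D n H A CL) (hK : 0 < K) (hKH : K ≤ H) (h1 : n * K < Z + n)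
    (h2 : Z < n * K) : 0 ≤ Z ∧ Z < D.h ∧
    (D.a Z = n * A (K - 1) ∨ (D.a Z = n * A (K - 1) - 1 ∧ Z = n * K - 1 ∧ K < H ∧ A K < A (K - 1))) ∧
    D.cl Z = CL (K - 1) := by
  have hn : 0 < n := C.pos
  have e0 : n * K = n * (K - 1) + n := by ring
  obtain ⟨e1, e2⟩ := div_rng (k := K - 1) (Z := Z) hn (by omega) (by omega)
  have g1 : 0 ≤ n * (K - 1) := mul_nonneg hn.le (by omega)
  have g2 : n * K ≤ n * H := mul_le_mul_of_nonneg_left hKH hn.le
  have hh := C.hh
  have c1 : 0 ≤ Z := by omega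
  have c2 : Z < D.h := by omega
  have ha := C.a Z c1 c2
  have hb := C.cl Z c1 c2
  rw [e1] at hb
  rw [e1, e2, sub_add_cancel] at ha
  refine ⟨c1, c2, ?_, hb⟩
  rcases ha with ha | ⟨ha, ⟨h3, h4⟩ | ⟨h3, h4, -⟩⟩
  · exact Or.inl ha
  · exact Or.inr ⟨ha, by omega, h4⟩
  · omega

variable (C : CoarseD D n H A CL) (hM : 60 ≤ M) (hMn : 2 * M ≤ n)

include C hM hMn

/-- `(A K, K)`, the bottom or a drop -/
lemma lne (hK : 0 ≤ K) (hKH : K < H) (h : 0 < K → A K < A (K - 1)) :
    LNE D (n * A K) (n * K) M (CL K) (if K = 0 then D.cb else CL (K - 1)) := by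
  have n0 : 0 < n := C.pos
  have gK : 0 ≤ n * K := mul_nonneg n0.le hK
  have gAB := C.aw K hK hKH
  refine ⟨by omega, gK, by omega, ?_, ?_, ?_, ?_, ?_⟩
  · intro Z h1 h2
    have r := C.rowU hK hKH h1 (by omega)
    refine ⟨r.2.1, ?_⟩
    rcases r.2.2.1 with h3 | ⟨-, -, h3, h4⟩
    · exact h3
    · have := h h3; omega
  · intro Z h1 h2 h3
    have hK' : 0 < K := by
      by_contra hc
      have : K = 0 := by omega
      rw [this, mul_zero] at h3
      omega
    have r := C.rowD hK' hKH.le (Z := Z) (by omega) h3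
    have g := mul_gap n0 (h hK')
    exact ⟨r.2.1, by omega⟩
  · intro y h1 h2
    exact (C.rowU hK hKH h1 (by omega)).2.2.2
  · intro y h1 h2 h3
    have hK' : 0 < K := by
      by_contra hc
      have : K = 0 := by omega
      rw [this, mul_zero] at h2
      omega
    rw [if_neg (by omega)]
    exact (C.rowD hK' hKH.le (by omega) h2).2.2.2
  · rcases eq_or_lt_of_le hK with hK' | hK'
    · left
      rw [← hK', mul_zero]
      exact ⟨rfl, by simp⟩
    · right
      have := mul_gap n0 hK'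
      rw [mul_zero] at this
      omega

/-- `(A (K - 1), K)`, the top or a rise -/
lemma lse (hK : 0 < K) (hKH : K ≤ H) (h : K < H → A (K - 1) < A K) :
    LSE D (n * A (K - 1)) (n * K) M (CL (K - 1)) (if K = H then D.ct else CL K) := by
  have n0 : 0 < n := C.pos
  have gK := mul_gap n0 hK
  rw [mul_zero] at gK
  have gH : n * K ≤ n * H := mul_le_mul_of_nonneg_left hKH n0.le
  have hh := C.hh
  have gAB := C.aw (K - 1) (by omega) (by omega)
  refine ⟨by omega, by omega, by omega, ?_, ?_, ?_, ?_, ?_⟩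
  · intro Z h1 h2
    have r := C.rowD hK hKH (Z := Z) (by omega) h2
    refine ⟨r.1, ?_⟩
    rcases r.2.2.1 with h3 | ⟨-, -, h3, h4⟩
    · exact h3
    · have := h h3; omega
  · intro Z h1 h2 h3
    have hK' : K < H := by
      by_contra hc
      have : K = H := by omega
      rw [this] at h3
      omega
    have r := C.rowU hK.le hK' (Z := Z) h3 (by omega)
    have g := mul_gap n0 (h hK')
    exact ⟨r.1, by omega⟩
  · intro y h1 h2
    exact (C.rowD hK hKH (by omega) h2).2.2.2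
  · intro y h1 h2 h3
    have hK' : K < H := by
      by_contra hc
      have : K = H := by omega
      rw [this] at h1
      omega
    rw [if_neg (by omega)]
    exact (C.rowU hK.le hK' h1 (by omega)).2.2.2
  · rcases eq_or_lt_of_le hKH with hK' | hK'
    · left
      rw [if_pos hK']
      exact ⟨by rw [hK', hh], rfl⟩
    · right
      have := mul_gap n0 hK'
      omega

/-- `(A (K - 1), K)`, a drop -/
lemma lsw (hK : 0 < K) (hKH : K < H) (h : A K < A (K - 1)) :
    LSW D (n * A (K - 1)) (n * K) M (CL (K - 1)) := by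
  have n0 : 0 < n := C.pos
  have gK := mul_gap n0 hK
  rw [mul_zero] at gK
  have g := mul_gap n0 h
  have gAB := C.aw (K - 1) (by omega) (by omega)
  refine ⟨by omega, by omega, by omega, ?_, ?_, ?_⟩
  · intro Z h1 h2
    have r := C.rowD hK hKH.le (Z := Z) (by omega) h2
    exact ⟨r.1, by omega⟩
  · intro Z h1 h2
    have r := C.rowU hK.le hKH (Z := Z) h1 (by omega)
    exact ⟨r.2.1, by omega⟩
  · intro y h1 h2
    exact (C.rowD hK hKH.le (by omega) h2).2.2.2

/-- `(A K, K)`, a rise -/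
lemma lnw (hK : 0 < K) (hKH : K < H) (h : A (K - 1) < A K) :
    LNW D (n * A K) (n * K) M (CL K) := by
  have n0 : 0 < n := C.pos
  have gK := mul_gap n0 hK
  rw [mul_zero] at gK
  have gH := mul_gap n0 hKH
  have hh := C.hh
  have g := mul_gap n0 h
  have gAB := C.aw K (by omega) (by omega)
  refine ⟨by omega, by omega, by omega, ?_, ?_, ?_⟩
  · intro Z h1 h2
    have r := C.rowU hK.le hKH (Z := Z) h1 (by omega)
    exact ⟨r.1, by omega⟩
  · intro Z h1 h2
    have r := C.rowD hK hKH.le (Z := Z) (by omega) h2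
    exact ⟨r.1, by omega⟩
  · intro y h1 h2
    exact (C.rowU hK.le hKH h1 (by omega)).2.2.2

/-- the lower end of the right wall -/
lemma rnw (hc : CrE D M) : RNW D M (D.cr 0) := by
  have n0 : 0 < n := C.pos
  have HH := C.HH
  refine ⟨by omega, ?_, hc.lo⟩
  intro Z h1 h2
  have r := C.rowU le_rfl HH (Z := Z) (by omega) (by omega)
  have g := C.aw 0 le_rfl HH
  exact ⟨r.2.1, by omega⟩

/-- the upper end of the right wall -/
lemma rsw (hc : CrE D M) : RSW D M (D.cr (D.h - 1)) := by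
  have n0 : 0 < n := C.pos
  have HH := C.HH
  have hh := C.hh
  refine ⟨by omega, ?_, hc.hi⟩
  intro Z h1 h2
  have r := C.rowD HH le_rfl (Z := Z) (by omega) (by omega)
  have g := C.aw (H - 1) (by omega) (by omega)
  exact ⟨r.1, by omega⟩

/-- **Every corner** -/
theorem loc_of (p : Bool) (s : Finset Sd) (hc : CrE D M) {c : ℤ × ℤ} (h : c ∈ cns D n H A) :
    ∃ (σ τ : Bool) (α β : ℤ), (∃ ys cv ch, LocV D p s σ τ c.1 c.2 M α β ys cv ch) ∨
        ∃ cc, LocX D p s σ τ c.1 c.2 M α β cc := by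
  rw [mem_cns] at h
  rcases h with rfl | rfl | ⟨X, K, ⟨h0, h1, h2, h3⟩, rfl⟩
  · exact ⟨_, _, _, _, Or.inl ⟨_, _, _, (rnw C hM hMn hc).loc hM⟩⟩
  · exact ⟨_, _, _, _, Or.inl ⟨_, _, _, (rsw C hM hMn hc).loc hM⟩⟩
  rcases h2 with ⟨rfl, h4⟩ | ⟨rfl, h4⟩
  · by_cases hK : K = 0
    · exact ⟨_, _, _, _, Or.inl ⟨_, _, _, (lne C hM hMn h0 h4 (fun h => absurd h (by omega))).loc hM⟩⟩
    · rcases lt_or_gt_of_ne (h3 (by omega) h4) with h5 | h5
      · exact ⟨_, _, _, _, Or.inr ⟨_, (lnw C hM hMn (by omega) h4 h5).loc hM⟩⟩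
      · exact ⟨_, _, _, _, Or.inl ⟨_, _, _, (lne C hM hMn h0 h4 (fun _ => h5)).loc hM⟩⟩
  · by_cases hK : K = H
    · exact ⟨_, _, _, _, Or.inl ⟨_, _, _, (lse C hM hMn h4 h1 (fun h => absurd h (by omega))).loc hM⟩⟩
    · rcases lt_or_gt_of_ne (h3 h4 (by omega)) with h5 | h5
      · exact ⟨_, _, _, _, Or.inl ⟨_, _, _, (lse C hM hMn h4 h1 (fun _ => h5)).loc hM⟩⟩
      · exact ⟨_, _, _, _, Or.inr ⟨_, (lsw C hM hMn h4 (by omega) h5).loc hM⟩⟩

/-- **The corners of a coarse window** -/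
theorem crn (p : Bool) (s : Finset Sd) (hc : CrE D M) : Crn D p s M (cns D n H A) := by
  have n0 : 0 < n := C.pos
  refine ⟨?_, fun c h => loc_of C hM hMn p s hc h⟩
  have hh := C.hh
  have HH := C.HH
  have gh := mul_gap n0 HH
  rw [mul_zero] at gh
  have hr : ∀ X K, CorL H A X K → n * X + n ≤ D.w := by
    rintro X K ⟨h0, h1, ⟨rfl, h4⟩ | ⟨rfl, h4⟩, -⟩
    · exact C.aw _ h0 h4
    · exact C.aw _ (by omega) (by omega)
  intro c h c' h' hne
  rw [mem_cns] at h h'
  rcases h with rfl | rfl | ⟨X, K, k1, rfl⟩ <;> rcases h' with rfl | rfl | ⟨X', K', k2, rfl⟩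
  · exact absurd rfl hne
  · right; rw [le_abs]; right; simp only; omega
  · left; have := hr X' K' k2; rw [le_abs]; left; simp only; omega
  · right; rw [le_abs]; left; simp only; omega
  · exact absurd rfl hne
  · left; have := hr X' K' k2; rw [le_abs]; left; simp only; omega
  · left; have := hr X K k1; rw [le_abs]; right; simp only; omega
  · left; have := hr X K k1; rw [le_abs]; right; simp only; omega
  · simp only
    by_cases h3 : X = X'
    · right
      have : K ≠ K' := fun h => hne (by rw [h3, h])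
      have := mul_ne n0 this
      omega
    · left
      have := mul_ne n0 h3
      omega

end CoarseD

open Pool.Agent.Q1.M6c in
open Pool.Agent.Q1 in
/-- **Displacement lemma for coarse windows**: the means of a bounded functional of the labels of the zone `Z`
(toggles near the corners) in two environments which are natural near the corners and agree off the small
rectangles. -/
theorem disp_coarse : ∃ C α : ℝ, 0 < C ∧ 0 < α ∧ ∀ (D : Win) (n H : ℤ) (A : ℤ → ℤ) (CL : ℤ → Bool),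
    CoarseD D n H A CL → ∀ M : ℤ, 400 ≤ M → 2 * M ≤ n → CrE D M → ∀ m : ℤ, 4 ≤ m → ∀ (p : Bool) (s : Finset Sd)
    (Z E1 W1 E2 W2 : Finset (ℤ × ℤ)), (∀ e ∈ Z, (e.1 + e.2) % 2 = 1) →
    E1 ⊆ Z → W1 ⊆ Z → E2 ⊆ Z → W2 ⊆ Z → Disjoint E1 W1 → Disjoint E2 W2 →
    (∀ c ∈ cns D n H A, ZnC D m Z c.1 c.2 M) → (∀ c ∈ cns D n H A, NatC D m p s c.1 c.2 M E1 W1) →
    (∀ l, (∀ c ∈ cns D n H A, l ∉ SL D m c.1 c.2) → (l ∈ E1 ↔ l ∈ E2) ∧ (l ∈ W1 ↔ l ∈ W2)) →
    ∀ F : Finset (ℤ × ℤ) → ℂ, (∀ c ∈ cns D n H A, BoxF Z (NB Z c.1 c.2 M) F) → ∀ K : ℝ, 0 ≤ K →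
    (∀ w ⊆ Z, ‖F w‖ ≤ K) →
    ‖Ec (fun _ => (1 / 2 : ℂ)) E1 (fun ω => F (ω ∪ W1)) -
      Ec (fun _ => (1 / 2 : ℂ)) E2 (fun ω => F (ω ∪ W2))‖ ≤
      (2 * H + 4) * (C * K * ((1 : ℝ) / M) ^ (1 + α)) := by
  obtain ⟨C, α, hC, hα, key⟩ := disp_cs
  refine ⟨C, α, hC, hα, ?_⟩
  intro D n H A CL hc M hM hMn hcr m hm p s Z E1 W1 E2 W2 ho hE1 hW1 hE2 hW2 hd1 hd2 hZ N hag F hB K hK hF
  refine (key D m hm p s M hM (cns D n H A) (hc.crn (by omega) hMn p s hcr) Z E1 W1 E2 W2 ho hE1 hW1 hE2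
    hW2 hd1 hd2 hZ N hag F hB K hK hF).trans ?_
  have hM0 : (0 : ℝ) ≤ 1 / M := by
    have : (400 : ℝ) ≤ M := by exact_mod_cast hM
    positivity
  exact mul_le_mul_of_nonneg_right (card_cns hc.HH.le) (by positivity)

end Pool.Agent.H14.W
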