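import Mathlib
import Pool.Agent.H14.W.NCoarse

set_option autoImplicit false
open Finset

/-! # Layers and Minkowski sums (route W)

`CoarseD.rise_near`, `CoarseD.drop_near` : `a` changes only next to the corners. `EPn_mink` : away from the
corners the window with one kind of walls pushed out is the union of the window and its translate.
-/

namespace Pool.Agent.H14.W

open Pool.Agent.H54.W (Win)
open Pool.Agent.H42.Sp (Sd)
open Pool.Agent.H72.W.N (PT LyP)

variable {D : Win} {n H W : ℤ} {A : ℤ → ℤ} {CL : ℤ → Bool} {s : Finset Sd} {X Y K M Z k y : ℤ}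

lemma div_succ (hn : 0 < n) (y : ℤ) :
    (y % n < n - 1 ∧ (y + 1) / n = y / n ∧ (y + 1) % n = y % n + 1) ∨
      (y % n = n - 1 ∧ (y + 1) / n = y / n + 1 ∧ (y + 1) % n = 0) := by
  have h1 := Int.emod_add_mul_ediv y n
  have h2 := Int.emod_nonneg y hn.ne'
  have h3 := Int.emod_lt_of_pos y hn
  by_cases h : y % n = n - 1
  · right
    have e : y + 1 = 0 + n * (y / n + 1) := by rw [mul_add, mul_one]; omega
    refine ⟨h, ?_, ?_⟩
    · rw [e, Int.add_mul_ediv_left _ _ hn.ne', Int.zero_ediv, zero_add]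
    · rw [e, Int.add_mul_emod_self_left, Int.zero_emod]
  · left
    have e : y + 1 = (y % n + 1) + n * (y / n) := by omega
    refine ⟨by omega, ?_, ?_⟩
    · rw [e, Int.add_mul_ediv_left _ _ hn.ne', Int.ediv_eq_zero_of_lt (by omega) (by omega), zero_add]
    · rw [e, Int.add_mul_emod_self_left, Int.emod_eq_of_lt (by omega) (by omega)]

namespace CoarseD

lemma row (C : CoarseD D n H A CL) (h0 : 0 ≤ y) (h1 : y < D.h) : 0 ≤ y / n ∧ y / n < H := by
  have hn := C.pos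
  have hh := C.hh
  refine ⟨Int.ediv_nonneg h0 hn.le, ?_⟩
  rw [Int.ediv_lt_iff_lt_mul hn, mul_comm]
  omega

/-- **rises are next to corners** -/
lemma rise_near (C : CoarseD D n H A CL) (h0 : 0 ≤ y) (h1 : y + 1 < D.h) (h : D.a y < D.a (y + 1)) :
    ∃ c ∈ cns D n H A, (c.1 - 1 ≤ D.a (y + 1) ∧ D.a (y + 1) ≤ c.1) ∧ (c.2 = y ∨ c.2 = y + 1) := by
  have hn := C.pos
  have h8 := C.hn
  obtain ⟨r1, r2⟩ := C.row h0 (by omega)
  obtain ⟨r3, r4⟩ := C.row (y := y + 1) (by omega) h1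
  have e1 := Int.emod_add_mul_ediv y n
  have a1 := C.a y h0 (by omega)
  have a2 := C.a (y + 1) (by omega) h1
  rcases div_succ hn y with ⟨k1, k2, k3⟩ | ⟨k1, k2, k3⟩
  · rw [k2, k3] at a2
    have hm := Int.emod_nonneg y hn.ne'
    -- the row `y` has a notch
    have h5 : y % n = 0 ∧ 0 < y / n ∧ A (y / n - 1) < A (y / n) := by
      rcases a1 with a1 | ⟨a1, a1' | a1'⟩
      · rcases a2 with a2 | ⟨a2, -⟩ <;> omega
      · omega
      · exact a1'
    refine ⟨(n * A (y / n), n * (y / n)), mem_cns.2 (Or.inr (Or.inr ⟨_, _, ⟨r1, r2.le, Or.inl ⟨rfl, r2⟩,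
      fun _ _ => by omega⟩, rfl⟩)), ?_, ?_⟩
    · simp only
      rcases a2 with a2 | ⟨a2, -⟩ <;> omega
    · left; simp only; omega
  · rw [k2, k3, add_sub_cancel_right] at a2
    rw [k2] at r4
    have h5 : A (y / n) < A (y / n + 1) := by
      by_contra hc
      have h6 : A (y / n + 1) = A (y / n) ∨ A (y / n + 1) < A (y / n) := by omega
      rcases h6 with h6 | h6
      · rw [h6] at a2
        rcases a1 with a1 | ⟨a1, a1' | a1'⟩ <;> rcases a2 with a2 | ⟨a2, a2' | a2'⟩ <;> omega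
      · have := mul_gap hn h6
        rcases a1 with a1 | ⟨a1, -⟩ <;> rcases a2 with a2 | ⟨a2, -⟩ <;> omega
    refine ⟨(n * A (y / n + 1), n * (y / n + 1)), mem_cns.2 (Or.inr (Or.inr ⟨_, _, ⟨by omega, r4.le,
      Or.inl ⟨rfl, r4⟩, fun _ _ => by rw [add_sub_cancel_right]; omega⟩, rfl⟩)), ?_, ?_⟩
    · simp only
      rcases a2 with a2 | ⟨a2, -⟩ <;> omega
    · right
      have : n * (y / n + 1) = n * (y / n) + n := by ring
      simp only
      omega

/-- **drops are next to corners** -/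
lemma drop_near (C : CoarseD D n H A CL) (h0 : 0 ≤ y) (h1 : y + 1 < D.h) (h : D.a (y + 1) < D.a y) :
    ∃ c ∈ cns D n H A, (c.1 - 1 ≤ D.a y ∧ D.a y ≤ c.1) ∧ (c.2 = y + 1 ∨ c.2 = y + 2) := by
  have hn := C.pos
  have h8 := C.hn
  obtain ⟨r1, r2⟩ := C.row h0 (by omega)
  obtain ⟨r3, r4⟩ := C.row (y := y + 1) (by omega) h1
  have e1 := Int.emod_add_mul_ediv y n
  have a1 := C.a y h0 (by omega)
  have a2 := C.a (y + 1) (by omega) h1
  have e2 : n * (y / n + 1) = n * (y / n) + n := by ring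
  rcases div_succ hn y with ⟨k1, k2, k3⟩ | ⟨k1, k2, k3⟩
  · rw [k2, k3] at a2
    have hm := Int.emod_nonneg y hn.ne'
    -- the row `y + 1` has a notch
    have h5 : y % n = n - 2 ∧ y / n + 1 < H ∧ A (y / n + 1) < A (y / n) := by
      rcases a2 with a2 | ⟨a2, a2' | a2'⟩
      · rcases a1 with a1 | ⟨a1, -⟩ <;> omega
      · exact ⟨by omega, a2'.2⟩
      · omega
    refine ⟨(n * A (y / n), n * (y / n + 1)), mem_cns.2 (Or.inr (Or.inr ⟨_, _, ⟨by omega, by omega,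
      Or.inr ⟨by rw [add_sub_cancel_right], by omega⟩, fun _ _ => by rw [add_sub_cancel_right]; omega⟩,
      rfl⟩)), ?_, ?_⟩
    · simp only
      rcases a1 with a1 | ⟨a1, -⟩ <;> omega
    · right; simp only; omega
  · rw [k2, k3, add_sub_cancel_right] at a2
    rw [k2] at r4
    have h5 : A (y / n + 1) < A (y / n) := by
      by_contra hc
      have h6 : A (y / n + 1) = A (y / n) ∨ A (y / n) < A (y / n + 1) := by omega
      rcases h6 with h6 | h6
      · rw [h6] at a2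
        rcases a1 with a1 | ⟨a1, a1' | a1'⟩ <;> rcases a2 with a2 | ⟨a2, a2' | a2'⟩ <;> omega
      · have := mul_gap hn h6
        rcases a1 with a1 | ⟨a1, -⟩ <;> rcases a2 with a2 | ⟨a2, -⟩ <;> omega
    refine ⟨(n * A (y / n), n * (y / n + 1)), mem_cns.2 (Or.inr (Or.inr ⟨_, _, ⟨by omega, by omega,
      Or.inr ⟨by rw [add_sub_cancel_right], by omega⟩, fun _ _ => by rw [add_sub_cancel_right]; omega⟩,
      rfl⟩)), ?_, ?_⟩
    · simp only
      rcases a1 with a1 | ⟨a1, -⟩ <;> omega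
    · left; simp only; omega

end CoarseD

/-- the push of a kind of walls -/
def dx : Sd → ℤ
  | .L => -1
  | .R => 1
  | .F => 0
  | .C => 0

/-- the push of a kind of walls -/
def dy : Sd → ℤ
  | .L => 0
  | .R => 0
  | .F => -1
  | .C => 1

lemma EPn_one {k : Sd} : EPn D {k} X Y ↔ PT D X Y ∨ LyP D k X Y := by
  unfold EPn
  simp only [mem_singleton, exists_eq_left]

/-- **Away from the corners the pushed window is the union of the window and its translate.** -/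
theorem EPn_mink (C : CoarseD D n H A CL) (k : Sd)
    (hf : ∀ c ∈ cns D n H A, ¬ (c.1 - 3 ≤ X ∧ X ≤ c.1 + 3 ∧ c.2 - 3 ≤ Y ∧ Y ≤ c.2 + 3)) :
    EPn D {k} X Y ↔ PT D X Y ∨ PT D (X - dx k) (Y - dy k) := by
  rw [EPn_one]
  by_cases hP : PT D X Y
  · exact iff_of_true (Or.inl hP) (Or.inl hP)
  have hP' : ¬ (0 ≤ Y ∧ Y < D.h ∧ D.a Y ≤ X ∧ X < D.w) := hP
  simp only [hP, false_or]
  cases k
  · -- left walls
    change (0 ≤ Y ∧ Y < D.h ∧ X + 1 = D.a Y ∧ (1 ≤ Y → D.a Y ≤ D.a (Y - 1)) ∧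
      (Y + 1 < D.h → D.a Y ≤ D.a (Y + 1))) ↔ 0 ≤ Y - 0 ∧ Y - 0 < D.h ∧ D.a (Y - 0) ≤ X - -1 ∧ X - -1 < D.w
    rw [sub_zero]
    constructor
    · rintro ⟨h1, h2, h3, -⟩
      have := D.aw Y h1 h2
      exact ⟨h1, h2, by omega, by omega⟩
    · rintro ⟨h1, h2, h3, h4⟩
      refine ⟨h1, h2, by omega, fun h5 => ?_, fun h5 => ?_⟩
      · by_contra hc
        obtain ⟨c, hc1, hc2, hc3⟩ := C.rise_near (y := Y - 1) (by omega) (by omega)
          (by rw [sub_add_cancel]; omega)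
        rw [sub_add_cancel] at hc2
        exact hf c hc1 (by omega)
      · by_contra hc
        obtain ⟨c, hc1, hc2, hc3⟩ := C.drop_near (y := Y) (by omega) (by omega) (by omega)
        exact hf c hc1 (by omega)
  · -- right wall
    change (0 ≤ Y ∧ Y < D.h ∧ X = D.w) ↔ 0 ≤ Y - 0 ∧ Y - 0 < D.h ∧ D.a (Y - 0) ≤ X - 1 ∧ X - 1 < D.w
    rw [sub_zero]
    constructor
    · rintro ⟨h1, h2, h3⟩
      have := D.aw Y h1 h2
      exact ⟨h1, h2, by omega, by omega⟩
    · rintro ⟨h1, h2, h3, h4⟩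
      exact ⟨h1, h2, by omega⟩
  · -- floors
    change (-1 ≤ Y ∧ Y + 1 < D.h ∧ D.a (Y + 1) ≤ X ∧ X < D.w ∧ (0 ≤ Y → X + 1 < D.a Y)) ↔
      0 ≤ Y - -1 ∧ Y - -1 < D.h ∧ D.a (Y - -1) ≤ X - 0 ∧ X - 0 < D.w
    rw [sub_neg_eq_add, sub_zero]
    constructor
    · rintro ⟨h1, h2, h3, h4, -⟩
      exact ⟨by omega, h2, h3, h4⟩
    · rintro ⟨h1, h2, h3, h4⟩
      refine ⟨by omega, h2, h3, h4, fun h5 => ?_⟩
      by_contra hc
      obtain ⟨c, hc1, hc2, hc3⟩ := C.drop_near (y := Y) (by omega) (by omega) (by omega)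
      exact hf c hc1 (by omega)
  · -- ceilings
    change (1 ≤ Y ∧ Y ≤ D.h ∧ D.a (Y - 1) ≤ X ∧ X < D.w ∧ (Y < D.h → X + 1 < D.a Y)) ↔
      0 ≤ Y - 1 ∧ Y - 1 < D.h ∧ D.a (Y - 1) ≤ X - 0 ∧ X - 0 < D.w
    rw [sub_zero]
    constructor
    · rintro ⟨h1, h2, h3, h4, -⟩
      exact ⟨by omega, by omega, h3, h4⟩
    · rintro ⟨h1, h2, h3, h4⟩
      refine ⟨by omega, by omega, h3, h4, fun h5 => ?_⟩
      by_contra hc
      obtain ⟨c, hc1, hc2, hc3⟩ := C.rise_near (y := Y - 1) (by omega) (by omega)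
        (by rw [sub_add_cancel]; omega)
      rw [sub_add_cancel] at hc2
      exact hf c hc1 (by omega)

/-- floors and ceilings -/
theorem EPn_FC (C : CoarseD D n H A CL)
    (hf : ∀ c ∈ cns D n H A, ¬ (c.1 - 4 ≤ X ∧ X ≤ c.1 + 4 ∧ c.2 - 4 ≤ Y ∧ Y ≤ c.2 + 4)) :
    EPn D {.F} X Y ↔ EPn D {.C} X (Y + 1) := by
  rw [EPn_mink C .F (fun c hc h => hf c hc (by omega)), EPn_mink C .C (fun c hc h => hf c hc (by omega))]
  have e1 : X - dx .F = X := by unfold dx; ring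
  have e2 : X - dx .C = X := by unfold dx; ring
  have e3 : Y - dy .F = Y + 1 := by unfold dy; ring
  have e4 : Y + 1 - dy .C = Y := by unfold dy; ring
  rw [e1, e2, e3, e4]
  exact Or.comm

/-- left and right walls -/
theorem EPn_LR (C : CoarseD D n H A CL)
    (hf : ∀ c ∈ cns D n H A, ¬ (c.1 - 4 ≤ X ∧ X ≤ c.1 + 4 ∧ c.2 - 4 ≤ Y ∧ Y ≤ c.2 + 4)) :
    EPn D {.L} X Y ↔ EPn D {.R} (X + 1) Y := by
  rw [EPn_mink C .L (fun c hc h => hf c hc (by omega)), EPn_mink C .R (fun c hc h => hf c hc (by omega))]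
  have e1 : X - dx .L = X + 1 := by unfold dx; ring
  have e2 : X + 1 - dx .R = X := by unfold dx; ring
  have e3 : Y - dy .L = Y := by unfold dy; ring
  have e4 : Y - dy .R = Y := by unfold dy; ring
  rw [e1, e2, e3, e4]
  exact Or.comm

end Pool.Agent.H14.W
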