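import Mathlib
import Pool.Agent.H14.W.NMink

set_option autoImplicit false
open Finset

/-! # Natural values (route W)

`EPs D m p s`, `WPs D m p s` : random and open labels of the natural window in the box of margin `m`, world `p`,
walls of the kinds `s` pushed. `Nv D m p s Z F` : natural value of the functional `F` of the labels of the zone
`Z`. `nat_disp` : it differs by at most `C K (1 / M) ^ (1 + α)` from the mean of `F` in any environment which agrees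
with the natural one off the small squares of the corners. `nat_same` : left walls pushed in the world `false` against
the right wall pushed in the world `true`. -/

namespace Pool.Agent.H14.W

open Pool.Agent.Q1 Pool.Agent.Q1.M6c
open Pool.Agent.H54.W (Win)
open Pool.Agent.H42.Sp (Sd)
open Pool.Agent.H33.Q1 (lt tt tv tf lt_inj tt_lt lt_odd lt_tt)
open Pool.Agent.H72.W.N (PT LyP natc natc_def sh sh_false sh_true sh_cases sh_nonneg sh_le InP InB)

variable {D : Win} {n H : ℤ} {A : ℤ → ℤ} {CL : ℤ → Bool} {p : Bool} {s : Finset Sd} {m M x y X Y : ℤ}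
  {Z : Finset (ℤ × ℤ)} {F : Finset (ℤ × ℤ) → ℂ}

open Classical in
/-- labels of the box of margin `m` with a property -/
noncomputable def LB (D : Win) (m : ℤ) (P : ℤ → ℤ → Prop) : Finset (ℤ × ℤ) :=
  ((Ico (D.lo - m) (D.w + m) ×ˢ Ico (-m) (D.h + m)).filter fun t => P t.1 t.2).image lt

lemma mem_LB {P : ℤ → ℤ → Prop} : lt (x, y) ∈ LB D m P ↔ BX D m x y ∧ P x y := by
  classical
  unfold LB BX
  simp only [mem_image, mem_filter, mem_product, mem_Ico, Prod.exists]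
  constructor
  · rintro ⟨a, b, h, e⟩
    have := lt_inj e
    simp only [Prod.mk.injEq] at this
    rw [← this.1, ← this.2]
    exact ⟨⟨h.1.1.1, h.1.1.2, h.1.2.1, h.1.2.2⟩, h.2⟩
  · rintro ⟨⟨h1, h2, h3, h4⟩, h5⟩
    exact ⟨x, y, ⟨⟨⟨h1, h2⟩, h3, h4⟩, h5⟩, rfl⟩

/-- natural random labels -/
noncomputable def EPs (D : Win) (m : ℤ) (p : Bool) (s : Finset Sd) : Finset (ℤ × ℤ) :=
  LB D m fun x y => EPn D s (x + sh p) y

/-- natural open labels -/
noncomputable def WPs (D : Win) (m : ℤ) (p : Bool) (s : Finset Sd) : Finset (ℤ × ℤ) :=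
  LB D m fun x y => ¬ EPn D s (x + sh p) y ∧ natc D p x y = true

/-- **Natural values** -/
noncomputable def Nv (D : Win) (m : ℤ) (p : Bool) (s : Finset Sd) (Z : Finset (ℤ × ℤ))
    (F : Finset (ℤ × ℤ) → ℂ) : ℂ :=
  Ec (fun _ => (1 / 2 : ℂ)) (EPs D m p s ∩ Z) fun w => F (w ∪ (WPs D m p s ∩ Z))

/-- functionals which see only the zone -/
lemma Nv_eq (hF : ∀ w w' : Finset (ℤ × ℤ), w ∩ Z = w' ∩ Z → F w = F w') :
    Nv D m p s Z F = Ec (fun _ => (1 / 2 : ℂ)) (EPs D m p s) fun w => F (w ∪ WPs D m p s) := by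
  unfold Nv
  rw [← Ec_local (fun _ => (1 / 2 : ℂ)) (inter_subset_left : EPs D m p s ∩ Z ⊆ EPs D m p s)]
  refine Ec_congr fun ω hω => hF _ _ ?_
  ext l
  simp only [mem_inter, mem_union]
  have := @hω l
  tauto

/-- random tiles are in the inner box -/
lemma EPn_in (h : EPn D s X Y) : D.lo - 1 ≤ X ∧ X ≤ D.w ∧ -1 ≤ Y ∧ Y ≤ D.h := by
  rcases h with ⟨h1, h2, h3, h4⟩ | ⟨k, -, h⟩
  · have := D.hlo Y h1 h2
    omega
  · cases k
    · obtain ⟨h1, h2, h3, -⟩ := h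
      have := D.hlo Y h1 h2
      have := D.aw Y h1 h2
      omega
    · obtain ⟨h1, h2, h3⟩ := h
      have := D.hlo Y h1 h2
      have := D.aw Y h1 h2
      omega
    · obtain ⟨h1, h2, h3, h4, -⟩ := h
      have := D.hlo (Y + 1) (by omega) h2
      omega
    · obtain ⟨h1, h2, h3, h4, -⟩ := h
      have := D.hlo (Y - 1) (by omega) (by omega)
      omega

lemma EPn_BX (hm : 4 ≤ m) (h : EPn D s (x + sh p) y) : BX D (m - 1) x y := by
  have h1 := EPn_in h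
  have h2 := sh_nonneg p
  have h3 := sh_le p
  unfold BX
  omega

lemma mem_EPs (hm : 4 ≤ m) : lt (x, y) ∈ EPs D m p s ↔ EPn D s (x + sh p) y := by
  unfold EPs
  rw [mem_LB]
  refine ⟨fun h => h.2, fun h => ⟨?_, h⟩⟩
  have := EPn_BX hm h
  unfold BX at *
  omega

lemma mem_WPs : lt (x, y) ∈ WPs D m p s ↔ BX D m x y ∧ ¬ EPn D s (x + sh p) y ∧ natc D p x y = true := by
  unfold WPs
  rw [mem_LB]

lemma disj_Ps : Disjoint (EPs D m p s ∩ Z) (WPs D m p s ∩ Z) := by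
  rw [disjoint_left]
  intro l h1 h2
  have h3 := (mem_inter.1 h1).1
  have h4 := (mem_inter.1 h2).1
  unfold EPs LB at h3
  simp only [mem_image, Prod.exists] at h3
  obtain ⟨x, y, h5, rfl⟩ := h3
  unfold EPs at h1
  have h6 := (mem_LB.1 (mem_inter.1 h1).1).2
  exact (mem_WPs.1 h4).2.1 h6

/-- the natural environment is natural at the corners -/
lemma natC_nat (hm : 4 ≤ m) {cx c : ℤ} (hZ : ZnC D m Z cx c M) :
    NatC D m p s cx c M (EPs D m p s ∩ Z) (WPs D m p s ∩ Z) := by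
  refine ⟨fun x y h1 _ => ?_, fun x y h1 _ h3 h4 => ?_⟩
  · rw [mem_inter, mem_EPs hm]
    refine ⟨fun h => h.1, fun h => ⟨h, hZ x y h1 ?_⟩⟩
    have := EPn_BX hm h
    unfold BX at *
    omega
  · rw [mem_inter, mem_WPs]
    exact ⟨fun h => h.1.2.2, fun h => ⟨⟨h3, h4, h⟩, hZ x y h1 h3⟩⟩

/-- **The mean in an environment which agrees with the natural one off the small squares of the corners** -/
theorem nat_disp : ∃ C α : ℝ, 0 < C ∧ 0 < α ∧ ∀ (D : Win) (n H : ℤ) (A : ℤ → ℤ) (CL : ℤ → Bool),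
    CoarseD D n H A CL → ∀ M : ℤ, 400 ≤ M → 2 * M ≤ n → CrE D M → ∀ m : ℤ, 4 ≤ m → ∀ (p : Bool) (s : Finset Sd)
    (Z E W : Finset (ℤ × ℤ)), (∀ e ∈ Z, (e.1 + e.2) % 2 = 1) → E ⊆ Z → W ⊆ Z → Disjoint E W →
    (∀ c ∈ cns D n H A, ZnC D m Z c.1 c.2 M) →
    (∀ x y, lt (x, y) ∈ Z → (∀ c ∈ cns D n H A, ¬ SQ D m c.1 c.2 x y) →
      (lt (x, y) ∈ E ↔ EPn D s (x + sh p) y) ∧
      (lt (x, y) ∈ W ↔ BX D m x y ∧ ¬ EPn D s (x + sh p) y ∧ natc D p x y = true)) →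
    ∀ F : Finset (ℤ × ℤ) → ℂ, (∀ c ∈ cns D n H A, BoxF Z (NB Z c.1 c.2 M) F) → ∀ K : ℝ, 0 ≤ K →
    (∀ w ⊆ Z, ‖F w‖ ≤ K) →
    ‖Nv D m p s Z F - Ec (fun _ => (1 / 2 : ℂ)) E (fun ω => F (ω ∪ W))‖ ≤
      (2 * H + 4) * (C * K * ((1 : ℝ) / M) ^ (1 + α)) := by
  obtain ⟨C, α, hC, hα, key⟩ := disp_coarse
  refine ⟨C, α, hC, hα, ?_⟩
  intro D n H A CL hc M hM hMn hcr m hm p s Z E W ho hE hW hd hZ hag F hB K hK hF
  refine key D n H A CL hc M hM hMn hcr m hm p s Z (EPs D m p s ∩ Z) (WPs D m p s ∩ Z) E W ho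
    inter_subset_right inter_subset_right hE hW disj_Ps hd hZ (fun c h => natC_nat hm (hZ c h)) ?_ F hB K hK hF
  intro l hl
  by_cases hlZ : l ∈ Z
  · obtain ⟨x, y, rfl⟩ : ∃ x y, l = lt (x, y) := ⟨(tt l).1, (tt l).2, (lt_tt (ho l hlZ)).symm⟩
    obtain ⟨h1, h2⟩ := hag x y hlZ fun c h h' => hl c h (mem_SL.2 h')
    rw [mem_inter, mem_inter, mem_EPs hm, mem_WPs, h1, h2]
    exact ⟨⟨fun h => h.1, fun h => ⟨h, hlZ⟩⟩, ⟨fun h => h.1, fun h => ⟨h, hlZ⟩⟩⟩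
  · exact ⟨iff_of_false (fun h => hlZ (mem_inter.1 h).2) (fun h => hlZ (hE h)),
      iff_of_false (fun h => hlZ (mem_inter.1 h).2) (fun h => hlZ (hW h))⟩

/-- off the small squares the pushed windows of the two worlds agree -/
lemma same_place (C : CoarseD D n H A CL) (hm : 4 ≤ m) (hf : ∀ c ∈ cns D n H A, ¬ SQ D m c.1 c.2 x y) :
    EPn D {.L} (x + sh false) y ↔ EPn D {.R} (x + sh true) y := by
  by_cases hb : BX D (m - 1) x y
  · have h1 : ∀ c ∈ cns D n H A, ¬ (c.1 - 4 ≤ x ∧ x ≤ c.1 + 4 ∧ c.2 - 4 ≤ y ∧ y ≤ c.2 + 4) := by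
      intro c hc h
      refine hf c hc ⟨?_, hb⟩
      omega
    rw [sh_false, sh_true, EPn_mink C .L (fun c hc h => h1 c hc (by omega)),
      EPn_mink C .R (fun c hc h => h1 c hc (by omega))]
    have e1 : x + 0 - dx .L = x + 1 := by unfold dx; ring
    have e2 : x + 1 - dx .R = x := by unfold dx; ring
    have e3 : y - dy .L = y := by unfold dy; ring
    have e4 : y - dy .R = y := by unfold dy; ring
    rw [e1, e2, e3, e4, add_zero]
    exact Or.comm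
  · exact iff_of_false (fun h => hb (EPn_BX hm h)) (fun h => hb (EPn_BX hm h))

/-- **The same region at the same place** -/
theorem nat_same : ∃ C α : ℝ, 0 < C ∧ 0 < α ∧ ∀ (D : Win) (n H : ℤ) (A : ℤ → ℤ) (CL : ℤ → Bool),
    CoarseD D n H A CL → ∀ M : ℤ, 400 ≤ M → 2 * M ≤ n → CrE D M → ∀ m : ℤ, 4 ≤ m →
    ∀ Z : Finset (ℤ × ℤ), (∀ e ∈ Z, (e.1 + e.2) % 2 = 1) → (∀ c ∈ cns D n H A, ZnC D m Z c.1 c.2 M) →
    ∀ F : Finset (ℤ × ℤ) → ℂ, (∀ c ∈ cns D n H A, BoxF Z (NB Z c.1 c.2 M) F) → ∀ K : ℝ, 0 ≤ K →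
    (∀ w ⊆ Z, ‖F w‖ ≤ K) →
    ‖Nv D m false {.L} Z F - Nv D m true {.R} Z F‖ ≤ (2 * H + 4) * (C * K * ((1 : ℝ) / M) ^ (1 + α)) := by
  obtain ⟨C, α, hC, hα, key⟩ := nat_disp
  refine ⟨C, α, hC, hα, ?_⟩
  intro D n H A CL hc M hM hMn hcr m hm Z ho hZ F hB K hK hF
  have hag : ∀ x y, lt (x, y) ∈ Z → (∀ c ∈ cns D n H A, ¬ SQ D m c.1 c.2 x y) →
      (lt (x, y) ∈ EPs D m true {.R} ∩ Z ↔ EPn D {.L} (x + sh false) y) ∧
      (lt (x, y) ∈ WPs D m true {.R} ∩ Z ↔ BX D m x y ∧ ¬ EPn D {.L} (x + sh false) y ∧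
        natc D false x y = true) := by
    intro x y hlZ hf
    have h1 := same_place hc hm hf
    have h2 : natc D true x y = natc D false x y := by rw [natc_def, natc_def]
    constructor
    · rw [mem_inter, mem_EPs hm, h1]
      exact ⟨fun h => h.1, fun h => ⟨h, hlZ⟩⟩
    · rw [mem_inter, mem_WPs, h1, h2]
      exact ⟨fun h => h.1, fun h => ⟨h, hlZ⟩⟩
  have h1 : EPs D m true {.R} ∩ Z ⊆ Z := inter_subset_right
  have h2 : WPs D m true {.R} ∩ Z ⊆ Z := inter_subset_right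
  have h3 : Disjoint (EPs D m true {.R} ∩ Z) (WPs D m true {.R} ∩ Z) := disj_Ps
  have k1 := key D n H A CL hc M hM hMn hcr m hm false {.L} Z _ _ ho h1 h2
  have k2 := k1 h3 hZ
  have k3 := k2 hag F hB
  exact k3 K hK hF

end Pool.Agent.H14.W
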