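import Mathlib
import Pool.Agent.H14.W.NCoarse
import Pool.Agent.H80.W.Zones

set_option autoImplicit false
open Finset

/-! # Functionals which see a box only through its strands

`SeesB Z M F` : with fixed labels off the box `M`, the functional `F` depends only on the link pattern of `M`.
`SeesB.box` : toggles `BoxF`. `nb_TR` : the labels near a corner form a rectangle of tiles. -/

namespace Pool.Agent.H14.W

open Pool.Agent.H75.Perc hiding ph
open Pool.Agent.H75.TwoArm Pool.Agent.H75.Four Pool.Agent.H69.Q1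
open Pool.Agent.Q1 Pool.Agent.H43.Q1 Pool.Agent.H39.Q1 Pool.Agent.Q1.M6c
open H80.W (Pat Entry ZF ZV OutV OutF pat_A pat_B pat_C pat_D pat_inter TR)
open Pool.Agent.H54.W (Win)
open Pool.Agent.H33.Q1 (lt tt tv tf lt_inj tt_lt lt_odd lt_tt)

variable {β : Type*} {Z M w w' : Finset (ℤ × ℤ)} {F : Finset (ℤ × ℤ) → β} {D : Win} {m cx c K x y : ℤ}

/-- **The functional sees the box `M` only through its strands.** -/
def SeesB (Z M : Finset (ℤ × ℤ)) (F : Finset (ℤ × ℤ) → β) : Prop :=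
  ∀ w w' : Finset (ℤ × ℤ), w ⊆ Z → w' ⊆ Z → w \ M = w' \ M →
    (∀ c, Entry M c → ∀ d, Pat M w c d ↔ Pat M w' c d) → F w = F w'

theorem SeesB.box (h : SeesB Z M F) (hM : M ⊆ Z) (hf : ZF M) (hv : ZV M) : BoxF Z M F where
  A w e u v hw he hew h1 h2 h3 := by
    refine h _ _ hw (insert_subset (hM he) hw) (by rw [insert_sdiff_of_mem _ he]) fun c hc d => ?_
    have h4 := pat_A (d := d) hf (inter_subset_right : w ∩ M ⊆ M) he
      (fun h5 => hew (mem_inter.1 h5).1) h1 h2 h3 hc
    rw [← insert_inter_of_mem he, pat_inter, pat_inter] at h4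
    exact h4
  B w e u v hw he hew h1 h2 h3 h4 := by
    refine h _ _ hw (insert_subset (hM he) hw) (by rw [insert_sdiff_of_mem _ he]) fun c hc d => ?_
    refine pat_B he hew h1 h2 h3 ?_ hc
    rintro x hx ⟨y, hy, hy'⟩
    exact hy' (h4 x hx y hy)
  C w e φ ψ hw he hew h1 h2 h3 := by
    refine h _ _ hw (insert_subset (hM he) hw) (by rw [insert_sdiff_of_mem _ he]) fun c hc d => ?_
    exact pat_C hv he hew h1 h2 h3 hc
  D w e φ ψ hw he hew h1 h2 h3 h4 := by
    refine h _ _ hw (insert_subset (hM he) hw) (by rw [insert_sdiff_of_mem _ he]) fun c hc d => ?_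
    refine pat_D he hew h1 h2 h3 ?_ hc
    rintro x hx ⟨y, hy, hy'⟩
    exact hy' (h4 x hx y hy)

lemma odd_NB (ho : ∀ e ∈ Z, (e.1 + e.2) % 2 = 1) : ∀ e ∈ NB Z cx c K, (e.1 + e.2) % 2 = 1 :=
  fun e he => ho e (NB_sub he)

/-- **the labels of the zone near a corner form a rectangle of tiles** -/
lemma nb_TR (hZ : ∀ x y, Dc cx c K x y → (lt (x, y) ∈ Z ↔ BX D m x y)) :
    TR (NB Z cx c K) (max (cx - K) (D.lo - m)) (min (cx + K + 1) (D.w + m)) (max (c - K) (-m))
      (min (c + K + 1) (D.h + m)) := by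
  intro e he
  obtain ⟨x, y, rfl⟩ : ∃ x y, e = lt (x, y) := ⟨(tt e).1, (tt e).2, (lt_tt he).symm⟩
  rw [mem_NB]
  have e1 : (lt (x, y)).1 + (lt (x, y)).2 = 2 * x + 1 := by unfold lt; simp only; ring
  have e2 : (lt (x, y)).2 - (lt (x, y)).1 = 2 * y + 1 := by unfold lt; simp only; ring
  rw [e1, e2]
  constructor
  · rintro ⟨h1, h2⟩
    have h3 := (hZ x y h2).1 h1
    unfold BX at h3
    unfold Dc at h2
    omega
  · intro h
    have h2 : Dc cx c K x y := by unfold Dc; omega
    refine ⟨(hZ x y h2).2 ?_, h2⟩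
    unfold BX
    omega

/-- toggles near a corner, for functionals which see the box near the corner only through its strands -/
theorem SeesB.nb (h : SeesB Z (NB Z cx c K) F) (ho : ∀ e ∈ Z, (e.1 + e.2) % 2 = 1)
    (hZ : ∀ x y, Dc cx c K x y → (lt (x, y) ∈ Z ↔ BX D m x y)) : BoxF Z (NB Z cx c K) F :=
  h.box NB_sub ((nb_TR hZ).zf (odd_NB ho)) ((nb_TR hZ).zv (odd_NB ho))

end Pool.Agent.H14.W
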