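import Mathlib
import Pool.Agent.H14.W.PBox
import Pool.Agent.H13.W.Graph

set_option autoImplicit false
open Finset

/-! # Functionals of the strand graph see a box only through its strands

`Bdy M c` : the corner `c` is not between two tiles of the box `M`. `bdy_pat` : strands of the box between
two such corners. `reach_iff` : the link between two such corners in `SG Λ D w` depends only on the labels off the box
and on the link pattern of the box. `seesB_SG` : functionals of the links. -/

namespace Pool.Agent.H14.W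

open Pool.Agent.H75.Perc hiding ph
open Pool.Agent.H75.TwoArm Pool.Agent.H13.W
open H80.W (Pat Entry Ex)

variable {β : Type*} {M w w' Z : Finset (ℤ × ℤ)} {Λ D : Set (ℤ × ℤ)} {a b c d u v : ℤ × ℤ}

/-- the corner is not between two tiles of the box -/
def Bdy (M : Finset (ℤ × ℤ)) (c : ℤ × ℤ) : Prop := ¬ (lab c ∈ M ∧ plab c ∈ M)

lemma entry_of (h : plab c ∉ M) : Entry M c := by
  intro x hx
  have h1 := SymmAux.plab_nx' (∅ : Finset (ℤ × ℤ)) x
  have h2 := SymmAux.plab_nx' ({lab x} : Finset (ℤ × ℤ)) x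
  unfold nx at h1 h2
  rw [if_neg (notMem_empty _)] at h1
  rw [if_pos (mem_singleton_self _)] at h2
  constructor
  · rintro rfl; rw [h2] at h; exact h hx
  · rintro rfl; rw [h1] at h; exact h hx

/-- the links of the box which start at an entry -/
lemma reach_entry (ha : lab a ∈ M) (hb : Bdy M a) (h : (SG (M : Set (ℤ × ℤ)) ∅ w).Reachable a v) :
    ∃ k : ℕ, (nx w)^[k] a = v ∧ ∀ j < k, lab ((nx w)^[j] a) ∈ M := by
  rw [SimpleGraph.reachable_iff_reflTransGen] at h
  induction h with
  | refl => exact ⟨0, rfl, fun j hj => absurd hj (Nat.not_lt_zero _)⟩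
  | tail _ hadj ih =>
    obtain ⟨k, h1, h2⟩ := ih
    obtain ⟨e, he, hT⟩ := SG_adj.1 hadj
    rcases hT with ⟨h3, -⟩ | ⟨-, h3 | h3⟩
    · exact absurd h3 (Set.notMem_empty _)
    · refine ⟨k + 1, by rw [Function.iterate_succ_apply', h1, h3.2], fun j hj => ?_⟩
      rcases Nat.lt_succ_iff_lt_or_eq.1 hj with h4 | rfl
      · exact h2 j h4
      · rw [h1, h3.1]; exact he
    · cases k with
      | zero =>
        exfalso
        rw [Function.iterate_zero_apply] at h1
        refine hb ⟨ha, ?_⟩
        rw [h1, ← h3.2, SymmAux.plab_nx', h3.1]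
        exact he
      | succ k =>
        refine ⟨k, ?_, fun j hj => h2 j (by omega)⟩
        rw [Function.iterate_succ_apply', ← h3.2] at h1
        exact nx_inj h1

/-- the links of the box which start at a corner whose label is not in the box -/
lemma reach_exit (ha : lab a ∉ M) (h : (SG (M : Set (ℤ × ℤ)) ∅ w).Reachable a v) :
    ∃ k : ℕ, (nx w)^[k] v = a ∧ ∀ j < k, lab ((nx w)^[j] v) ∈ M := by
  rw [SimpleGraph.reachable_iff_reflTransGen] at h
  induction h with
  | refl => exact ⟨0, rfl, fun j hj => absurd hj (Nat.not_lt_zero _)⟩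
  | tail _ hadj ih =>
    obtain ⟨k, h1, h2⟩ := ih
    obtain ⟨e, he, hT⟩ := SG_adj.1 hadj
    rcases hT with ⟨h3, -⟩ | ⟨-, h3 | h3⟩
    · exact absurd h3 (Set.notMem_empty _)
    · cases k with
      | zero =>
        exfalso
        rw [Function.iterate_zero_apply] at h1
        rw [← h1, h3.1] at ha
        exact ha he
      | succ k =>
        refine ⟨k, ?_, fun j hj => ?_⟩
        · rw [Function.iterate_succ_apply, h3.2] at h1
          exact h1
        · have := h2 (j + 1) (by omega)
          rwa [Function.iterate_succ_apply, h3.2] at this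
    · refine ⟨k + 1, by rw [Function.iterate_succ_apply, h3.2, h1], fun j hj => ?_⟩
      cases j with
      | zero => rw [Function.iterate_zero_apply, h3.1]; exact he
      | succ j =>
        rw [Function.iterate_succ_apply, h3.2]
        exact h2 j (by omega)

/-- **Links of the box between its boundary corners** -/
lemma bdy_pat (ha : Bdy M a) (hb : Bdy M b) (h : (SG (M : Set (ℤ × ℤ)) ∅ w).Reachable a b) :
    a = b ∨ (Entry M a ∧ Pat M w a b) ∨ (Entry M b ∧ Pat M w b a) := by
  have key : ∀ {a b : ℤ × ℤ}, Bdy M a → Bdy M b → lab a ∈ M →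
      (SG (M : Set (ℤ × ℤ)) ∅ w).Reachable a b → a = b ∨ (Entry M a ∧ Pat M w a b) := by
    intro a b ha hb h1 h
    obtain ⟨k, h2, h3⟩ := reach_entry h1 ha h
    cases k with
    | zero => exact Or.inl h2
    | succ k =>
      refine Or.inr ⟨entry_of fun h4 => ha ⟨h1, h4⟩, k + 1, h2, fun h4 => ?_, h3⟩
      refine hb ⟨h4, ?_⟩
      rw [← h2, Function.iterate_succ_apply', SymmAux.plab_nx']
      exact h3 k (by omega)
  by_cases h1 : lab a ∈ M
  · rcases key ha hb h1 h with h2 | h2
    · exact Or.inl h2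
    · exact Or.inr (Or.inl h2)
  by_cases h2 : lab b ∈ M
  · rcases key hb ha h2 h.symm with h3 | h3
    · exact Or.inl h3.symm
    · exact Or.inr (Or.inr h3)
  obtain ⟨k, h3, h4⟩ := reach_exit h1 h
  cases k with
  | zero => exact Or.inl h3.symm
  | succ k => exact absurd (h4 0 (by omega)) h2

/-- strands are links -/
lemma pat_reach (h : Pat M w a b) : (SG (M : Set (ℤ × ℤ)) ∅ w).Reachable a b := by
  obtain ⟨n, h1, -, h3⟩ := h
  have key : ∀ k ≤ n, (SG (M : Set (ℤ × ℤ)) ∅ w).Reachable a ((nx w)^[k] a) := by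
    intro k
    induction k with
    | zero => intro _; exact SimpleGraph.Reachable.refl _
    | succ k ih =>
      intro hk
      refine (ih (by omega)).trans (SimpleGraph.Adj.reachable ?_)
      rw [SG_adj]
      refine ⟨lab ((nx w)^[k] a), h3 k (by omega), Or.inr ⟨Set.notMem_empty _, Or.inl ⟨rfl, ?_⟩⟩⟩
      rw [Function.iterate_succ_apply']
  rw [← h1]
  exact key n le_rfl

/-- the same links of the box -/
lemma bdy_iff (hp : ∀ c, Entry M c → ∀ d, Pat M w c d ↔ Pat M w' c d) (ha : Bdy M a) (hb : Bdy M b)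
    (h : (SG (M : Set (ℤ × ℤ)) ∅ w).Reachable a b) : (SG (M : Set (ℤ × ℤ)) ∅ w').Reachable a b := by
  rcases bdy_pat ha hb h with rfl | ⟨h1, h2⟩ | ⟨h1, h2⟩
  · exact SimpleGraph.Reachable.refl _
  · exact pat_reach ((hp _ h1 _).1 h2)
  · exact (pat_reach ((hp _ h1 _).1 h2)).symm

/-- the strands of the box are strands of the world -/
lemma SG_le (hM : ∀ e ∈ M, e ∈ Λ ∧ e ∉ D) : SG (M : Set (ℤ × ℤ)) ∅ w ≤ SG Λ D w := by
  intro a b h
  obtain ⟨e, he, hT⟩ := SG_adj.1 h
  refine SG_adj.2 ⟨e, (hM e he).1, ?_⟩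
  rcases hT with ⟨h3, -⟩ | ⟨-, h3⟩
  · exact absurd h3 (Set.notMem_empty _)
  · exact Or.inr ⟨(hM e he).2, h3⟩

lemma reach_mono (hM : ∀ e ∈ M, e ∈ Λ ∧ e ∉ D) (hww : ∀ e ∉ M, e ∈ w ↔ e ∈ w')
    (hp : ∀ c, Entry M c → ∀ d, Pat M w c d ↔ Pat M w' c d) (ha : Bdy M a) (hb : Bdy M b)
    (h : (SG Λ D w).Reachable a b) : (SG Λ D w').Reachable a b := by
  have key : ∀ v, (SG Λ D w).Reachable a v → ∀ b, Bdy M b →
      (SG (M : Set (ℤ × ℤ)) ∅ w).Reachable v b → (SG Λ D w').Reachable a b := by
    intro v hv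
    rw [SimpleGraph.reachable_iff_reflTransGen] at hv
    induction hv with
    | refl =>
      intro b hb h
      exact (bdy_iff hp ha hb h).mono (SG_le hM)
    | tail _ hadj ih =>
      rename_i v v' _
      intro b hb h
      obtain ⟨e, he, hT⟩ := SG_adj.1 hadj
      by_cases heM : e ∈ M
      · refine ih b hb (SimpleGraph.Reachable.trans (SimpleGraph.Adj.reachable (SG_adj.2 ⟨e, heM, ?_⟩)) h)
        rcases hT with ⟨h3, -⟩ | ⟨-, h3⟩
        · exact absurd h3 (hM e heM).2
        · exact Or.inr ⟨Set.notMem_empty _, h3⟩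
      · have hv : Bdy M v := by
          rintro ⟨h1, h2⟩
          rcases hT.label with h3 | h3 <;> rw [h3] at heM
          · exact heM h1
          · exact heM h2
        have hv' : Bdy M v' := by
          rintro ⟨h1, h2⟩
          rcases hT.label' with h3 | h3 <;> rw [h3] at heM
          · exact heM h1
          · exact heM h2
        refine (ih v hv (SimpleGraph.Reachable.refl _)).trans
          (SimpleGraph.Reachable.trans (SimpleGraph.Adj.reachable (SG_adj.2 ⟨e, he, ?_⟩))
            ((bdy_iff hp hv' hb h).mono (SG_le hM)))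
        exact (TJ_congr Iff.rfl (fun _ => hww e heM)).1 hT
  exact key b h b hb (SimpleGraph.Reachable.refl _)

/-- **The links depend only on the labels off the box and on the link pattern of the box.** -/
theorem reach_iff (hM : ∀ e ∈ M, e ∈ Λ ∧ e ∉ D) (hww : w \ M = w' \ M)
    (hp : ∀ c, Entry M c → ∀ d, Pat M w c d ↔ Pat M w' c d) (ha : Bdy M a) (hb : Bdy M b) :
    (SG Λ D w).Reachable a b ↔ (SG Λ D w').Reachable a b := by
  have h1 : ∀ e ∉ M, (e ∈ w ↔ e ∈ w') := by
    intro e he
    have := Finset.ext_iff.1 hww e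
    simp only [mem_sdiff, he, not_false_eq_true, and_true] at this
    exact this
  exact ⟨reach_mono hM h1 hp ha hb,
    reach_mono hM (fun e he => (h1 e he).symm) (fun c hc d => (hp c hc d).symm) ha hb⟩

/-- **Functionals of the links between named corners** -/
theorem seesB_SG {κ : Type*} (hM : ∀ e ∈ M, e ∈ Λ ∧ e ∉ D) (K : κ → ℤ × ℤ) (hK : ∀ k, Bdy M (K k))
    (Ψ : (κ → κ → Prop) → β) : SeesB Z M fun w => Ψ fun i j => (SG Λ D w).Reachable (K i) (K j) := by
  intro w w' _ _ hww hp
  have : (fun i j => (SG Λ D w).Reachable (K i) (K j)) = fun i j => (SG Λ D w').Reachable (K i) (K j) := by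
    funext i j
    exact propext (reach_iff hM hww hp (hK i) (hK j))
  exact congrArg Ψ this

end Pool.Agent.H14.W
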