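import Mathlib
import Pool.Agent.H14.W.PBox
import Pool.Agent.H92.W.Corner

set_option autoImplicit false
open Finset

/-! # Row convex zones, functionals of helper92

`RowConv Z` : the rows are intervals (for example a box without a half row). `ZF_of_row`, `ZV_of_row` : the
complement is connected. `patInv_box` : toggles `BoxF` in a box `M` for the functionals `PatInv M` of H92/W/PatSG.
`patF_links` : functionals of the links of the strand graph are functionals of the pattern of the zone. -/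

namespace Pool.Agent.H14.W

open Pool.Agent.H75.Perc Pool.Agent.H75.TwoArm Pool.Agent.Q1 Pool.Agent.H33.Q1 H80.W Pool.Agent.H92.W
open Pool.Agent.H13.W (SG)

variable {Z M w : Finset (ℤ × ℤ)} {e e' : ℤ × ℤ} {β : Type*} {Λ D : Set (ℤ × ℤ)}

/-- the rows are intervals -/
def RowConv (Z : Finset (ℤ × ℤ)) : Prop :=
  ∀ y x1 x x2 : ℤ, x1 ≤ x → x ≤ x2 → lt (x1, y) ∈ Z → lt (x2, y) ∈ Z → lt (x, y) ∈ Z

/-- the complement of a row convex set is connected -/
theorem off_conn_row (hZ : RowConv Z) (ho : (e.1 + e.2) % 2 = 1) (ho' : (e'.1 + e'.2) % 2 = 1)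
    (he : e ∉ Z) (he' : e' ∉ Z) : Ch {l | l ∉ Z} e e' := by
  obtain ⟨M0, hM0⟩ := exists_far (insert e (insert e' Z))
  have key : ∀ a : ℤ × ℤ, (a.1 + a.2) % 2 = 1 → a ∉ Z → |(tt a).1| < M0 → |(tt a).2| < M0 →
      Ch {l | l ∉ Z} a (lt (M0, M0)) := by
    intro a ha haZ h1 h2
    have hfar : ∀ x y : ℤ, M0 ≤ |x| ∨ M0 ≤ |y| → lt (x, y) ∈ {l : ℤ × ℤ | l ∉ Z} := by
      intro x y h hxy
      have h3 := hM0 (lt (x, y)) (by simp [hxy])
      rw [tt_lt] at h3
      simp only at h3
      omega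
    rw [← lt_tt ha]
    rw [← lt_tt ha] at haZ
    generalize tt a = t at h1 h2 haZ ⊢
    obtain ⟨x, y⟩ := t
    rw [abs_lt] at h1 h2
    simp only at h1 h2
    by_cases hup : ∀ x', x ≤ x' → lt (x', y) ∉ Z
    · refine (Ch_row (x' := M0) (by omega) fun k hk _ => hup k hk).trans ?_
      refine Ch_col (by omega) fun k _ _ => hfar _ _ (Or.inl (le_abs_self _))
    · push Not at hup
      obtain ⟨x2, hx2, hx2Z⟩ := hup
      have hdn : ∀ x', x' ≤ x → lt (x', y) ∉ Z := fun x' hx' h => haZ (hZ y x' x x2 hx' hx2 h hx2Z)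
      refine (Ch_row (x := -M0) (x' := x) (by omega) fun k _ hk => hdn k hk).symm.trans ?_
      refine (Ch_col (y' := M0) (by omega) fun k _ _ => hfar _ _ (Or.inl (by
        rw [abs_neg]; exact le_abs_self _))).trans ?_
      exact Ch_row (by omega) fun k _ _ => hfar _ _ (Or.inr (le_abs_self _))
  have h1 := hM0 e (mem_insert_self _ _)
  have h2 := hM0 e' (mem_insert_of_mem (mem_insert_self _ _))
  exact (key e ho he h1.1 h1.2).trans (key e' ho' he' h2.1 h2.2).symm

theorem ZF_of_row (hZ : RowConv Z) : ZF Z := by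
  intro a b ha hb
  obtain ⟨e, he1, he2⟩ := outF_iff.1 ha
  obtain ⟨e', he1', he2'⟩ := outF_iff.1 hb
  exact (off_conn_row hZ he1.odd he1'.odd he2 he2').dco he2 (fun l hl => hl) he1 he1'

theorem ZV_of_row (hZ : RowConv Z) : ZV Z := by
  intro a b ha hb
  obtain ⟨e, he1, he2⟩ := outV_iff.1 ha
  obtain ⟨e', he1', he2'⟩ := outV_iff.1 hb
  exact (off_conn_row hZ he1.odd he1'.odd he2 he2').off he2 he1 he1'

/-- functionals of helper92 see the box only through its strands -/
theorem patInv_seesB {Φ : Finset (ℤ × ℤ) → β} (h : PatInv M Φ) : SeesB Z M Φ := by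
  intro w w' _ _ hww hp
  refine h w w' (fun e he => ?_) hp
  have := Finset.ext_iff.1 hww e
  simp only [mem_sdiff, he, not_false_eq_true, and_true] at this
  exact this

/-- **functionals of the links are functionals of the pattern of the zone** (labels `o` off the zone are fixed) -/
theorem patF_links {κ : Type*} (hf : ZF Z) (hv : ZV Z) (hZ : ∀ e ∈ Z, e ∈ Λ ∧ e ∉ D) (X : κ → ℤ × ℤ)
    (hX : ∀ i, Outer Z (X i)) (Ψ : (κ → κ → Prop) → β) (o : Finset (ℤ × ℤ)) (ho : Disjoint o Z) :
    PatF Z {c | Entry Z c} fun w => Ψ fun i j => (SG Λ D (w ∪ o)).Reachable (X i) (X j) := by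
  refine ⟨hf, hv, fun c hc => hc, ?_⟩
  intro w hw w' hw' hp
  have key : ∀ {w : Finset (ℤ × ℤ)}, w ⊆ Z → (w ∪ o) ∩ Z = w := by
    intro w hw
    ext l
    rw [mem_inter, mem_union]
    constructor
    · rintro ⟨h1 | h1, h2⟩
      · exact h1
      · exact absurd h2 (disjoint_left.1 ho h1)
    · exact fun h1 => ⟨Or.inl h1, hw h1⟩
  refine congrArg Ψ (patInv_SG X hZ hX (w ∪ o) (w' ∪ o) (fun e he => ?_) fun c hc d => ?_)
  · rw [mem_union, mem_union]
    constructor
    · rintro (h1 | h1)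
      · exact absurd (hw h1) he
      · exact Or.inr h1
    · rintro (h1 | h1)
      · exact absurd (hw' h1) he
      · exact Or.inr h1
  · rw [← pat_inter (w := w ∪ o), ← pat_inter (w := w' ∪ o), key hw, key hw']
    exact hp c hc d

end Pool.Agent.H14.W
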